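import Pool.Agent.Work.MP_3574a2_pr.Defs

set_option autoImplicit false

/-!
# MP_3574a2_pr : the statements of the steps of the proof

Every step is a `Prop`; the file of a step proves it (assuming, as hypotheses, the earlier steps it
uses), and the last file puts them together.
-/

namespace Pool.Agent.Work.MP_3574a2_pr

open MeasureTheory ProbabilityTheory

/-! ## G. Gaussian tools -/

/-- A matrix with orthonormal rows maps the standard Gaussian measure to the standard Gaussian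
measure. -/
def GaussMap : Prop :=
  ∀ (ι κ : Type) [Fintype ι] [Fintype κ] [DecidableEq κ] (L : Matrix κ ι ℝ),
    L * L.transpose = 1 → (gm ι).map (fun a => L.mulVec a) = gm κ

/-- Tail bounds for a linear form. -/
def GaussTail : Prop :=
  ∀ (ι : Type) [Fintype ι] (q : ι → ℝ) (x : ℝ), 0 < sq q → 0 ≤ x →
    (gm ι).real {a | x ≤ pair a q} ≤ Real.exp (-(x ^ 2) / (2 * sq q)) ∧
    (Real.sqrt (2 * Real.pi))⁻¹ * Real.exp (-((x / Real.sqrt (sq q) + 1) ^ 2) / 2) ≤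
      (gm ι).real {a | x < pair a q}

/-- Moments and tails of the sup norm. -/
def GaussSup : Prop :=
  ∀ (ι : Type) [Fintype ι] [Nonempty ι],
    Integrable (fun a : ι → ℝ => ‖a‖ ^ 2) (gm ι) ∧
    mu2 ι ≤ 4 * Real.log (2 * Fintype.card ι) ∧
    (∀ T : ℝ, 0 ≤ T →
      (gm ι).real {a | T < ‖a‖} ≤ 2 * Fintype.card ι * Real.exp (-(T ^ 2) / 2)) ∧
    ∀ T : ℝ, 0 ≤ T → eta ι T ≤ 16 * Fintype.card ι * Real.exp (-(T ^ 2) / 8)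

/-! ## R. Gaussian smoothing of a convex functional -/

/-- The normalising factor of `a + s a'`. -/
noncomputable def rho (s : ℝ) : ℝ := (Real.sqrt (1 + s ^ 2))⁻¹

/-- The increment `ρ Λ(a + s a') - Λ(a)`. -/
noncomputable def incr {ι : Type} (Λ : (ι → ℝ) → ℝ) (s : ℝ) (p : (ι → ℝ) × (ι → ℝ)) : ℝ :=
  rho s * Λ (p.1 + s • p.2) - Λ p.1

/-- Second order expansion of `(x - t)₊² / 2` along the increment; the two sides have the same law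
because `ρ (a + s a')` is a standard Gaussian vector. -/
def SmoothPair : Prop :=
  ∀ (ι : Type) [Fintype ι] (Λ : (ι → ℝ) → ℝ) (t s : ℝ), IsGood Λ → 0 < s → s ≤ 1 → 0 < t →
    Integrable (fun p => incr Λ s p ^ 2) ((gm ι).prod (gm ι)) ∧
    Integrable (fun p => max (Λ p.1 - t) 0 * (-incr Λ s p)) ((gm ι).prod (gm ι)) ∧
    ∫ p, max (Λ p.1 - t) 0 * (-incr Λ s p) ∂((gm ι).prod (gm ι)) ≤
      1 / 2 * ∫ p in {p | t - |incr Λ s p| < Λ p.1}, incr Λ s p ^ 2 ∂((gm ι).prod (gm ι)) ∧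
    1 / 2 * ∫ p in {p | t + |incr Λ s p| < Λ p.1}, incr Λ s p ^ 2 ∂((gm ι).prod (gm ι)) ≤
      ∫ p, max (Λ p.1 - t) 0 * (-incr Λ s p) ∂((gm ι).prod (gm ι))

/-- Lower inequality for the excess moments. -/
def SmoothLower : Prop :=
  ∀ (ι : Type) [Fintype ι] (Λ : (ι → ℝ) → ℝ) (Bad : Set (ι → ℝ)) (t S ε g C s T : ℝ),
    IsGood Λ → MeasurableSet Bad → 0 < S → S ≤ 1 → 0 ≤ ε → ε ≤ 1 → 0 ≤ C → 0 < s → s ≤ 1 →
    1 ≤ T → s * T ≤ g → 0 < t → LocQuad Λ Bad t S ε g C →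
    0 ≤ (1 - ε) * S - s ^ 2 - eta ι T - 2 * s * T * (C * T ^ 2 + T) →
    ((1 - ε) * S - s ^ 2 - eta ι T - 2 * s * T * (C * T ^ 2 + T)) *
        (tl Λ (t + 2 * s * T) - (gm ι).real Bad - eta ι T) ≤
      t * h1 Λ t + h2 Λ t

/-- Upper inequality for the excess moments. -/
def SmoothUpper : Prop :=
  ∀ (ι : Type) [Fintype ι] (Λ : (ι → ℝ) → ℝ) (Bad : Set (ι → ℝ)) (t S ε g C s T : ℝ),
    IsGood Λ → MeasurableSet Bad → 0 < S → S ≤ 1 → 0 ≤ ε → ε ≤ 1 → 0 ≤ C → 0 < s → s ≤ 1 →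
    1 ≤ T → s * T ≤ g → 0 < t → 2 * s * T ≤ t → LocQuad Λ Bad (t - 2 * s * T) S ε g C →
    (1 - s ^ 2) * (t * h1 Λ t + h2 Λ t) ≤
      (S + 2 * s * T * (C * T ^ 2 + T) + s ^ 2 * (C * T ^ 2 + T) ^ 2) * tl Λ (t - 2 * s * T) +
      (2 * C * mu2 ι + 4 * eta ι T / s) * h1 Λ t +
      2 / s * (1 + mu2 ι) * (T * (gm ι).real Bad + eta ι T) +
      2 * (mu2 ι + T ^ 2) * (gm ι).real Bad + 4 * (1 + mu2 ι) * eta ι T

/-! ## M. Sparsification -/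

/-- Off a small explicit set, no sparse direction of small energy reaches the level `u`. -/
def Maurey : Prop :=
  ∀ (ι : Type) [Fintype ι] (k : ℕ) (u S : ℝ), 1 ≤ k → 0 < u → 0 < S →
    ∃ Bad : Set (ι → ℝ), MeasurableSet Bad ∧
      (gm ι).real Bad ≤ ((Fintype.card ι : ℝ) + 1) ^ k * Real.exp (-(u ^ 2) / (2 * S)) ∧
      ∀ a, a ∉ Bad → ∀ q : ι → ℝ, (∀ j, 0 ≤ q j) → ∑ j, q j ≤ 1 → sq q + 1 / (k : ℝ) ≤ S →
        pair a q < u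

/-! ## S. Systems -/

/-- Basic facts on the functional of a system. -/
def SysGood : Prop :=
  ∀ (ι : Type) [Fintype ι] (E : Type) [NormedAddCommGroup E] [InnerProductSpace ℂ E]
    [FiniteDimensional ℂ E] (ξ : ι → E), Bessel ξ →
    IsGood (Lam ξ) ∧ Continuous (Lam ξ) ∧
    (∀ a, ∃ w : E, ‖w‖ ≤ 1 ∧ pair a (qv ξ w) = Lam ξ a) ∧
    (∀ a, ∀ w : E, ‖w‖ ≤ 1 → pair a (qv ξ w) ≤ Lam ξ a) ∧
    (∃ w : E, ‖w‖ ≤ 1 ∧ sq (qv ξ w) = sig2 ξ) ∧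
    (∀ w : E, ‖w‖ ≤ 1 → sq (qv ξ w) ≤ sig2 ξ) ∧
    0 ≤ sig2 ξ ∧ sig2 ξ ≤ 1

/-- The local quadratic bound for the functional of a system. -/
def SysLoc : Prop :=
  ∀ (ι : Type) [Fintype ι] (E : Type) [NormedAddCommGroup E] [InnerProductSpace ℂ E]
    [FiniteDimensional ℂ E] (ξ : ι → E) (t β ε : ℝ) (k : ℕ), Bessel ξ → 0 < t → 0 < β → β < 1 →
    0 < ε → ε < 1 → 1 ≤ k →
    ∃ Bad : Set (ι → ℝ), MeasurableSet Bad ∧
      (gm ι).real Bad ≤ ((Fintype.card ι : ℝ) + 1) ^ k *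
        (Real.exp (-(t ^ 2) / (2 * ((1 - ε) * sig2 ξ + 1 / k))) +
          Real.exp (-((β * t) ^ 2) / (2 * (3 / 4 * sig2 ξ + 1 / k)))) ∧
      LocQuad (Lam ξ) Bad t (sig2 ξ) ε ((1 - β) * t / 4) (2 / ((1 - β) * t))

/-- Crude tail bounds. -/
def SysCrude : Prop :=
  ∀ (ι : Type) [Fintype ι] (E : Type) [NormedAddCommGroup E] [InnerProductSpace ℂ E]
    [FiniteDimensional ℂ E] (ξ : ι → E), Bessel ξ →
    (∀ (t : ℝ) (k : ℕ), 0 < t → 1 ≤ k → tl (Lam ξ) t ≤ ((Fintype.card ι : ℝ) + 1) ^ k *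
        Real.exp (-(t ^ 2) / (2 * (sig2 ξ + 1 / k)))) ∧
    ∀ t : ℝ, 0 ≤ t → 0 < sig2 ξ →
      (Real.sqrt (2 * Real.pi))⁻¹ * Real.exp (-((t / Real.sqrt (sig2 ξ) + 1) ^ 2) / 2) ≤
        tl (Lam ξ) t

/-- The asymptotic regime. -/
def Regime (n K N : ℕ) (ξ : Fin K → EuclideanSpace ℂ (Fin N)) : Prop :=
  1 ≤ K ∧ Real.log K ≤ 2 * Real.sqrt (Real.log n) ∧ Bessel ξ ∧ 1 / 64 ≤ sig2 ξ

/-- The range of levels: `t² / (2 S)` is close to `log n`. -/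
def InRange (c : ℝ) (n : ℕ) (t S : ℝ) : Prop :=
  |t ^ 2 / (2 * S) - Real.log n| ≤ c * Real.log n

def RangeLo : Prop :=
  ∀ c : ℝ, 0 < c → ∃ c' : ℝ, 0 < c' ∧ ∃ n0 : ℕ, ∀ n : ℕ, n0 ≤ n → ∀ (K N : ℕ)
    (ξ : Fin K → EuclideanSpace ℂ (Fin N)), Regime n K N ξ → ∀ t : ℝ, 0 < t →
    tl (Lam ξ) t ≤ (n : ℝ) ^ (-1 + c') → (1 - c) * Real.log n ≤ t ^ 2 / (2 * sig2 ξ)

def RangeHi : Prop :=
  ∀ c : ℝ, 0 < c → ∃ c' : ℝ, 0 < c' ∧ ∃ n0 : ℕ, ∀ n : ℕ, n0 ≤ n → ∀ (K N : ℕ)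
    (ξ : Fin K → EuclideanSpace ℂ (Fin N)), Regime n K N ξ → ∀ t : ℝ, 0 < t →
    (n : ℝ) ^ (-1 - c') ≤ tl (Lam ξ) t → t ^ 2 / (2 * sig2 ξ) ≤ (1 + c) * Real.log n

/-- The hazard rate at the levels of the range is `t / σ²` up to `1 + o(1)`. -/
def Regularity : Prop :=
  ∀ ε : ℝ, 0 < ε → ∃ c : ℝ, 0 < c ∧ ∃ n0 : ℕ, ∀ n : ℕ, n0 ≤ n → ∀ (K N : ℕ)
    (ξ : Fin K → EuclideanSpace ℂ (Fin N)), Regime n K N ξ → ∀ t : ℝ, 0 < t →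
    InRange c n t (sig2 ξ) →
    |sig2 ξ * tl (Lam ξ) t - t * h1 (Lam ξ) t| ≤ ε * (t * h1 (Lam ξ) t)

/-- The tail function is asymptotically exponential at the scale `σ² / t`. -/
def Ratio : Prop :=
  ∀ ε X : ℝ, 0 < ε → 0 < X → ∃ c : ℝ, 0 < c ∧ ∃ n0 : ℕ, ∀ n : ℕ, n0 ≤ n → ∀ (K N : ℕ)
    (ξ : Fin K → EuclideanSpace ℂ (Fin N)), Regime n K N ξ → ∀ t : ℝ, 0 < t →
    InRange c n t (sig2 ξ) → ∀ x : ℝ, |x| ≤ X →
    |tl (Lam ξ) (t + x * sig2 ξ / t) - Real.exp (-x) * tl (Lam ξ) t| ≤ ε * tl (Lam ξ) t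

/-! ## T. The Fourier system -/

def ToepBasic : Prop :=
  ∀ D N K : ℕ, 1 ≤ D → N ≤ 2 * D → K ≤ 2 * D →
    Bessel (xb D N K) ∧ (1 ≤ K → ((N : ℝ) / (2 * D)) ^ 2 ≤ sig2 (xb D N K))

/-- Modulation invariance. -/
def ToepShift : Prop :=
  ∀ (D N K : ℕ) (s : ℤ) (c : Fin K → ℝ),
    Lam (fun x : Fin K => xi D N (s + ((x : ℕ) : ℤ))) c = LB D N K c

def ToepMono : Prop :=
  ∀ (D N N' K : ℕ) (c : Fin K → ℝ), 1 ≤ D → N ≤ N' → LB D N K c ≤ LB D N' K c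

/-- Invariance under reflection of the window. -/
def ToepRefl : Prop :=
  ∀ (D N K : ℕ) (c : Fin K → ℝ), LB D N K (fun x => c (Fin.rev x)) = LB D N K c

/-- Localisation in frequency at the cost of a small extension in time. -/
def LocB : Prop :=
  ∀ (D N τ R : ℕ) (a : ℤ → ℝ) (A v : ℝ) (w : EuclideanSpace ℂ (Fin N))
    (J : Finset (ZMod (2 * D))), 1 ≤ D → 1 ≤ τ → 1 ≤ R → N + τ ≤ 2 * D → 0 ≤ A → 0 ≤ v →
    (∀ j, |a j| ≤ A) → ‖w‖ ≤ 1 →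
    v + 2 * A * D / (τ * R) <
      ∑ r ∈ J, a (r.val : ℤ) * ‖(inner ℂ (xi D N (r.val : ℤ)) w : ℂ)‖ ^ 2 →
    ∃ (b : ZMod (2 * D)) (w' : EuclideanSpace ℂ (Fin (N + τ))), ‖w'‖ ≤ 1 ∧
      ∀ I : Finset (ZMod (2 * D)),
        (∀ x : ℤ, |x| ≤ (R : ℤ) → (b + (x : ZMod (2 * D)) ∈ I ↔ b + (x : ZMod (2 * D)) ∈ J)) →
        v < ∑ r ∈ I, a (r.val : ℤ) * ‖(inner ℂ (xi D (N + τ) (r.val : ℤ)) w' : ℂ)‖ ^ 2

/-- From the full functional to the blocks. -/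
def LocU : Prop :=
  ∀ (m K R D N τ : ℕ) (a : ℤ → ℝ) (A v : ℝ), 1 ≤ R → 4 * R + 2 ≤ K → 2 ≤ m → D = m * K + 1 →
    1 ≤ τ → N + τ ≤ 2 * D → 0 ≤ v → 0 ≤ A → (∀ j, a (j + 2 * D) = a j) → (∀ j, a (-j) = a j) →
    (∀ j, |a j| ≤ A) → v + 2 * A * D / (τ * R) < Mf D N a →
    (∃ i : ℕ, i < m ∧ v < LB D (N + τ) K (wind a (i * K + 1) K)) ∨
    (∃ i : ℕ, 1 ≤ i ∧ i < m ∧
      v < LB D (N + τ) (4 * R + 1) (wind a (i * K - 2 * R) (4 * R + 1))) ∨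
    v < LB D (N + τ) (4 * R + 1) (wind a (-(2 * R)) (4 * R + 1)) ∨
    v < LB D (N + τ) (4 * R + 1) (wind a (D - 2 * R) (4 * R + 1))

/-- From a block to the full functional. -/
def LocL : Prop :=
  ∀ (D N τ R k : ℕ) (s : ℤ) (a : ℤ → ℝ) (A v : ℝ), 1 ≤ R → 2 * R ≤ k → 1 ≤ s → s + k ≤ D →
    1 ≤ τ → N + τ ≤ 2 * D → 0 ≤ v → 0 ≤ A → (∀ j, a (j + 2 * D) = a j) → (∀ j, |a j| ≤ A) →
    v + 2 * A * D / (τ * R) < LB D N k (wind a s k) →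
    v < Mf D (N + τ) a ∨ v < LB D (N + τ) (2 * R) (wind a s (2 * R)) ∨
    v < LB D (N + τ) (2 * R) (wind a (s + k - 2 * R) (2 * R))

/-- Comparison of two frequency grids. -/
def Embed : Prop :=
  ∀ (D D' N N' K : ℕ) (c : Fin K → ℝ), 1 ≤ D → D ≤ D' → N ≤ 2 * D → N' ≤ 2 * D' → K ≤ 2 * D →
    N' * D ≤ N * D' →
    LB D' N' K c ≤ LB D N K c + 2 * Real.pi * K ^ 2 * ‖c‖ / D

/-! ## P. Probability -/

/-- Many small windows inside a big one. -/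
def Pack : Prop :=
  ∀ (D N K r k : ℕ) (v : ℝ), 1 ≤ D → N ≤ 2 * D → K ≤ 2 * D → r * k ≤ K → 0 ≤ v →
    (k : ℝ) / 2 * pB D N r v - (k : ℝ) ^ 2 / 2 * (pB D N r v) ^ 2 ≤ pB D N K v

/-- Many single sites inside the full circle. -/
def PackOne : Prop :=
  ∀ (D N k : ℕ) (v : ℝ), 1 ≤ N → N ≤ 2 * D → k + 1 ≤ D → 0 ≤ v →
    (k : ℝ) / 2 * (gaussianReal 0 1).real {x | v * (2 * D / N) < x} -
        (k : ℝ) ^ 2 / 2 * ((gaussianReal 0 1).real {x | v * (2 * D / N) < x}) ^ 2 ≤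
      (gm (Fin (D + 1))).real {g | v < Mf D N (amp D g)}

def ProbU : Prop :=
  ∀ (m K R D N τ : ℕ) (A v : ℝ), 1 ≤ R → 4 * R + 2 ≤ K → 2 ≤ m → D = m * K + 1 →
    1 ≤ τ → N + τ ≤ 2 * D → 0 ≤ v → 0 ≤ A →
    (1 - pB D (N + τ) K v) ^ m - m * pB D (N + τ) (4 * R + 1) v -
        8 * (4 * R + 1) * Real.exp (-(v ^ 2) / 4) - 2 * (D + 1) * Real.exp (-(A ^ 2) / 4) ≤
      (gm (Fin (D + 1))).real {g | Mf D N (amp D g) ≤ v + 2 * A * D / (τ * R)}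

def ProbL : Prop :=
  ∀ (m K R D N τ : ℕ) (A v : ℝ), 1 ≤ R → 2 * R ≤ K → 1 ≤ m → D = m * K + 1 →
    1 ≤ τ → N + τ ≤ 2 * D → 0 ≤ v → 0 ≤ A →
    (gm (Fin (D + 1))).real {g | Mf D (N + τ) (amp D g) ≤ v} ≤
      (1 - pB D N K (v + 2 * A * D / (τ * R))) ^ m + 2 * m * pB D (N + τ) (2 * R) v +
        2 * (D + 1) * Real.exp (-(A ^ 2) / 4)

def ProbP : Prop :=
  ∀ (m K R D N τ : ℕ) (A v : ℝ), 1 ≤ R → 2 * R ≤ m * K → D = m * K + 1 →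
    1 ≤ τ → N + τ ≤ 2 * D → 0 ≤ v → 0 ≤ A →
    pB D N (m * K) (v + 2 * A * D / (τ * R)) ≤
      (gm (Fin (D + 1))).real {g | v < Mf D (N + τ) (amp D g)} +
        2 * pB D (N + τ) (2 * R) v + 2 * (D + 1) * Real.exp (-(A ^ 2) / 4)

/-! ## E. The Toeplitz matrix -/

/-- The full functional of a Gaussian vector is the top of a Toeplitz form whose coefficients are
an orthonormal image of it. -/
def RepDet : Prop :=
  ∀ D N : ℕ, 1 ≤ N → N ≤ D → ∃ L : Matrix (Fin N) (Fin (D + 1)) ℝ, L * L.transpose = 1 ∧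
    ∀ g : Fin (D + 1) → ℝ,
      Real.sqrt (2 * D) * Mf D N (amp D g) = topT N (ext2 (L.mulVec g))

def EigLink : Prop :=
  ∀ (N : ℕ) (y : ℕ → ℝ), 1 ≤ N →
    topT N y = max (lamMax (toep N y)) 0 ∧
    ∀ c : ℝ, lamMax (toep N fun k => if k = 0 then y 0 + c else y k) = lamMax (toep N y) + c

/-- The main theorem, for the law of the first `n` coefficients. -/
def GumbelLaw : Prop :=
  ∃ a b : ℕ → ℝ, (∀ n, 0 < b n) ∧ ∀ x : ℝ, Filter.Tendsto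
    (fun n : ℕ => (gm (Fin n)).real {y | (lamMax (toep n fun k =>
      if h : k < n then y ⟨k, h⟩ else 0) - a n) / b n ≤ x})
    Filter.atTop (nhds (Real.exp (-Real.exp (-x))))

end Pool.Agent.Work.MP_3574a2_pr
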