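import Mathlib

set_option autoImplicit false

/-!
# MP_3574a2_pr : Gumbel limit for the top eigenvalue of the Gaussian random Toeplitz matrix

Definitions shared by all files of the proof.
-/

namespace Pool.Agent.Work.MP_3574a2_pr

open MeasureTheory ProbabilityTheory

/-! ## Gaussian vectors, pairings -/

/-- The standard Gaussian measure on `ι → ℝ` (independent standard Gaussian coordinates). -/
noncomputable abbrev gm (ι : Type) [Fintype ι] : Measure (ι → ℝ) :=
  Measure.pi fun _ : ι => gaussianReal 0 1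

/-- The pairing of two real vectors. -/
def pair {ι : Type} [Fintype ι] (a q : ι → ℝ) : ℝ := ∑ j, a j * q j

/-- The sum of the squares of the entries. -/
def sq {ι : Type} [Fintype ι] (q : ι → ℝ) : ℝ := ∑ j, q j ^ 2

/-- The tail of the squared sup norm of a Gaussian vector. -/
noncomputable def eta (ι : Type) [Fintype ι] (T : ℝ) : ℝ :=
  ∫ a in {a : ι → ℝ | T < ‖a‖}, ‖a‖ ^ 2 ∂(gm ι)

/-- The second moment of the sup norm of a Gaussian vector. -/
noncomputable def mu2 (ι : Type) [Fintype ι] : ℝ := ∫ a, ‖a‖ ^ 2 ∂(gm ι)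

/-! ## Abstract functionals -/

/-- Tail function of a functional of a Gaussian vector. -/
noncomputable def tl {ι : Type} [Fintype ι] (Λ : (ι → ℝ) → ℝ) (t : ℝ) : ℝ :=
  (gm ι).real {a | t < Λ a}

/-- First excess moment. -/
noncomputable def h1 {ι : Type} [Fintype ι] (Λ : (ι → ℝ) → ℝ) (t : ℝ) : ℝ :=
  ∫ a, max (Λ a - t) 0 ∂(gm ι)

/-- Second excess moment. -/
noncomputable def h2 {ι : Type} [Fintype ι] (Λ : (ι → ℝ) → ℝ) (t : ℝ) : ℝ :=
  ∫ a, (max (Λ a - t) 0) ^ 2 ∂(gm ι)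

/-- Nonnegative, positively homogeneous, 1-Lipschitz for the sup norm, with a subgradient
everywhere. -/
structure IsGood {ι : Type} [Fintype ι] (Λ : (ι → ℝ) → ℝ) : Prop where
  nonneg : ∀ a, 0 ≤ Λ a
  homog : ∀ (c : ℝ) (a : ι → ℝ), 0 ≤ c → Λ (c • a) = c * Λ a
  lip : ∀ a b, |Λ (a + b) - Λ a| ≤ ‖b‖
  subgrad : ∀ a, ∃ q : ι → ℝ, ∀ b, Λ a + pair b q ≤ Λ (a + b)

/-- Off the set `Bad`, above the level `t0`, the functional has a subgradient `q` with
`(1 - ε) S ≤ |q|² ≤ S` and a quadratic upper bound near `a`. -/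
def LocQuad {ι : Type} [Fintype ι] (Λ : (ι → ℝ) → ℝ) (Bad : Set (ι → ℝ))
    (t0 S ε g C : ℝ) : Prop :=
  ∀ a, a ∉ Bad → t0 < Λ a → ∃ q : ι → ℝ, (1 - ε) * S ≤ sq q ∧ sq q ≤ S ∧
    (∀ b, Λ a + pair b q ≤ Λ (a + b)) ∧
    ∀ b, ‖b‖ ≤ g → Λ (a + b) ≤ Λ a + pair b q + C * ‖b‖ ^ 2

/-! ## Systems of vectors in a complex inner product space -/

section sys

variable {ι : Type} [Fintype ι] {E : Type} [NormedAddCommGroup E] [InnerProductSpace ℂ E]

/-- Squared moduli of the coefficients of `w` against the system `ξ`. -/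
noncomputable def qv (ξ : ι → E) (w : E) (j : ι) : ℝ := ‖(inner ℂ (ξ j) w : ℂ)‖ ^ 2

/-- Bessel inequality with constant one. -/
def Bessel (ξ : ι → E) : Prop := ∀ w : E, ∑ j, qv ξ w j ≤ ‖w‖ ^ 2

/-- The functional `a ↦ sup_{‖w‖ ≤ 1} ∑ a_j |⟨ξ_j, w⟩|²`. -/
noncomputable def Lam (ξ : ι → E) (a : ι → ℝ) : ℝ :=
  sSup ((fun w => pair a (qv ξ w)) '' Metric.closedBall (0 : E) 1)

/-- The largest value of `∑ |⟨ξ_j, w⟩|⁴` on the unit ball. -/
noncomputable def sig2 (ξ : ι → E) : ℝ :=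
  sSup ((fun w => sq (qv ξ w)) '' Metric.closedBall (0 : E) 1)

end sys

/-! ## The Fourier system -/

/-- The vector `t ↦ exp(i π j t / D) / √(2 D)` in `ℂ^N`. -/
noncomputable def xi (D N : ℕ) (j : ℤ) : EuclideanSpace ℂ (Fin N) :=
  WithLp.toLp 2 fun t : Fin N =>
    Complex.exp (((Real.pi * j * (t : ℕ) / D : ℝ) : ℂ) * Complex.I) / ((Real.sqrt (2 * D) : ℝ) : ℂ)

/-- The system of the frequencies `0, …, K - 1`. -/
noncomputable def xb (D N K : ℕ) : Fin K → EuclideanSpace ℂ (Fin N) :=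
  fun x => xi D N ((x : ℕ) : ℤ)

/-- The window of length `K` starting at `s` of a sequence on `ℤ`. -/
def wind (a : ℤ → ℝ) (s : ℤ) (K : ℕ) : Fin K → ℝ := fun x => a (s + ((x : ℕ) : ℤ))

/-- The block functional. -/
noncomputable def LB (D N K : ℕ) (c : Fin K → ℝ) : ℝ := Lam (xb D N K) c

/-- The full functional (`a` is meant to have period `2 D`). -/
noncomputable def Mf (D N : ℕ) (a : ℤ → ℝ) : ℝ := LB D N (2 * D) (wind a 0 (2 * D))

/-- The tail function of the block functional. -/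
noncomputable def pB (D N K : ℕ) (v : ℝ) : ℝ := tl (LB D N K) v

/-- The index in `{0, …, D}` of `± j` modulo `2 D`. -/
def idx (D : ℕ) (j : ℤ) : Fin (D + 1) :=
  ⟨(min (j % (2 * D)) (2 * D - j % (2 * D))).toNat, by omega⟩

/-- The amplitudes: even, of period `2 D`, equal to `g j` for `0 < j < D` and to `√2 g j` for
`j = 0, D`. -/
noncomputable def amp (D : ℕ) (g : Fin (D + 1) → ℝ) (j : ℤ) : ℝ :=
  (if (idx D j : ℕ) = 0 ∨ (idx D j : ℕ) = D then Real.sqrt 2 else 1) * g (idx D j)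

/-! ## Toeplitz matrices -/

/-- The symmetric Toeplitz matrix with entries `y |i - j|`. -/
def toep (N : ℕ) (y : ℕ → ℝ) : Matrix (Fin N) (Fin N) ℝ :=
  Matrix.of fun i j => y (Int.natAbs ((i : ℕ) - (j : ℕ) : ℤ))

/-- The Hermitian form of the Toeplitz matrix. -/
noncomputable def tform (N : ℕ) (y : ℕ → ℝ) (w : EuclideanSpace ℂ (Fin N)) : ℝ :=
  ∑ i, ∑ j, toep N y i j * (starRingEnd ℂ (w i) * w j).re

/-- The supremum of the form over the unit ball, that is the positive part of the largest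
eigenvalue. -/
noncomputable def topT (N : ℕ) (y : ℕ → ℝ) : ℝ :=
  sSup ((fun w => tform N y w) '' Metric.closedBall (0 : EuclideanSpace ℂ (Fin N)) 1)

/-- The extension by zero of a vector to a sequence, with the entry `0` multiplied by `√2`. -/
noncomputable def ext2 {N : ℕ} (x : Fin N → ℝ) (k : ℕ) : ℝ :=
  (if k = 0 then Real.sqrt 2 else 1) * (if h : k < N then x ⟨k, h⟩ else 0)

/-- The largest eigenvalue of a real square matrix. -/
noncomputable def lamMax {N : ℕ} (M : Matrix (Fin N) (Fin N) ℝ) : ℝ := sSup (spectrum ℝ M)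

end Pool.Agent.Work.MP_3574a2_pr
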