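import Pool.Agent.Work.MP_3574a2_pr.Claims

set_option autoImplicit false

/-!
# MP_3574a2_pr : moments and tails of the sup norm of a Gaussian vector
-/

namespace Pool.Agent.Work.MP_3574a2_pr

open MeasureTheory ProbabilityTheory

/-- The density of the standard Gaussian times `exp (x² / 4)`. -/
theorem gs_pdf (x : ℝ) : gaussianPDFReal 0 1 x * Real.exp (x ^ 2 / 4) =
    (Real.sqrt (2 * Real.pi))⁻¹ * Real.exp (-(1 / 4) * x ^ 2) := by
  simp only [gaussianPDFReal, NNReal.coe_one, mul_one, sub_zero]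
  rw [mul_assoc, ← Real.exp_add]
  congr 2
  ring

theorem gs_integral : ∫ x, Real.exp (x ^ 2 / 4) ∂(gaussianReal 0 1) = Real.sqrt 2 := by
  rw [integral_gaussianReal_eq_integral_smul (by norm_num)]
  simp only [smul_eq_mul, gs_pdf]
  rw [integral_const_mul, integral_gaussian]
  have hpi := Real.pi_pos
  rw [show Real.pi / (1 / 4) = 2 * (2 * Real.pi) by ring, Real.sqrt_mul (by norm_num) (2 * Real.pi)]
  have : Real.sqrt (2 * Real.pi) ≠ 0 := by positivity
  rw [mul_comm (Real.sqrt 2), inv_mul_cancel_left₀ this]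

theorem gs_integrable : Integrable (fun x : ℝ => Real.exp (x ^ 2 / 4)) (gaussianReal 0 1) := by
  by_contra h
  have h1 := integral_undef h
  rw [gs_integral] at h1
  exact absurd h1 (by positivity)

theorem gs_tail_pos (T : ℝ) (hT : 0 ≤ T) :
    (gaussianReal 0 1).real {x : ℝ | T ≤ x} ≤ Real.exp (-(T ^ 2) / 2) := by
  have h := measure_ge_le_exp_mul_mgf (μ := gaussianReal 0 1) (X := fun x : ℝ => x) T hT
    (by simpa using integrable_exp_mul_gaussianReal (μ := 0) (v := 1) T)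
  rw [show (fun x : ℝ => x) = id from rfl, mgf_id_gaussianReal] at h
  refine h.trans (le_of_eq ?_)
  simp only [NNReal.coe_one, zero_mul, one_mul, zero_add]
  rw [← Real.exp_add]
  congr 1
  ring

theorem gs_tail_neg (T : ℝ) (hT : 0 ≤ T) :
    (gaussianReal 0 1).real {x : ℝ | x ≤ -T} ≤ Real.exp (-(T ^ 2) / 2) := by
  have h := measure_le_le_exp_mul_mgf (μ := gaussianReal 0 1) (X := fun x : ℝ => x) (t := -T) (-T)
    (by linarith) (by simpa using integrable_exp_mul_gaussianReal (μ := 0) (v := 1) (-T))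
  rw [show (fun x : ℝ => x) = id from rfl, mgf_id_gaussianReal] at h
  refine h.trans (le_of_eq ?_)
  simp only [NNReal.coe_one, zero_mul, one_mul, zero_add]
  rw [← Real.exp_add]
  congr 1
  ring

theorem gs_tail (T : ℝ) (hT : 0 ≤ T) :
    (gaussianReal 0 1).real {x : ℝ | T < |x|} ≤ 2 * Real.exp (-(T ^ 2) / 2) := by
  have hsub : {x : ℝ | T < |x|} ⊆ {x : ℝ | T ≤ x} ∪ {x : ℝ | x ≤ -T} := by
    intro x hx
    rcases lt_abs.1 (show T < |x| from hx) with h | h
    · exact Or.inl h.le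
    · exact Or.inr (by simp only [Set.mem_ofPred_eq]; linarith)
  calc (gaussianReal 0 1).real {x : ℝ | T < |x|}
      ≤ (gaussianReal 0 1).real ({x : ℝ | T ≤ x} ∪ {x : ℝ | x ≤ -T}) := measureReal_mono hsub
    _ ≤ (gaussianReal 0 1).real {x : ℝ | T ≤ x} + (gaussianReal 0 1).real {x : ℝ | x ≤ -T} :=
        measureReal_union_le _ _
    _ ≤ 2 * Real.exp (-(T ^ 2) / 2) := by
        have := gs_tail_pos T hT
        have := gs_tail_neg T hT
        linarith

section

variable {ι : Type} [Fintype ι]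

theorem gs_eval (j : ι) : MeasurePreserving (fun a : ι → ℝ => a j) (gm ι) (gaussianReal 0 1) :=
  measurePreserving_eval (fun _ : ι => gaussianReal 0 1) j

/-- The dominating function. -/
noncomputable def gsF (a : ι → ℝ) : ℝ := ∑ j, Real.exp (a j ^ 2 / 4)

theorem gsF_integrable : Integrable (gsF : (ι → ℝ) → ℝ) (gm ι) := by
  unfold gsF
  refine integrable_finsetSum _ fun j _ => ?_
  exact (gs_eval j).integrable_comp_of_integrable gs_integrable

theorem gsF_integral : ∫ a, gsF a ∂(gm ι) = Real.sqrt 2 * Fintype.card ι := by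
  unfold gsF
  have hi : ∀ j ∈ (Finset.univ : Finset ι),
      Integrable (fun a : ι → ℝ => Real.exp (a j ^ 2 / 4)) (gm ι) :=
    fun j _ => (gs_eval j).integrable_comp_of_integrable gs_integrable
  rw [integral_finsetSum _ hi]
  have : ∀ j : ι, ∫ a : ι → ℝ, Real.exp (a j ^ 2 / 4) ∂(gm ι) = Real.sqrt 2 := by
    intro j
    rw [← gs_integral, ← (gs_eval j).map_eq,
      integral_map (gs_eval j).measurable.aemeasurable
        (by exact (by fun_prop : Measurable fun x : ℝ => Real.exp (x ^ 2 / 4)).aestronglyMeasurable)]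
  simp [this, mul_comm]

theorem gsF_nonneg (a : ι → ℝ) : 0 ≤ gsF a := Finset.sum_nonneg fun _ _ => (Real.exp_pos _).le

variable [Nonempty ι]

theorem gs_norm (a : ι → ℝ) : ∃ j, ‖a‖ = |a j| := by
  obtain ⟨j, hj⟩ := Finite.exists_max fun j => ‖a j‖
  refine ⟨j, le_antisymm ?_ (by simpa using norm_le_pi_norm a j)⟩
  rw [← Real.norm_eq_abs]
  exact (pi_norm_le_iff_of_nonneg (norm_nonneg _)).2 hj

theorem gs_exp_le (a : ι → ℝ) : Real.exp (‖a‖ ^ 2 / 4) ≤ gsF a := by
  obtain ⟨j, hj⟩ := gs_norm a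
  rw [hj, sq_abs]
  exact Finset.single_le_sum (f := fun j => Real.exp (a j ^ 2 / 4))
    (fun _ _ => (Real.exp_pos _).le) (Finset.mem_univ j)

theorem gs_sq_integrable : Integrable (fun a : ι → ℝ => ‖a‖ ^ 2) (gm ι) := by
  refine Integrable.mono' (gsF_integrable.const_mul 4)
    (by exact (by fun_prop : Continuous fun a : ι → ℝ => ‖a‖ ^ 2).aestronglyMeasurable) ?_
  refine Filter.Eventually.of_forall fun a => ?_
  have h1 := gs_exp_le a
  have h2 := Real.add_one_le_exp (‖a‖ ^ 2 / 4)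
  rw [Real.norm_of_nonneg (by positivity)]
  linarith

theorem gs_mu2 : mu2 ι ≤ 4 * Real.log (2 * Fintype.card ι) := by
  have hK : (0 : ℝ) < Fintype.card ι := by exact_mod_cast Fintype.card_pos
  have hK1 : (1 : ℝ) ≤ Fintype.card ι := by exact_mod_cast (Fintype.card_pos : 0 < Fintype.card ι)
  set c : ℝ := Real.sqrt 2 * Fintype.card ι with hc
  have hc0 : 0 < c := by positivity
  have key : ∀ a : ι → ℝ, ‖a‖ ^ 2 ≤ 4 * (gsF a / c - 1 + Real.log c) := by
    intro a
    have h1 : Real.log (Real.exp (‖a‖ ^ 2 / 4) / c) ≤ Real.exp (‖a‖ ^ 2 / 4) / c - 1 :=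
      Real.log_le_sub_one_of_pos (by positivity)
    rw [Real.log_div (Real.exp_pos _).ne' hc0.ne', Real.log_exp] at h1
    have h2 : Real.exp (‖a‖ ^ 2 / 4) / c ≤ gsF a / c := by
      gcongr
      exact gs_exp_le a
    linarith
  have hint : Integrable (fun a : ι → ℝ => 4 * (gsF a / c - 1 + Real.log c)) (gm ι) :=
    (((gsF_integrable.div_const c).sub (integrable_const 1)).add
      (integrable_const (Real.log c))).const_mul 4
  have h3 : mu2 ι ≤ ∫ a, 4 * (gsF a / c - 1 + Real.log c) ∂(gm ι) :=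
    integral_mono gs_sq_integrable hint key
  have hI : ∫ a : ι → ℝ, 4 * (gsF a / c - 1 + Real.log c) ∂(gm ι) = 4 * Real.log c := by
    have e1 : ∀ a : ι → ℝ, 4 * (gsF a / c - 1 + Real.log c) =
        4 * (gsF a / c) + 4 * (Real.log c - 1) := fun a => by ring
    simp only [e1]
    rw [integral_add ((gsF_integrable.div_const c).const_mul 4) (integrable_const _),
      integral_const_mul, integral_div, gsF_integral, ← hc, div_self hc0.ne', integral_const,
      probReal_univ, one_smul]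
    ring
  rw [hI] at h3
  refine h3.trans ?_
  have h4 : c ≤ 2 * Fintype.card ι := by
    rw [hc]
    have : Real.sqrt 2 ≤ 2 := by
      rw [Real.sqrt_le_left (by norm_num)]; norm_num
    gcongr
  have := Real.log_le_log hc0 h4
  linarith

theorem gs_prob (T : ℝ) (hT : 0 ≤ T) :
    (gm ι).real {a : ι → ℝ | T < ‖a‖} ≤ 2 * Fintype.card ι * Real.exp (-(T ^ 2) / 2) := by
  have hsub : {a : ι → ℝ | T < ‖a‖} ⊆ ⋃ j : ι, {a : ι → ℝ | T < |a j|} := by
    intro a ha
    obtain ⟨j, hj⟩ := gs_norm a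
    refine Set.mem_iUnion.2 ⟨j, ?_⟩
    simp only [Set.mem_ofPred_eq] at ha ⊢
    rwa [← hj]
  have h1 : ∀ j : ι, (gm ι).real {a : ι → ℝ | T < |a j|} ≤ 2 * Real.exp (-(T ^ 2) / 2) := by
    intro j
    have hm : MeasurableSet {x : ℝ | T < |x|} :=
      measurableSet_lt measurable_const (by fun_prop)
    have : (gm ι).real {a : ι → ℝ | T < |a j|} = (gaussianReal 0 1).real {x : ℝ | T < |x|} := by
      rw [← (gs_eval j).map_eq, map_measureReal_apply (gs_eval j).measurable hm]
      rfl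
    rw [this]
    exact gs_tail T hT
  calc (gm ι).real {a : ι → ℝ | T < ‖a‖} ≤ (gm ι).real (⋃ j : ι, {a : ι → ℝ | T < |a j|}) :=
        measureReal_mono hsub
    _ ≤ ∑ j : ι, (gm ι).real {a : ι → ℝ | T < |a j|} := measureReal_iUnion_fintype_le _
    _ ≤ ∑ _j : ι, 2 * Real.exp (-(T ^ 2) / 2) := Finset.sum_le_sum fun j _ => h1 j
    _ = 2 * Fintype.card ι * Real.exp (-(T ^ 2) / 2) := by
        rw [Finset.sum_const, Finset.card_univ, nsmul_eq_mul]
        ring

theorem gs_eta (T : ℝ) (_hT : 0 ≤ T) :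
    eta ι T ≤ 16 * Fintype.card ι * Real.exp (-(T ^ 2) / 8) := by
  unfold eta
  have hm : MeasurableSet {a : ι → ℝ | T < ‖a‖} :=
    measurableSet_lt measurable_const (by fun_prop)
  have h1 : ∫ a in {a : ι → ℝ | T < ‖a‖}, ‖a‖ ^ 2 ∂(gm ι) ≤
      ∫ a in {a : ι → ℝ | T < ‖a‖}, 8 * Real.exp (-(T ^ 2) / 8) * gsF a ∂(gm ι) := by
    refine setIntegral_mono_on gs_sq_integrable.integrableOn
      (gsF_integrable.const_mul _).integrableOn hm ?_
    intro a ha
    have ha' : T < ‖a‖ := ha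
    have h2 := Real.add_one_le_exp (‖a‖ ^ 2 / 8)
    have h3 : Real.exp (‖a‖ ^ 2 / 8) ≤ Real.exp (-(T ^ 2) / 8) * Real.exp (‖a‖ ^ 2 / 4) := by
      rw [← Real.exp_add]
      apply Real.exp_le_exp.2
      have : T ^ 2 ≤ ‖a‖ ^ 2 := by nlinarith
      linarith
    have h4 := mul_le_mul_of_nonneg_left (gs_exp_le a) (Real.exp_pos (-(T ^ 2) / 8)).le
    nlinarith
  have h5 : ∫ a in {a : ι → ℝ | T < ‖a‖}, 8 * Real.exp (-(T ^ 2) / 8) * gsF a ∂(gm ι) ≤
      ∫ a, 8 * Real.exp (-(T ^ 2) / 8) * gsF a ∂(gm ι) :=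
    setIntegral_le_integral (gsF_integrable.const_mul _)
      (Filter.Eventually.of_forall fun a => mul_nonneg (by positivity) (gsF_nonneg a))
  rw [integral_const_mul _ (gsF : (ι → ℝ) → ℝ), integral_const_mul _ (gsF : (ι → ℝ) → ℝ),
    gsF_integral] at h5
  rw [integral_const_mul _ (gsF : (ι → ℝ) → ℝ)] at h1
  refine (h1.trans h5).trans ?_
  have h6 : Real.sqrt 2 ≤ 2 := by
    rw [Real.sqrt_le_left (by norm_num)]; norm_num
  have h7 : (0 : ℝ) ≤ Fintype.card ι * Real.exp (-(T ^ 2) / 8) := by positivity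
  nlinarith

end

theorem gaussSup : GaussSup := fun _ _ _ =>
  ⟨gs_sq_integrable, gs_mu2, gs_prob, gs_eta⟩

end Pool.Agent.Work.MP_3574a2_pr
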