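import Pool.Agent.Work.MP_3574a2_pr.Claims

set_option autoImplicit false

/-!
# MP_3574a2_pr : LocB, localisation in frequency
-/

namespace Pool.Agent.Work.MP_3574a2_pr

open MeasureTheory ProbabilityTheory Finset

/-- The standard character of `ZMod (2 D)`. -/
noncomputable def locE (D : ℕ) [NeZero (2 * D)] : AddChar (ZMod (2 * D)) ℂ := ZMod.stdAddChar

lemma locE_norm (D : ℕ) [NeZero (2 * D)] (x : ZMod (2 * D)) : ‖locE D x‖ = 1 := by
  rw [locE, ZMod.stdAddChar_apply]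
  exact Circle.norm_coe _

lemma locE_conj (D : ℕ) [NeZero (2 * D)] (x : ZMod (2 * D)) :
    (starRingEnd ℂ) (locE D x) = locE D (-x) := by
  rw [AddChar.map_neg_eq_inv, ← Complex.inv_eq_conj (locE_norm D x)]

lemma locE_xi (D N : ℕ) [NeZero (2 * D)] (hD : 1 ≤ D) (r : ZMod (2 * D)) (t : Fin N) :
    xi D N (r.val : ℤ) t = locE D (r * ((t : ℕ) : ZMod (2 * D))) / ((Real.sqrt (2 * D) : ℝ) : ℂ) := by
  have h1 : r * ((t : ℕ) : ZMod (2 * D)) = (((r.val : ℤ) * ((t : ℕ) : ℤ) : ℤ) : ZMod (2 * D)) := by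
    push_cast
    rw [ZMod.natCast_zmod_val]
  have h2 : locE D (r * ((t : ℕ) : ZMod (2 * D))) =
      Complex.exp (((Real.pi * ((r.val : ℤ) : ℝ) * (t : ℕ) / D : ℝ) : ℂ) * Complex.I) := by
    rw [h1, locE, ZMod.stdAddChar_coe]
    congr 1
    have hD' : (D : ℂ) ≠ 0 := by
      have : (D : ℕ) ≠ 0 := by omega
      exact_mod_cast this
    push_cast
    field_simp
  rw [h2]
  rfl

/-- Parseval for finite sequences. -/
lemma loc_parseval (D n : ℕ) [NeZero (2 * D)] (hn : n ≤ 2 * D) (c : Fin n → ℂ) :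
    ∑ r : ZMod (2 * D), ‖∑ t : Fin n, locE D (-(r * ((t : ℕ) : ZMod (2 * D)))) * c t‖ ^ 2 =
      2 * D * ∑ t, ‖c t‖ ^ 2 := by
  have hkey : (∑ r : ZMod (2 * D),
      ((‖∑ t : Fin n, locE D (-(r * ((t : ℕ) : ZMod (2 * D)))) * c t‖ ^ 2 : ℝ) : ℂ)) =
      ((2 * D * ∑ t, ‖c t‖ ^ 2 : ℝ) : ℂ) := by
    have h1 : ∀ r : ZMod (2 * D),
        ((‖∑ t : Fin n, locE D (-(r * ((t : ℕ) : ZMod (2 * D)))) * c t‖ ^ 2 : ℝ) : ℂ) =
        ∑ t : Fin n, ∑ s : Fin n, locE D (r * (((s : ℕ) : ZMod (2 * D)) - ((t : ℕ) : ZMod (2 * D)))) *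
          (c t * (starRingEnd ℂ) (c s)) := by
      intro r
      rw [Complex.ofReal_pow, ← Complex.mul_conj']
      rw [map_sum, Finset.sum_mul_sum]
      refine Finset.sum_congr rfl fun t _ => Finset.sum_congr rfl fun s _ => ?_
      rw [map_mul, locE_conj, neg_neg, mul_sub, sub_eq_add_neg, AddChar.map_add_eq_mul]
      ring
    rw [Finset.sum_congr rfl fun r _ => h1 r, Finset.sum_comm]
    have h2 : ∀ t : Fin n, ∑ r : ZMod (2 * D), ∑ s : Fin n,
        locE D (r * (((s : ℕ) : ZMod (2 * D)) - ((t : ℕ) : ZMod (2 * D)))) *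
          (c t * (starRingEnd ℂ) (c s)) = (2 * D : ℂ) * ((‖c t‖ ^ 2 : ℝ) : ℂ) := by
      intro t
      rw [Finset.sum_comm]
      have h3 : ∀ s : Fin n, ∑ r : ZMod (2 * D),
          locE D (r * (((s : ℕ) : ZMod (2 * D)) - ((t : ℕ) : ZMod (2 * D)))) *
            (c t * (starRingEnd ℂ) (c s)) =
          if s = t then (2 * D : ℂ) * (c t * (starRingEnd ℂ) (c s)) else 0 := by
        intro s
        rw [← Finset.sum_mul, AddChar.sum_mulShift (ψ := locE D) _
          (ZMod.isPrimitive_stdAddChar (2 * D))]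
        have h4 : (((s : ℕ) : ZMod (2 * D)) - ((t : ℕ) : ZMod (2 * D)) = 0) ↔ s = t := by
          rw [sub_eq_zero, ZMod.natCast_eq_natCast_iff', Nat.mod_eq_of_lt (by omega),
            Nat.mod_eq_of_lt (by omega)]
          exact Fin.val_inj
        by_cases hst : s = t
        · rw [if_pos (h4.mpr hst), if_pos hst, ZMod.card]
          push_cast
          ring
        · rw [if_neg (fun h => hst (h4.mp h)), if_neg hst]
          simp
      rw [Finset.sum_congr rfl fun s _ => h3 s]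
      simp only [Finset.sum_ite_eq', Finset.mem_univ, if_true]
      rw [Complex.mul_conj']
      push_cast
      ring
    rw [Finset.sum_congr rfl fun t _ => h2 t, ← Finset.mul_sum]
    push_cast
    ring
  have h5 := hkey
  rw [← Complex.ofReal_sum] at h5
  exact_mod_cast h5

lemma loc_inner (D N : ℕ) [NeZero (2 * D)] (hD : 1 ≤ D) (r : ZMod (2 * D))
    (w : EuclideanSpace ℂ (Fin N)) :
    (inner ℂ (xi D N (r.val : ℤ)) w : ℂ) =
      (∑ t : Fin N, locE D (-(r * ((t : ℕ) : ZMod (2 * D)))) * w t) /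
        ((Real.sqrt (2 * D) : ℝ) : ℂ) := by
  rw [PiLp.inner_apply, Finset.sum_div]
  refine Finset.sum_congr rfl fun t _ => ?_
  rw [locE_xi D N hD]
  simp only [RCLike.inner_apply, map_div₀, Complex.conj_ofReal, locE_conj]
  ring

lemma loc_inner_sq (D N : ℕ) [NeZero (2 * D)] (hD : 1 ≤ D) (hN : N ≤ 2 * D)
    (w : EuclideanSpace ℂ (Fin N)) :
    ∑ r : ZMod (2 * D), ‖(inner ℂ (xi D N (r.val : ℤ)) w : ℂ)‖ ^ 2 = ‖w‖ ^ 2 := by
  have hD' : (0 : ℝ) < 2 * D := by
    have : (1 : ℝ) ≤ D := by exact_mod_cast hD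
    linarith
  have h1 : ∀ r : ZMod (2 * D), ‖(inner ℂ (xi D N (r.val : ℤ)) w : ℂ)‖ ^ 2 =
      (2 * D : ℝ)⁻¹ * ‖∑ t : Fin N, locE D (-(r * ((t : ℕ) : ZMod (2 * D)))) * w t‖ ^ 2 := by
    intro r
    rw [loc_inner D N hD, norm_div, div_pow, Complex.norm_real,
      Real.norm_of_nonneg (Real.sqrt_nonneg _), Real.sq_sqrt hD'.le]
    field_simp
  rw [Finset.sum_congr rfl fun r _ => h1 r, ← Finset.mul_sum, loc_parseval D N hN,
    EuclideanSpace.norm_sq_eq]
  field_simp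

/-- The multiplier. -/
noncomputable def locPhi (D τ : ℕ) [NeZero (2 * D)] (y : ZMod (2 * D)) : ℂ :=
  (∑ s : Fin τ, locE D (-(y * ((s : ℕ) : ZMod (2 * D)))) * 1) /
    ((Real.sqrt (2 * D * τ) : ℝ) : ℂ)

lemma loc_phi_sum (D τ : ℕ) [NeZero (2 * D)] (hD : 1 ≤ D) (hτ : 1 ≤ τ) (hτD : τ ≤ 2 * D) :
    ∑ y : ZMod (2 * D), ‖locPhi D τ y‖ ^ 2 = 1 := by
  have hD' : (0 : ℝ) < 2 * D := by
    have : (1 : ℝ) ≤ D := by exact_mod_cast hD
    linarith
  have hτ' : (0 : ℝ) < τ := by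
    have : (1 : ℝ) ≤ τ := by exact_mod_cast hτ
    linarith
  have h1 : ∀ y : ZMod (2 * D), ‖locPhi D τ y‖ ^ 2 = (2 * D * τ : ℝ)⁻¹ *
      ‖∑ s : Fin τ, locE D (-(y * ((s : ℕ) : ZMod (2 * D)))) * 1‖ ^ 2 := by
    intro y
    rw [locPhi, norm_div, div_pow, Complex.norm_real,
      Real.norm_of_nonneg (Real.sqrt_nonneg _), Real.sq_sqrt (by positivity)]
    field_simp
  rw [Finset.sum_congr rfl fun y _ => h1 y, ← Finset.mul_sum, loc_parseval D τ hτD]
  simp
  field_simp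

/-- Decay of the multiplier. -/
lemma loc_phi_decay (D τ : ℕ) [NeZero (2 * D)] (hD : 1 ≤ D) (hτ : 1 ≤ τ) (y : ZMod (2 * D))
    (hy : y ≠ 0) :
    ‖locPhi D τ y‖ ^ 2 ≤ D / (2 * τ) * (((y.valMinAbs.natAbs : ℕ) : ℝ) ^ 2)⁻¹ := by
  have hD1 : (1 : ℝ) ≤ D := by exact_mod_cast hD
  have hD' : (0 : ℝ) < 2 * D := by linarith
  have hτ' : (0 : ℝ) < τ := by
    have : (1 : ℝ) ≤ τ := by exact_mod_cast hτ
    linarith
  set x : ℤ := y.valMinAbs with hx
  have hyx : ((x : ℤ) : ZMod (2 * D)) = y := ZMod.coe_valMinAbs y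
  have hx0 : x ≠ 0 := by
    intro h
    rw [h] at hyx
    apply hy
    rw [← hyx]
    simp
  set k : ℕ := x.natAbs with hk
  have hk0 : (0 : ℝ) < k := by
    have : k ≠ 0 := Int.natAbs_ne_zero.mpr hx0
    exact_mod_cast Nat.pos_of_ne_zero this
  have hkD : k ≤ D := by
    have := ZMod.natAbs_valMinAbs_le y
    have h2 : 2 * D / 2 = D := by omega
    rw [h2] at this
    exact this
  have hkD' : (k : ℝ) ≤ D := by exact_mod_cast hkD
  -- geometric sum
  set z : ℂ := locE D (-y) with hz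
  have hzs : ∀ s : ℕ, locE D (-(y * (s : ZMod (2 * D)))) = z ^ s := by
    intro s
    rw [hz, ← AddChar.map_nsmul_eq_pow]
    congr 1
    rw [nsmul_eq_mul]
    ring
  have hsum : (∑ s : Fin τ, locE D (-(y * ((s : ℕ) : ZMod (2 * D)))) * 1) =
      ∑ s ∈ Finset.range τ, z ^ s := by
    rw [← Fin.sum_univ_eq_sum_range]
    refine Finset.sum_congr rfl fun s _ => ?_
    rw [hzs, mul_one]
  have hzn : ‖z‖ = 1 := locE_norm D _
  have hz1 : ‖z - 1‖ = 2 * Real.sin (Real.pi * k / (2 * D)) := by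
    have h1 : z = Complex.exp (Complex.I * ((-(Real.pi * x / D) : ℝ) : ℂ)) := by
      rw [hz, ← hyx, locE]
      have : (-((x : ℤ) : ZMod (2 * D))) = (((-x : ℤ)) : ZMod (2 * D)) := by push_cast; rfl
      rw [this, ZMod.stdAddChar_coe]
      congr 1
      have hD'' : (D : ℂ) ≠ 0 := by
        have : (D : ℕ) ≠ 0 := by omega
        exact_mod_cast this
      push_cast
      field_simp
    rw [h1, Complex.norm_exp_I_mul_ofReal_sub_one, Real.norm_eq_abs, abs_mul, abs_two]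
    congr 1
    have h2 : |Real.sin (-(Real.pi * x / D) / 2)| = |Real.sin (Real.pi * k / (2 * D))| := by
      have hxk : (x : ℝ) = k ∨ (x : ℝ) = -k := by
        rcases Int.natAbs_eq x with h | h
        · left; rw [h]; simp [hk]
        · right; rw [h]; simp [hk]
      rcases hxk with h | h
      · rw [h]
        have : -(Real.pi * (k : ℝ) / D) / 2 = -(Real.pi * k / (2 * D)) := by field_simp
        rw [this, Real.sin_neg, abs_neg]
      · rw [h]
        have : -(Real.pi * (-(k : ℝ)) / D) / 2 = (Real.pi * k / (2 * D)) := by field_simp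
        rw [this]
    rw [h2, abs_of_nonneg]
    apply Real.sin_nonneg_of_nonneg_of_le_pi
    · positivity
    · rw [div_le_iff₀ hD']
      nlinarith [Real.pi_pos]
  have hz2 : 2 * ((k : ℝ) / D) ≤ ‖z - 1‖ := by
    rw [hz1]
    have h1 := Real.mul_le_sin (x := Real.pi * k / (2 * D)) (by positivity) (by
      rw [div_le_div_iff₀ hD' (by norm_num)]
      nlinarith [Real.pi_pos])
    have h2 : 2 / Real.pi * (Real.pi * k / (2 * D)) = (k : ℝ) / D := by
      field_simp
    rw [h2] at h1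
    linarith
  have hz0 : 0 < ‖z - 1‖ := lt_of_lt_of_le (by positivity) hz2
  have hzne : z ≠ 1 := by
    intro h
    rw [h, sub_self, norm_zero] at hz0
    exact lt_irrefl _ hz0
  have hgeo : ‖∑ s ∈ Finset.range τ, z ^ s‖ ≤ D / k := by
    rw [geom_sum_eq hzne, norm_div]
    have h1 : ‖z ^ τ - 1‖ ≤ 2 := by
      calc ‖z ^ τ - 1‖ ≤ ‖z ^ τ‖ + ‖(1 : ℂ)‖ := norm_sub_le _ _
        _ = 2 := by rw [norm_pow, hzn]; norm_num
    calc ‖z ^ τ - 1‖ / ‖z - 1‖ ≤ 2 / (2 * ((k : ℝ) / D)) := by gcongr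
      _ = D / k := by field_simp
  have hphi : ‖locPhi D τ y‖ ^ 2 = (2 * D * τ : ℝ)⁻¹ * ‖∑ s ∈ Finset.range τ, z ^ s‖ ^ 2 := by
    rw [locPhi, hsum, norm_div, div_pow, Complex.norm_real,
      Real.norm_of_nonneg (Real.sqrt_nonneg _), Real.sq_sqrt (by positivity)]
    field_simp
  rw [hphi]
  calc (2 * D * τ : ℝ)⁻¹ * ‖∑ s ∈ Finset.range τ, z ^ s‖ ^ 2
      ≤ (2 * D * τ : ℝ)⁻¹ * ((D : ℝ) / k) ^ 2 := by gcongr
    _ = D / (2 * τ) * ((k : ℝ) ^ 2)⁻¹ := by field_simp

/-- The tail of the multiplier. -/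
lemma loc_phi_tail (D τ R : ℕ) [NeZero (2 * D)] (hD : 1 ≤ D) (hτ : 1 ≤ τ) (hR : 1 ≤ R) :
    ∑ y ∈ (univ : Finset (ZMod (2 * D))).filter (fun y => R < y.valMinAbs.natAbs),
      ‖locPhi D τ y‖ ^ 2 ≤ D / (τ * R) := by
  have hD1 : (1 : ℝ) ≤ D := by exact_mod_cast hD
  have hτ' : (0 : ℝ) < τ := by
    have : (1 : ℝ) ≤ τ := by exact_mod_cast hτ
    linarith
  have hR' : (0 : ℝ) < R := by
    have : (1 : ℝ) ≤ R := by exact_mod_cast hR
    linarith
  have h1 : ∑ y ∈ (univ : Finset (ZMod (2 * D))).filter (fun y => R < y.valMinAbs.natAbs),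
      ‖locPhi D τ y‖ ^ 2 ≤
      ∑ y ∈ (univ : Finset (ZMod (2 * D))).filter (fun y => R < y.valMinAbs.natAbs),
        D / (2 * τ) * (((y.valMinAbs.natAbs : ℕ) : ℝ) ^ 2)⁻¹ := by
    refine Finset.sum_le_sum fun y hy => ?_
    rw [Finset.mem_filter] at hy
    refine loc_phi_decay D τ hD hτ y ?_
    intro h0
    rw [h0] at hy
    simp at hy
  refine h1.trans ?_
  have hmaps : ∀ y ∈ (univ : Finset (ZMod (2 * D))).filter (fun y => R < y.valMinAbs.natAbs),
      y.valMinAbs.natAbs ∈ Finset.Ioc R (max R D) := by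
    intro y hy
    rw [Finset.mem_filter] at hy
    rw [Finset.mem_Ioc]
    refine ⟨hy.2, le_max_of_le_right ?_⟩
    have := ZMod.natAbs_valMinAbs_le y
    have h2 : 2 * D / 2 = D := by omega
    rw [h2] at this
    exact this
  rw [← Finset.sum_fiberwise_of_maps_to hmaps]
  have h2 : ∀ k ∈ Finset.Ioc R (max R D),
      ∑ y ∈ ((univ : Finset (ZMod (2 * D))).filter (fun y => R < y.valMinAbs.natAbs)).filter
        (fun y => y.valMinAbs.natAbs = k), (D : ℝ) / (2 * τ) * (((y.valMinAbs.natAbs : ℕ) : ℝ) ^ 2)⁻¹ ≤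
      (D / τ) * ((k : ℝ) ^ 2)⁻¹ := by
    intro k _
    have h3 : ∑ y ∈ ((univ : Finset (ZMod (2 * D))).filter (fun y => R < y.valMinAbs.natAbs)).filter
        (fun y => y.valMinAbs.natAbs = k), (D : ℝ) / (2 * τ) * (((y.valMinAbs.natAbs : ℕ) : ℝ) ^ 2)⁻¹ =
        ∑ y ∈ ((univ : Finset (ZMod (2 * D))).filter (fun y => R < y.valMinAbs.natAbs)).filter
        (fun y => y.valMinAbs.natAbs = k), (D : ℝ) / (2 * τ) * ((k : ℝ) ^ 2)⁻¹ := by
      refine Finset.sum_congr rfl fun y hy => ?_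
      rw [Finset.mem_filter] at hy
      rw [hy.2]
    rw [h3, Finset.sum_const, nsmul_eq_mul]
    have h4 : (((univ : Finset (ZMod (2 * D))).filter (fun y => R < y.valMinAbs.natAbs)).filter
        (fun y => y.valMinAbs.natAbs = k)).card ≤ 2 := by
      refine (Finset.card_le_card (t := {((k : ℕ) : ZMod (2 * D)), -((k : ℕ) : ZMod (2 * D))})
        fun y hy => ?_).trans Finset.card_le_two
      rw [Finset.mem_filter] at hy
      rw [Finset.mem_insert, Finset.mem_singleton]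
      have h5 : ((y.valMinAbs : ℤ) : ZMod (2 * D)) = y := ZMod.coe_valMinAbs y
      rcases Int.natAbs_eq y.valMinAbs with h | h
      · left
        rw [← h5, h, hy.2]
        simp
      · right
        rw [← h5, h, hy.2]
        simp
    have h4' : ((((univ : Finset (ZMod (2 * D))).filter (fun y => R < y.valMinAbs.natAbs)).filter
        (fun y => y.valMinAbs.natAbs = k)).card : ℝ) ≤ 2 := by exact_mod_cast h4
    calc _ ≤ 2 * ((D : ℝ) / (2 * τ) * ((k : ℝ) ^ 2)⁻¹) := by gcongr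
      _ = (D / τ) * ((k : ℝ) ^ 2)⁻¹ := by field_simp
  refine (Finset.sum_le_sum h2).trans ?_
  rw [← Finset.mul_sum]
  have h6 : ∑ k ∈ Finset.Ioc R (max R D), ((k : ℝ) ^ 2)⁻¹ ≤ (R : ℝ)⁻¹ := by
    have := sum_Ioc_inv_sq_le_sub (α := ℝ) (k := R) (n := max R D) (by omega) (le_max_left _ _)
    have h7 : (0 : ℝ) ≤ ((max R D : ℕ) : ℝ)⁻¹ := by positivity
    linarith
  calc (D / τ : ℝ) * ∑ k ∈ Finset.Ioc R (max R D), ((k : ℝ) ^ 2)⁻¹
      ≤ (D / τ : ℝ) * (R : ℝ)⁻¹ := by gcongr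
    _ = D / (τ * R) := by field_simp

/-- The localised vectors. -/
noncomputable def locV (D N τ : ℕ) [NeZero (2 * D)] (w : EuclideanSpace ℂ (Fin N))
    (b : ZMod (2 * D)) : EuclideanSpace ℂ (Fin (N + τ)) :=
  ∑ s : Fin τ, ∑ t : Fin N, EuclideanSpace.single (⟨t + s, by omega⟩ : Fin (N + τ))
    (locE D (b * ((s : ℕ) : ZMod (2 * D))) * w t / ((Real.sqrt (2 * D * τ) : ℝ) : ℂ))

lemma locV_inner (D N τ : ℕ) [NeZero (2 * D)] (hD : 1 ≤ D) (w : EuclideanSpace ℂ (Fin N))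
    (b j : ZMod (2 * D)) :
    (inner ℂ (xi D (N + τ) (j.val : ℤ)) (locV D N τ w b) : ℂ) =
      locPhi D τ (j - b) * (inner ℂ (xi D N (j.val : ℤ)) w : ℂ) := by
  rw [locV, inner_sum, loc_inner D N hD, locPhi, Finset.sum_div, Finset.sum_div,
    Finset.sum_mul_sum]
  refine Finset.sum_congr rfl fun s _ => ?_
  rw [inner_sum]
  refine Finset.sum_congr rfl fun t _ => ?_
  rw [EuclideanSpace.inner_single_right, locE_xi D (N + τ) hD, map_div₀, Complex.conj_ofReal,
    locE_conj]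
  have h1 : locE D (-(j * (((t : ℕ) + (s : ℕ) : ℕ) : ZMod (2 * D)))) =
      locE D (-(j * ((t : ℕ) : ZMod (2 * D)))) * locE D (-(j * ((s : ℕ) : ZMod (2 * D)))) := by
    rw [← AddChar.map_add_eq_mul]
    congr 1
    push_cast
    ring
  have h2 : locE D (-((j - b) * ((s : ℕ) : ZMod (2 * D)))) =
      locE D (-(j * ((s : ℕ) : ZMod (2 * D)))) * locE D (b * ((s : ℕ) : ZMod (2 * D))) := by
    rw [← AddChar.map_add_eq_mul]
    congr 1
    ring
  simp only [h1, h2]
  ring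

theorem locB : LocB := by
  intro D N τ R a A v w J hD hτ hR hNτ hA hv ha hw hJ
  have : NeZero (2 * D) := ⟨by omega⟩
  have hD1 : (1 : ℝ) ≤ D := by exact_mod_cast hD
  have hτ' : (0 : ℝ) < τ := by
    have : (1 : ℝ) ≤ τ := by exact_mod_cast hτ
    linarith
  have hR' : (0 : ℝ) < R := by
    have : (1 : ℝ) ≤ R := by exact_mod_cast hR
    linarith
  set W : ZMod (2 * D) → ℝ := fun j => ‖(inner ℂ (xi D N (j.val : ℤ)) w : ℂ)‖ ^ 2 with hW
  have hW0 : ∀ j, 0 ≤ W j := fun j => by positivity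
  have hWs : ∑ j, W j = ‖w‖ ^ 2 := loc_inner_sq D N hD (by omega) w
  set p : ZMod (2 * D) → ℝ := fun y => ‖locPhi D τ y‖ ^ 2 with hp
  have hp0 : ∀ y, 0 ≤ p y := fun y => by positivity
  have hps : ∑ y, p y = 1 := loc_phi_sum D τ hD hτ (by omega)
  have hpt := loc_phi_tail D τ R hD hτ hR
  set q : ZMod (2 * D) → ZMod (2 * D) → ℝ := fun b j =>
    ‖(inner ℂ (xi D (N + τ) (j.val : ℤ)) (locV D N τ w b) : ℂ)‖ ^ 2 with hq
  have hq1 : ∀ b j, q b j = p (j - b) * W j := fun b j => by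
    simp only [hq, hp, hW]
    rw [locV_inner D N τ hD, norm_mul, mul_pow]
  have hq0 : ∀ b j, 0 ≤ q b j := fun b j => by positivity
  have hqs : ∀ b, ∑ j, q b j = ‖locV D N τ w b‖ ^ 2 := fun b =>
    loc_inner_sq D (N + τ) hD hNτ _
  classical
  set far : ZMod (2 * D) → Prop := fun y => R < y.valMinAbs.natAbs with hfar
  set f : ZMod (2 * D) → ℝ := fun b => ∑ j ∈ J, a (j.val : ℤ) * q b j -
    2 * A * (∑ j ∈ univ.filter (fun j => far (j - b)), q b j) - v * ‖locV D N τ w b‖ ^ 2 with hf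
  -- the sum over `b`
  have hS1 : ∑ b, ∑ j ∈ J, a (j.val : ℤ) * q b j = ∑ j ∈ J, a (j.val : ℤ) * W j := by
    rw [Finset.sum_comm]
    refine Finset.sum_congr rfl fun j _ => ?_
    rw [← Finset.mul_sum]
    congr 1
    have : ∀ b, q b j = p (j - b) * W j := fun b => hq1 b j
    rw [Finset.sum_congr rfl fun b _ => this b, ← Finset.sum_mul]
    have h8 : ∑ b, p (j - b) = ∑ y, p y :=
      Fintype.sum_equiv (Equiv.subLeft j) _ _ fun b => rfl
    rw [h8, hps, one_mul]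
  have hS2 : ∑ b, ∑ j ∈ univ.filter (fun j => far (j - b)), q b j ≤
      (D / (τ * R)) * ‖w‖ ^ 2 := by
    have h1 : ∑ b, ∑ j ∈ univ.filter (fun j => far (j - b)), q b j =
        ∑ j, ∑ b, if far (j - b) then p (j - b) * W j else 0 := by
      rw [Finset.sum_comm]
      refine Finset.sum_congr rfl fun b _ => ?_
      rw [Finset.sum_filter]
      refine Finset.sum_congr rfl fun j _ => ?_
      rw [hq1]
    rw [h1]
    have h2 : ∀ j, (∑ b, if far (j - b) then p (j - b) * W j else 0) =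
        (∑ y ∈ univ.filter far, p y) * W j := by
      intro j
      rw [Finset.sum_filter, Finset.sum_mul]
      refine Fintype.sum_equiv (Equiv.subLeft j) _ _ fun b => ?_
      simp only [Equiv.subLeft_apply]
      split_ifs <;> simp
    rw [Finset.sum_congr rfl fun j _ => h2 j, ← Finset.mul_sum, hWs]
    gcongr
  have hS3 : ∑ b, ‖locV D N τ w b‖ ^ 2 = ‖w‖ ^ 2 := by
    rw [← Finset.sum_congr rfl fun b _ => hqs b, Finset.sum_comm, ← hWs]
    refine Finset.sum_congr rfl fun j _ => ?_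
    rw [Finset.sum_congr rfl fun b _ => hq1 b j, ← Finset.sum_mul]
    have h8 : ∑ b, p (j - b) = ∑ y, p y :=
      Fintype.sum_equiv (Equiv.subLeft j) _ _ fun b => rfl
    rw [h8, hps, one_mul]
  have hsumf : 0 < ∑ b, f b := by
    simp only [hf, Finset.sum_sub_distrib, ← Finset.mul_sum]
    rw [hS1, hS3]
    have hw2 : ‖w‖ ^ 2 ≤ 1 := by
      have := norm_nonneg w
      nlinarith
    have hδ : 0 ≤ D / (τ * R : ℝ) := by positivity
    have e1 : 2 * A * (∑ b, ∑ j ∈ univ.filter (fun j => far (j - b)), q b j) ≤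
        2 * A * ((D / (τ * R)) * ‖w‖ ^ 2) := by gcongr
    have e2 : 2 * A * ((D / (τ * R)) * ‖w‖ ^ 2) + v * ‖w‖ ^ 2 ≤ v + 2 * A * D / (τ * R) := by
      have : 2 * A * D / (τ * R) = 2 * A * (D / (τ * R)) := by ring
      rw [this]
      have h9 : 0 ≤ 2 * A * (D / (τ * R : ℝ)) := by positivity
      nlinarith
    have e3 : v + 2 * A * D / (τ * R) < ∑ j ∈ J, a (j.val : ℤ) * W j := hJ
    linarith
  obtain ⟨b, -, hb⟩ := Finset.exists_lt_of_sum_lt (s := univ) (f := fun _ => (0 : ℝ)) (g := f)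
    (by simpa using hsumf)
  set V := locV D N τ w b with hV
  have hVne : V ≠ 0 := by
    intro h0
    have hq00 : ∀ j, q b j = 0 := fun j => by
      simp only [hq, ← hV, h0, inner_zero_right, norm_zero]
      ring
    have : f b = 0 := by
      simp only [hf, ← hV, hq00, h0, norm_zero]
      simp
    linarith
  have hVn : 0 < ‖V‖ := norm_pos_iff.mpr hVne
  refine ⟨b, ((‖V‖⁻¹ : ℝ) : ℂ) • V, ?_, ?_⟩
  · rw [norm_smul, Complex.norm_real, Real.norm_of_nonneg (by positivity)]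
    rw [inv_mul_cancel₀ hVn.ne']
  · intro I hI
    have hIJ : ∀ j, ¬ far (j - b) → (j ∈ I ↔ j ∈ J) := by
      intro j hj
      simp only [hfar, not_lt] at hj
      have h1 : b + (((j - b).valMinAbs : ℤ) : ZMod (2 * D)) = j := by
        rw [ZMod.coe_valMinAbs]; ring
      have h2 := hI (j - b).valMinAbs (by
        rw [← Int.natCast_natAbs]
        exact_mod_cast hj)
      rwa [h1] at h2
    have hterm : ∀ j : ZMod (2 * D), ‖(inner ℂ (xi D (N + τ) (j.val : ℤ))
        (((‖V‖⁻¹ : ℝ) : ℂ) • V) : ℂ)‖ ^ 2 = (‖V‖ ^ 2)⁻¹ * q b j := by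
      intro j
      rw [inner_smul_right, norm_mul, mul_pow, Complex.norm_real,
        Real.norm_of_nonneg (by positivity), inv_pow]
    have hsumI : ∑ r ∈ I, a (r.val : ℤ) * ‖(inner ℂ (xi D (N + τ) (r.val : ℤ))
        (((‖V‖⁻¹ : ℝ) : ℂ) • V) : ℂ)‖ ^ 2 = (‖V‖ ^ 2)⁻¹ * ∑ r ∈ I, a (r.val : ℤ) * q b r := by
      rw [Finset.mul_sum]
      refine Finset.sum_congr rfl fun r _ => ?_
      rw [hterm]
      ring
    rw [hsumI]
    have hmain : v * ‖V‖ ^ 2 < ∑ r ∈ I, a (r.val : ℤ) * q b r := by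
      have hc1 : ∀ (S : Finset (ZMod (2 * D))), |∑ r ∈ S.filter (fun j => far (j - b)),
          a (r.val : ℤ) * q b r| ≤ A * ∑ j ∈ univ.filter (fun j => far (j - b)), q b j := by
        intro S
        calc |∑ r ∈ S.filter (fun j => far (j - b)), a (r.val : ℤ) * q b r|
            ≤ ∑ r ∈ S.filter (fun j => far (j - b)), |a (r.val : ℤ) * q b r| :=
              Finset.abs_sum_le_sum_abs _ _
          _ ≤ ∑ r ∈ S.filter (fun j => far (j - b)), A * q b r := by
              refine Finset.sum_le_sum fun r _ => ?_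
              rw [abs_mul, abs_of_nonneg (hq0 b r)]
              have := ha (r.val : ℤ)
              have := hq0 b r
              gcongr
          _ = A * ∑ r ∈ S.filter (fun j => far (j - b)), q b r := by rw [Finset.mul_sum]
          _ ≤ A * ∑ j ∈ univ.filter (fun j => far (j - b)), q b j := by
              have : S.filter (fun j => far (j - b)) ⊆ univ.filter (fun j => far (j - b)) :=
                Finset.filter_subset_filter _ (Finset.subset_univ S)
              have := Finset.sum_le_sum_of_subset_of_nonneg this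
                (f := fun j => q b j) (fun j _ _ => hq0 b j)
              gcongr
      have hsplit : ∀ (S : Finset (ZMod (2 * D))), ∑ r ∈ S, a (r.val : ℤ) * q b r =
          ∑ r ∈ S.filter (fun j => far (j - b)), a (r.val : ℤ) * q b r +
          ∑ r ∈ S.filter (fun j => ¬ far (j - b)), a (r.val : ℤ) * q b r := fun S =>
        (Finset.sum_filter_add_sum_filter_not S _ _).symm
      have heq : I.filter (fun j => ¬ far (j - b)) = J.filter (fun j => ¬ far (j - b)) := by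
        ext j
        simp only [Finset.mem_filter]
        constructor
        · rintro ⟨h1, h2⟩
          exact ⟨(hIJ j h2).mp h1, h2⟩
        · rintro ⟨h1, h2⟩
          exact ⟨(hIJ j h2).mpr h1, h2⟩
      have g1 := hsplit I
      have g2 := hsplit J
      rw [heq] at g1
      have g3 := abs_le.mp (hc1 I)
      have g4 := abs_le.mp (hc1 J)
      have g5 : 0 < f b := hb
      simp only [hf] at g5
      linarith [g3.1, g4.2]
    rw [inv_mul_eq_div, lt_div_iff₀ (by positivity)]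
    exact hmain

end Pool.Agent.Work.MP_3574a2_pr
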