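import Pool.Agent.Work.MP_3574a2_pr.Claims

set_option autoImplicit false

/-!
# MP_3574a2_pr : windows and blocks
-/

namespace Pool.Agent.Work.MP_3574a2_pr

open MeasureTheory ProbabilityTheory

section general

variable {ι : Type} [Fintype ι] {E : Type} [NormedAddCommGroup E] [InnerProductSpace ℂ E]

lemma locUL_bdd (ξ : ι → E) (a : ι → ℝ) :
    BddAbove ((fun w => pair a (qv ξ w)) '' Metric.closedBall (0 : E) 1) := by
  refine ⟨∑ j, |a j| * ‖ξ j‖ ^ 2, ?_⟩
  rintro _ ⟨w, hw, rfl⟩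
  have hw' : ‖w‖ ≤ 1 := by simpa using hw
  simp only [pair, qv]
  refine Finset.sum_le_sum fun j _ => ?_
  have h1 : ‖(inner ℂ (ξ j) w : ℂ)‖ ≤ ‖ξ j‖ * ‖w‖ := norm_inner_le_norm _ _
  have h2 : ‖(inner ℂ (ξ j) w : ℂ)‖ ≤ ‖ξ j‖ :=
    h1.trans (by nlinarith [norm_nonneg (ξ j)])
  have h3 : ‖(inner ℂ (ξ j) w : ℂ)‖ ^ 2 ≤ ‖ξ j‖ ^ 2 :=
    pow_le_pow_left₀ (norm_nonneg _) h2 2
  calc a j * ‖(inner ℂ (ξ j) w : ℂ)‖ ^ 2 ≤ |a j| * ‖(inner ℂ (ξ j) w : ℂ)‖ ^ 2 :=
        mul_le_mul_of_nonneg_right (le_abs_self _) (by positivity)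
    _ ≤ |a j| * ‖ξ j‖ ^ 2 := mul_le_mul_of_nonneg_left h3 (abs_nonneg _)

lemma locUL_le (ξ : ι → E) (a : ι → ℝ) (w : E) (hw : ‖w‖ ≤ 1) :
    pair a (qv ξ w) ≤ Lam ξ a :=
  le_csSup (locUL_bdd ξ a) ⟨w, by simpa using hw, rfl⟩

lemma locUL_exists (ξ : ι → E) (a : ι → ℝ) (v : ℝ) (h : v < Lam ξ a) :
    ∃ w : E, ‖w‖ ≤ 1 ∧ v < pair a (qv ξ w) := by
  obtain ⟨_, ⟨w, hw, rfl⟩, h2⟩ := exists_lt_of_lt_csSup
    (Set.Nonempty.image _ ⟨0, by simp⟩) h
  exact ⟨w, by simpa using hw, h2⟩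

end general

/-- The image of an integer window in `ZMod (2 D)`. -/
def locUL_win (D : ℕ) (s : ℤ) (k : ℕ) : Finset (ZMod (2 * D)) :=
  Finset.univ.image fun x : Fin k => ((s + ((x : ℕ) : ℤ) : ℤ) : ZMod (2 * D))

lemma locUL_mem (D : ℕ) (s : ℤ) (k : ℕ) (z : ℤ) :
    ((z : ℤ) : ZMod (2 * D)) ∈ locUL_win D s k ↔
      ∃ y : ℤ, s ≤ y ∧ y < s + k ∧ ((2 * D : ℕ) : ℤ) ∣ z - y := by
  simp only [locUL_win, Finset.mem_image, Finset.mem_univ, true_and]
  constructor
  · rintro ⟨x, hx⟩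
    refine ⟨s + ((x : ℕ) : ℤ), by omega, by have := x.2; omega, ?_⟩
    rw [← ZMod.intCast_eq_intCast_iff_dvd_sub]
    exact hx
  · rintro ⟨y, h1, h2, h3⟩
    refine ⟨⟨(y - s).toNat, by omega⟩, ?_⟩
    rw [← ZMod.intCast_eq_intCast_iff_dvd_sub] at h3
    rw [← h3]
    congr 1
    simp only
    omega

lemma locUL_xi (D N : ℕ) (hD : 1 ≤ D) (z y : ℤ) (h : ((2 * D : ℕ) : ℤ) ∣ z - y) :
    xi D N z = xi D N y := by
  obtain ⟨c, hc⟩ := h
  have hz : z = y + 2 * D * c := by push_cast at hc; linarith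
  unfold xi
  congr 1
  funext t
  congr 1
  have hD' : (D : ℝ) ≠ 0 := by positivity
  have : ((Real.pi * z * (t : ℕ) / D : ℝ) : ℂ) * Complex.I =
      ((Real.pi * y * (t : ℕ) / D : ℝ) : ℂ) * Complex.I +
        ((c * (t : ℕ) : ℤ) : ℂ) * (2 * Real.pi * Complex.I) := by
    subst hz
    have hDc : (D : ℂ) ≠ 0 := by exact_mod_cast hD'
    push_cast
    field_simp
  rw [this, Complex.exp_add, Complex.exp_int_mul_two_pi_mul_I, mul_one]

lemma locUL_per (D : ℕ) (a : ℤ → ℝ) (ha : ∀ j, a (j + 2 * D) = a j) (z y : ℤ)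
    (h : ((2 * D : ℕ) : ℤ) ∣ z - y) : a z = a y := by
  obtain ⟨c, hc⟩ := h
  have hz : z = y + c * (2 * D) := by push_cast at hc; linarith
  have hp : Function.Periodic a (2 * (D : ℤ)) := fun j => ha j
  rw [hz]
  have := hp.int_mul c y
  simpa using this

lemma locUL_val (D : ℕ) (hD : 1 ≤ D) (z : ℤ) :
    ((2 * D : ℕ) : ℤ) ∣ ((((z : ℤ) : ZMod (2 * D)).val : ℕ) : ℤ) - z := by
  have : NeZero (2 * D) := ⟨by omega⟩
  rw [← ZMod.intCast_eq_intCast_iff_dvd_sub]
  simp

lemma locUL_sum (D N : ℕ) (hD : 1 ≤ D) (a : ℤ → ℝ) (ha : ∀ j, a (j + 2 * D) = a j) (s : ℤ)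
    (k : ℕ) (hk : k ≤ 2 * D) (w : EuclideanSpace ℂ (Fin N)) :
    ∑ r ∈ locUL_win D s k, a (r.val : ℤ) * ‖(inner ℂ (xi D N (r.val : ℤ)) w : ℂ)‖ ^ 2 =
      pair (wind a s k) (qv (fun x : Fin k => xi D N (s + ((x : ℕ) : ℤ))) w) := by
  unfold locUL_win
  rw [Finset.sum_image]
  · simp only [pair, qv, wind]
    refine Finset.sum_congr rfl fun x _ => ?_
    have h := locUL_val D hD (s + ((x : ℕ) : ℤ))
    rw [locUL_per D a ha _ _ h, locUL_xi D N hD _ _ h]
  · intro x _ y _ hxy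
    simp only at hxy
    rw [ZMod.intCast_eq_intCast_iff_dvd_sub] at hxy
    obtain ⟨c, hc⟩ := hxy
    have hx := x.2
    have hy := y.2
    have h1 : (s + ((y : ℕ) : ℤ)) - (s + ((x : ℕ) : ℤ)) = ((y : ℕ) : ℤ) - ((x : ℕ) : ℤ) := by ring
    rw [h1] at hc
    have hc0 : c = 0 := by
      by_contra hne
      rcases lt_or_gt_of_ne hne with h | h
      · have : ((2 * D : ℕ) : ℤ) * c ≤ ((2 * D : ℕ) : ℤ) * (-1) :=
          mul_le_mul_of_nonneg_left (by omega) (by positivity)
        push_cast at this hc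
        omega
      · have : ((2 * D : ℕ) : ℤ) * 1 ≤ ((2 * D : ℕ) : ℤ) * c :=
          mul_le_mul_of_nonneg_left (by omega) (by positivity)
        push_cast at this hc
        omega
    rw [hc0, mul_zero] at hc
    apply Fin.ext
    omega

lemma locUL_univ (D : ℕ) (hD : 1 ≤ D) [Fintype (ZMod (2 * D))] :
    (Finset.univ : Finset (ZMod (2 * D))) = locUL_win D 0 (2 * D) := by
  have : NeZero (2 * D) := ⟨by omega⟩
  ext r
  simp only [Finset.mem_univ, true_iff]
  have hr : r = (((r.val : ℕ) : ℤ) : ZMod (2 * D)) := by simp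
  rw [hr, locUL_mem]
  exact ⟨((r.val : ℕ) : ℤ), by omega, by have := ZMod.val_lt r; push_cast; omega,
    by simp⟩

/-- The window functional bounds the sums over the window. -/
lemma locUL_win_le (hs : ToepShift) (D N : ℕ) (hD : 1 ≤ D) (a : ℤ → ℝ)
    (ha : ∀ j, a (j + 2 * D) = a j) (s : ℤ) (k : ℕ) (hk : k ≤ 2 * D)
    (w : EuclideanSpace ℂ (Fin N)) (hw : ‖w‖ ≤ 1) :
    ∑ r ∈ locUL_win D s k, a (r.val : ℤ) * ‖(inner ℂ (xi D N (r.val : ℤ)) w : ℂ)‖ ^ 2 ≤
      LB D N k (wind a s k) := by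
  rw [locUL_sum D N hD a ha s k hk w, ← hs D N k s (wind a s k)]
  exact locUL_le _ _ w hw

lemma locUL_win_exists (hs : ToepShift) (D N : ℕ) (hD : 1 ≤ D) (a : ℤ → ℝ)
    (ha : ∀ j, a (j + 2 * D) = a j) (s : ℤ) (k : ℕ) (hk : k ≤ 2 * D) (v : ℝ)
    (h : v < LB D N k (wind a s k)) :
    ∃ w : EuclideanSpace ℂ (Fin N), ‖w‖ ≤ 1 ∧
      v < ∑ r ∈ locUL_win D s k, a (r.val : ℤ) * ‖(inner ℂ (xi D N (r.val : ℤ)) w : ℂ)‖ ^ 2 := by
  rw [← hs D N k s (wind a s k)] at h
  obtain ⟨w, hw, h2⟩ := locUL_exists _ _ v h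
  exact ⟨w, hw, by rw [locUL_sum D N hD a ha s k hk w]; exact h2⟩

theorem locU (hB : LocB) (hs : ToepShift) (hr : ToepRefl) : LocU := by
  intro m K R D N τ a A v hR hK hm hDm hτ hN hv hA hper heven habs hlt
  have hmK : 2 * K ≤ m * K := Nat.mul_le_mul_right K hm
  have hD : 1 ≤ D := by omega
  have hRD : 4 * R + 2 ≤ D := by omega
  unfold Mf at hlt
  obtain ⟨w, hw, h2⟩ := locUL_win_exists hs D N hD a hper 0 (2 * D) le_rfl _ hlt
  obtain ⟨b, w', hw', h3⟩ := hB D N τ R a A v w (locUL_win D 0 (2 * D)) hD hτ hR hN hA hv habs hw h2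
  -- the good integers
  have key : ∀ b' : ℤ, ((b' : ℤ) : ZMod (2 * D)) = b → ∀ (s : ℤ) (k : ℕ), k ≤ 2 * D →
      s ≤ b' - R → b' + R < s + k → v < LB D (N + τ) k (wind a s k) := by
    intro b' hb' s k hk h4 h5
    refine lt_of_lt_of_le (h3 (locUL_win D s k) ?_)
      (locUL_win_le hs D (N + τ) hD a hper s k hk w' hw')
    intro x hx
    rw [abs_le] at hx
    have e : b + ((x : ℤ) : ZMod (2 * D)) = ((b' + x : ℤ) : ZMod (2 * D)) := by
      rw [← hb']; push_cast; ring
    rw [e, locUL_mem, locUL_mem]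
    constructor
    · intro _
      refine ⟨(b' + x) % (2 * D), Int.emod_nonneg _ (by omega), ?_, ?_⟩
      · have := Int.emod_lt_of_pos (b' + x) (b := 2 * (D : ℤ)) (by omega)
        push_cast
        omega
      · have := Int.dvd_self_sub_emod (x := b' + x) (m := 2 * (D : ℤ))
        push_cast
        exact this
    · intro _
      exact ⟨b' + x, by omega, by omega, by simp⟩
  -- reflection
  have keyneg : ∀ b' : ℤ, ((b' : ℤ) : ZMod (2 * D)) = b → ∀ (s : ℤ) (k : ℕ), k ≤ 2 * D →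
      s ≤ -b' - R → -b' + R < s + k → v < LB D (N + τ) k (wind a s k) := by
    intro b' hb' s k hk h4 h5
    have h6 := key b' hb' (-s - k + 1) k hk (by omega) (by omega)
    rw [← hr D (N + τ) k (wind a s k)]
    convert h6 using 2
    funext x
    simp only [wind]
    have hx := x.2
    have e : s + (((Fin.rev x : Fin k) : ℕ) : ℤ) = -(-s - k + 1 + ((x : ℕ) : ℤ)) := by
      rw [Fin.val_rev]
      omega
    rw [e, heven]
  -- a representative in [0, D]
  have hrep : ∃ β : ℤ, 0 ≤ β ∧ β ≤ D ∧ ∀ (s : ℤ) (k : ℕ), k ≤ 2 * D →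
      s ≤ β - R → β + R < s + k → v < LB D (N + τ) k (wind a s k) := by
    have : NeZero (2 * D) := ⟨by omega⟩
    have hbv : (((b.val : ℕ) : ℤ) : ZMod (2 * D)) = b := by simp
    have hlt' := ZMod.val_lt b
    by_cases hc : b.val ≤ D
    · exact ⟨b.val, by omega, by omega, key _ hbv⟩
    · refine ⟨2 * D - b.val, by omega, by omega, ?_⟩
      have h7 : (((b.val : ℤ) - 2 * D : ℤ) : ZMod (2 * D)) = b := by
        push_cast
        have : ((2 * D : ℕ) : ZMod (2 * D)) = 0 := ZMod.natCast_self _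
        push_cast at this
        rw [this]
        simp
      intro s k hk h4 h5
      exact keyneg _ h7 s k hk (by omega) (by omega)
  obtain ⟨β, hβ0, hβD, hβ⟩ := hrep
  by_cases c1 : β ≤ R
  · right; right; left
    exact hβ _ _ (by omega) (by omega) (by push_cast; omega)
  by_cases c2 : (D : ℤ) - R ≤ β
  · right; right; right
    exact hβ _ _ (by omega) (by omega) (by push_cast; omega)
  push Not at c1 c2
  have hKpos : 0 < K := by omega
  set i : ℕ := ((β - 1).toNat) / K with hi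
  have hi1 : i * K ≤ (β - 1).toNat := Nat.div_mul_le_self _ _
  have hi2 : (β - 1).toNat < (i + 1) * K := by
    have := Nat.lt_div_mul_add (a := (β - 1).toNat) hKpos
    rw [← hi] at this
    linarith [this, Nat.succ_mul i K]
  have hDz : (D : ℤ) = m * K + 1 := by exact_mod_cast hDm
  have hi3 : i < m := by
    by_contra hcon
    push Not at hcon
    have := Nat.mul_le_mul_right K hcon
    have h8 : ((m * K : ℕ) : ℤ) = m * K := by push_cast; ring
    omega
  clear_value i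
  clear hi
  have z1 : ((i * K : ℕ) : ℤ) = i * K := by push_cast; ring
  have z2 : (((i + 1) * K : ℕ) : ℤ) = (i + 1) * K := by push_cast; ring
  have z3 : ((i : ℤ) + 1) * K = i * K + K := by ring
  by_cases c3 : β - R ≤ i * K
  · right; left
    refine ⟨i, ?_, hi3, hβ _ _ (by omega) (by omega) (by push_cast; omega)⟩
    by_contra hcon
    have : i = 0 := by omega
    rw [this] at c3
    simp at c3
    omega
  by_cases c4 : (i : ℤ) * K + K + 1 ≤ β + R
  · right; left
    refine ⟨i + 1, by omega, ?_, ?_⟩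
    · by_contra hcon
      push Not at hcon
      have h9 := Nat.mul_le_mul_right K hcon
      have h8 : ((m * K : ℕ) : ℤ) = m * K := by push_cast; ring
      omega
    · refine hβ _ _ (by omega) ?_ ?_
      · push_cast
        rw [z3]
        omega
      · push_cast
        rw [z3]
        omega
  left
  exact ⟨i, hi3, hβ _ _ (by omega) (by omega) (by omega)⟩

theorem locL (hB : LocB) (hs : ToepShift) : LocL := by
  intro D N τ R k s a A v hR hk hs1 hsk hτ hN hv hA hper habs hlt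
  have hD : 1 ≤ D := by omega
  have : NeZero (2 * D) := ⟨by omega⟩
  obtain ⟨w, hw, h2⟩ := locUL_win_exists hs D N hD a hper s k (by omega) _ hlt
  obtain ⟨b, w', hw', h3⟩ := hB D N τ R a A v w (locUL_win D s k) hD hτ hR hN hA hv habs hw h2
  by_cases hex : ∃ b' : ℤ, ((b' : ℤ) : ZMod (2 * D)) = b ∧ s - R ≤ b' ∧ b' ≤ s + k - 1 + R
  · obtain ⟨b', hb', hl, hu⟩ := hex
    have e : ∀ x : ℤ, b + ((x : ℤ) : ZMod (2 * D)) = ((b' + x : ℤ) : ZMod (2 * D)) := by
      intro x
      rw [← hb']; push_cast; ring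
    -- membership in a window for integers close to it
    have mem : ∀ (s' : ℤ) (k' : ℕ) (z : ℤ), s' + k' - 2 * D ≤ z → z < s' + 2 * D →
        (((z : ℤ) : ZMod (2 * D)) ∈ locUL_win D s' k' ↔ s' ≤ z ∧ z < s' + k') := by
      intro s' k' z hz1 hz2
      rw [locUL_mem]
      constructor
      · rintro ⟨y, hy1, hy2, ⟨c, hc⟩⟩
        push_cast at hc
        have hc0 : c = 0 := by
          by_contra hne
          rcases lt_or_gt_of_ne hne with h | h
          · have : (2 * D : ℤ) * c ≤ (2 * D : ℤ) * (-1) :=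
              mul_le_mul_of_nonneg_left (by omega) (by positivity)
            omega
          · have : (2 * D : ℤ) * 1 ≤ (2 * D : ℤ) * c :=
              mul_le_mul_of_nonneg_left (by omega) (by positivity)
            omega
        rw [hc0, mul_zero] at hc
        omega
      · rintro ⟨h5, h6⟩
        exact ⟨z, h5, h6, by simp⟩
    by_cases c1 : b' - R < s
    · right; left
      refine lt_of_lt_of_le (h3 (locUL_win D s (2 * R)) ?_)
        (locUL_win_le hs D (N + τ) hD a hper s (2 * R) (by omega) w' hw')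
      intro x hx
      rw [abs_le] at hx
      rw [e x, mem s (2 * R) _ (by push_cast; omega) (by omega), mem s k _ (by omega) (by omega)]
      push_cast
      omega
    by_cases c2 : s + k ≤ b' + R
    · right; right
      refine lt_of_lt_of_le (h3 (locUL_win D (s + k - 2 * R) (2 * R)) ?_)
        (locUL_win_le hs D (N + τ) hD a hper (s + k - 2 * R) (2 * R) (by omega) w' hw')
      intro x hx
      rw [abs_le] at hx
      rw [e x, mem (s + k - 2 * R) (2 * R) _ (by push_cast; omega) (by omega),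
        mem s k _ (by omega) (by omega)]
      push_cast
      omega
    · left
      unfold Mf
      refine lt_of_lt_of_le (h3 (locUL_win D 0 (2 * D)) ?_)
        (locUL_win_le hs D (N + τ) hD a hper 0 (2 * D) le_rfl w' hw')
      intro x hx
      rw [abs_le] at hx
      rw [e x, mem 0 (2 * D) _ (by push_cast; omega) (by omega), mem s k _ (by omega) (by omega)]
      push_cast
      omega
  · exfalso
    have h4 := h3 ∅ ?_
    · simp only [Finset.sum_empty] at h4
      exact absurd h4 (not_lt.mpr hv)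
    intro x hx
    rw [abs_le] at hx
    constructor
    · intro h; simp at h
    · intro h
      exfalso
      apply hex
      have hb0 : (((b.val : ℕ) : ℤ) : ZMod (2 * D)) = b := by simp
      have e0 : b + ((x : ℤ) : ZMod (2 * D)) = (((b.val : ℤ) + x : ℤ) : ZMod (2 * D)) := by
        push_cast
        simp
      rw [e0, locUL_mem] at h
      obtain ⟨y, hy1, hy2, hy3⟩ := h
      refine ⟨y - x, ?_, by omega, by omega⟩
      rw [← ZMod.intCast_eq_intCast_iff_dvd_sub] at hy3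
      have : ((y : ℤ) : ZMod (2 * D)) = ((b.val : ℤ) + x : ℤ) := hy3
      push_cast at this ⊢
      rw [this]
      simp

end Pool.Agent.Work.MP_3574a2_pr
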