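import Pool.Agent.Work.MP_3574a2_pr.Claims

set_option autoImplicit false

/-!
# MP_3574a2_pr : sparsification (Maurey's lemma)
-/

namespace Pool.Agent.Work.MP_3574a2_pr

open MeasureTheory ProbabilityTheory

namespace MaureyAux

open Classical

variable {ι : Type} [Fintype ι]

/-- Weighted sum over the maps `Fin k → Option ι` of a product. -/
theorem sum_prod_eq {k : ℕ} (F : Fin k → Option ι → ℝ) :
    ∑ f : Fin k → Option ι, ∏ l, F l (f l) = ∏ l, ∑ o, F l o := by
  rw [Finset.prod_univ_sum]
  simp [Fintype.piFinset_univ]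

theorem sum_w {k : ℕ} (p : Option ι → ℝ) (hp : ∑ o, p o = 1) :
    ∑ f : Fin k → Option ι, ∏ l, p (f l) = 1 := by
  rw [sum_prod_eq (fun _ o => p o)]
  simp [hp]

theorem marg1 {k : ℕ} (p : Option ι → ℝ) (hp : ∑ o, p o = 1) (g : Option ι → ℝ) (l0 : Fin k) :
    ∑ f : Fin k → Option ι, (∏ l, p (f l)) * g (f l0) = ∑ o, p o * g o := by
  have h1 : ∀ f : Fin k → Option ι, (∏ l, p (f l)) * g (f l0) =
      ∏ l, (p (f l) * if l = l0 then g (f l) else 1) := by
    intro f
    rw [Finset.prod_mul_distrib, Finset.prod_ite_eq']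
    simp
  rw [Finset.sum_congr rfl (fun f _ => h1 f),
    sum_prod_eq (fun l o => p o * if l = l0 then g o else 1)]
  have h2 : ∀ l : Fin k, (∑ o, p o * if l = l0 then g o else 1) =
      if l = l0 then ∑ o, p o * g o else 1 := by
    intro l
    by_cases h : l = l0
    · simp [h]
    · simp [h, hp]
  rw [Finset.prod_congr rfl (fun l _ => h2 l), Finset.prod_ite_eq']
  simp

theorem marg2 {k : ℕ} (p : Option ι → ℝ) (hp : ∑ o, p o = 1) (g h : Option ι → ℝ) (l0 m0 : Fin k)
    (hlm : l0 ≠ m0) :
    ∑ f : Fin k → Option ι, (∏ l, p (f l)) * (g (f l0) * h (f m0)) =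
      (∑ o, p o * g o) * ∑ o, p o * h o := by
  have h1 : ∀ f : Fin k → Option ι, (∏ l, p (f l)) * (g (f l0) * h (f m0)) =
      ∏ l, (p (f l) * ((if l = l0 then g (f l) else 1) * if l = m0 then h (f l) else 1)) := by
    intro f
    rw [Finset.prod_mul_distrib, Finset.prod_mul_distrib, Finset.prod_ite_eq',
      Finset.prod_ite_eq']
    simp
  rw [Finset.sum_congr rfl (fun f _ => h1 f),
    sum_prod_eq (fun l o => p o * ((if l = l0 then g o else 1) * if l = m0 then h o else 1))]
  have h2 : ∀ l : Fin k, (∑ o, p o * ((if l = l0 then g o else 1) * if l = m0 then h o else 1)) =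
      (if l = l0 then ∑ o, p o * g o else 1) * (if l = m0 then ∑ o, p o * h o else 1) := by
    intro l
    by_cases h3 : l = l0
    · have h4 : l ≠ m0 := fun h => hlm (h3 ▸ h)
      simp [h3, h3 ▸ h4]
    · by_cases h4 : l = m0
      · have h5 : ¬ (m0 = l0) := fun h => hlm h.symm
        simp [h4, h5]
      · simp [h3, h4, hp]
  rw [Finset.prod_congr rfl (fun l _ => h2 l), Finset.prod_mul_distrib, Finset.prod_ite_eq',
    Finset.prod_ite_eq']
  simp

/-- The empirical vector of a map. -/
noncomputable def qf {k : ℕ} (f : Fin k → Option ι) (j : ι) : ℝ :=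
  (1 / (k : ℝ)) * ∑ l, if f l = some j then 1 else 0

theorem pair_qf {k : ℕ} (a : ι → ℝ) (f : Fin k → Option ι) :
    pair a (qf f) = (1 / (k : ℝ)) * ∑ l, (Option.elim (f l) 0 a) := by
  unfold pair qf
  have h1 : ∀ j, a j * (1 / (k : ℝ) * ∑ l, (if f l = some j then (1 : ℝ) else 0)) =
      (1 / (k : ℝ)) * ∑ l, (if f l = some j then a j else 0) := by
    intro j
    have : ∑ l, (if f l = some j then a j else 0) =
        a j * ∑ l, (if f l = some j then (1 : ℝ) else 0) := by
      rw [Finset.mul_sum]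
      refine Finset.sum_congr rfl fun l _ => ?_
      split_ifs <;> simp
    rw [this]
    ring
  rw [Finset.sum_congr rfl (fun j _ => h1 j), ← Finset.mul_sum, Finset.sum_comm]
  congr 1
  refine Finset.sum_congr rfl fun l _ => ?_
  cases hfl : f l with
  | none => simp
  | some j0 =>
    simp

theorem sq_qf {k : ℕ} (f : Fin k → Option ι) :
    sq (qf f) = (1 / (k : ℝ) ^ 2) * ∑ j, ∑ l, ∑ m,
      ((if f l = some j then (1 : ℝ) else 0) * if f m = some j then 1 else 0) := by
  unfold sq qf
  rw [Finset.mul_sum]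
  refine Finset.sum_congr rfl fun j _ => ?_
  rw [mul_pow, pow_two (∑ l, if f l = some j then (1 : ℝ) else 0), Finset.sum_mul_sum]
  ring

theorem sum_opt (p g : Option ι → ℝ) :
    ∑ o, p o * g o = p none * g none + ∑ j, p (some j) * g (some j) := by
  rw [Fintype.sum_option]

theorem avg_pair {k : ℕ} (hk : 1 ≤ k) (p : Option ι → ℝ) (hp : ∑ o, p o = 1) (a : ι → ℝ) :
    ∑ f : Fin k → Option ι, (∏ l, p (f l)) * pair a (qf f) = pair a (fun j => p (some j)) := by
  have h1 : ∀ f : Fin k → Option ι, (∏ l, p (f l)) * pair a (qf f) =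
      (1 / (k : ℝ)) * ∑ m, (∏ l, p (f l)) * (Option.elim (f m) 0 a) := by
    intro f
    rw [pair_qf, ← Finset.mul_sum]
    ring
  rw [Finset.sum_congr rfl (fun f _ => h1 f), ← Finset.mul_sum, Finset.sum_comm]
  have h2 : ∀ m : Fin k, ∑ f : Fin k → Option ι, (∏ l, p (f l)) * (Option.elim (f m) 0 a) =
      pair a (fun j => p (some j)) := by
    intro m
    rw [marg1 p hp (fun o => Option.elim o 0 a) m, sum_opt]
    unfold pair
    simp [mul_comm]
  rw [Finset.sum_congr rfl (fun m _ => h2 m)]
  have hk' : (k : ℝ) ≠ 0 := by positivity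
  simp
  field_simp

theorem avg_sq {k : ℕ} (hk : 1 ≤ k) (p : Option ι → ℝ) (hp : ∑ o, p o = 1)
    (hp0 : ∀ o, 0 ≤ p o) :
    ∑ f : Fin k → Option ι, (∏ l, p (f l)) * sq (qf f) ≤
      sq (fun j => p (some j)) + 1 / (k : ℝ) := by
  have hk' : (0 : ℝ) < (k : ℝ) := by positivity
  have h1 : ∀ f : Fin k → Option ι, (∏ l, p (f l)) * sq (qf f) =
      (1 / (k : ℝ) ^ 2) * ∑ j, ∑ l, ∑ m, (∏ l, p (f l)) *
      ((if f l = some j then (1 : ℝ) else 0) * if f m = some j then 1 else 0) := by
    intro f
    rw [sq_qf]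
    simp only [← Finset.mul_sum]
    ring
  rw [Finset.sum_congr rfl (fun f _ => h1 f), ← Finset.mul_sum, Finset.sum_comm]
  have h2 : ∀ j : ι, ∑ f : Fin k → Option ι, ∑ l, ∑ m, (∏ l, p (f l)) *
      ((if f l = some j then (1 : ℝ) else 0) * if f m = some j then 1 else 0) ≤
      k * p (some j) + k ^ 2 * p (some j) ^ 2 := by
    intro j
    rw [Finset.sum_comm]
    have h3 : ∀ l : Fin k, ∑ f : Fin k → Option ι, ∑ m, (∏ l, p (f l)) *
      ((if f l = some j then (1 : ℝ) else 0) * if f m = some j then 1 else 0) ≤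
        p (some j) + k * p (some j) ^ 2 := by
      intro l
      rw [Finset.sum_comm]
      have h4 : ∀ m : Fin k, ∑ f : Fin k → Option ι, (∏ l, p (f l)) *
          ((if f l = some j then (1 : ℝ) else 0) * if f m = some j then 1 else 0) ≤
          (if m = l then p (some j) else 0) + p (some j) ^ 2 := by
        intro m
        by_cases hml : m = l
        · subst hml
          have h5 : ∀ f : Fin k → Option ι, (∏ l, p (f l)) *
              ((if f m = some j then (1 : ℝ) else 0) * if f m = some j then 1 else 0) =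
              (∏ l, p (f l)) * (if f m = some j then (1 : ℝ) else 0) := by
            intro f
            split_ifs <;> simp
          rw [Finset.sum_congr rfl (fun f _ => h5 f),
            marg1 p hp (fun o => if o = some j then (1 : ℝ) else 0) m]
          simp
          positivity
        · rw [marg2 p hp (fun o => if o = some j then (1 : ℝ) else 0)
            (fun o => if o = some j then (1 : ℝ) else 0) l m (Ne.symm hml)]
          simp [hml]
          exact le_of_eq (pow_two _).symm
      refine le_trans (Finset.sum_le_sum fun m _ => h4 m) ?_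
      rw [Finset.sum_add_distrib]
      simp
    refine le_trans (Finset.sum_le_sum fun l _ => h3 l) ?_
    simp
    apply le_of_eq
    ring
  refine le_trans (mul_le_mul_of_nonneg_left (Finset.sum_le_sum fun j _ => h2 j)
    (by positivity)) ?_
  rw [Finset.sum_add_distrib, ← Finset.mul_sum, ← Finset.mul_sum]
  have h6 : ∑ j, p (some j) ≤ 1 := by
    have := hp
    rw [Fintype.sum_option] at this
    linarith [hp0 none]
  unfold sq
  have h7 : (1 / (k : ℝ) ^ 2) * (k * ∑ j, p (some j) + k ^ 2 * ∑ j, p (some j) ^ 2) =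
      (∑ j, p (some j)) / k + ∑ j, p (some j) ^ 2 := by
    field_simp
  rw [h7]
  have h8 : (∑ j, p (some j)) / k ≤ 1 / k := div_le_div_of_nonneg_right h6 hk'.le
  linarith

theorem det_part {k : ℕ} (hk : 1 ≤ k) (u S : ℝ) (hu : 0 < u) (hS : 0 < S) (a q : ι → ℝ)
    (hq0 : ∀ j, 0 ≤ q j) (hq1 : ∑ j, q j ≤ 1) (hqS : sq q + 1 / (k : ℝ) ≤ S)
    (ha : u ≤ pair a q) :
    ∃ f : Fin k → Option ι, 0 < sq (qf f) ∧ u * Real.sqrt (sq (qf f) / S) ≤ pair a (qf f) := by
  set p : Option ι → ℝ := fun o => Option.elim o (1 - ∑ j, q j) q with hpdef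
  have hp0 : ∀ o, 0 ≤ p o := by
    intro o
    cases o with
    | none => simp only [hpdef, Option.elim]; linarith
    | some j => simp only [hpdef, Option.elim]; exact hq0 j
  have hp : ∑ o, p o = 1 := by
    rw [Fintype.sum_option]
    simp [hpdef]
  have hpq : (fun j => p (some j)) = q := by
    funext j; simp [hpdef]
  have e1 := avg_pair hk p hp a
  have e2 := avg_sq hk p hp hp0
  rw [hpq] at e1 e2
  have e0 := sum_w (k := k) p hp
  have hW : ∀ f : Fin k → Option ι, 0 ≤ ∏ l, p (f l) := fun f =>
    Finset.prod_nonneg fun l _ => hp0 _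
  have key : u ≤ ∑ f : Fin k → Option ι, (∏ l, p (f l)) *
      (pair a (qf f) - u / (2 * S) * (sq (qf f) - S)) := by
    have h1 : ∑ f : Fin k → Option ι, (∏ l, p (f l)) *
        (pair a (qf f) - u / (2 * S) * (sq (qf f) - S)) =
        (∑ f : Fin k → Option ι, (∏ l, p (f l)) * pair a (qf f)) -
        u / (2 * S) * (∑ f : Fin k → Option ι, (∏ l, p (f l)) * sq (qf f)) +
        u / (2 * S) * S * ∑ f : Fin k → Option ι, (∏ l, p (f l)) := by
      rw [Finset.mul_sum, Finset.mul_sum, ← Finset.sum_sub_distrib, ← Finset.sum_add_distrib]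
      refine Finset.sum_congr rfl fun f _ => ?_
      ring
    rw [h1, e1, e0]
    have h2 : u / (2 * S) * (∑ f : Fin k → Option ι, (∏ l, p (f l)) * sq (qf f)) ≤
        u / (2 * S) * S := mul_le_mul_of_nonneg_left (e2.trans hqS) (by positivity)
    linarith
  have hex : ∃ f : Fin k → Option ι,
      u ≤ pair a (qf f) - u / (2 * S) * (sq (qf f) - S) := by
    by_contra hcon
    push Not at hcon
    have hlt : ∑ f : Fin k → Option ι, (∏ l, p (f l)) *
        (pair a (qf f) - u / (2 * S) * (sq (qf f) - S)) <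
        ∑ f : Fin k → Option ι, (∏ l, p (f l)) * u := by
      refine Finset.sum_lt_sum (fun f _ => mul_le_mul_of_nonneg_left (hcon f).le (hW f)) ?_
      have : ∃ f : Fin k → Option ι, f ∈ Finset.univ ∧ 0 < ∏ l, p (f l) := by
        by_contra h0
        push Not at h0
        have : ∑ f : Fin k → Option ι, ∏ l, p (f l) ≤ 0 :=
          Finset.sum_nonpos fun f hf => h0 f hf
        linarith
      obtain ⟨f, hf, hpos⟩ := this
      exact ⟨f, hf, mul_lt_mul_of_pos_left (hcon f) hpos⟩
    rw [← Finset.sum_mul, e0] at hlt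
    linarith
  obtain ⟨f, hf⟩ := hex
  refine ⟨f, ?_, ?_⟩
  · -- `Q_f > 0`
    have h0 : 0 ≤ sq (qf f) := Finset.sum_nonneg fun j _ => sq_nonneg _
    rcases h0.lt_or_eq with h | h
    · exact h
    · exfalso
      have hz : ∀ j, qf f j = 0 := by
        intro j
        have := (Finset.sum_eq_zero_iff_of_nonneg (fun j _ => sq_nonneg (qf f j))).1 h.symm j
          (Finset.mem_univ j)
        exact pow_eq_zero_iff (two_ne_zero) |>.1 this
      have hpz : pair a (qf f) = 0 := by
        unfold pair
        exact Finset.sum_eq_zero fun j _ => by rw [hz j, mul_zero]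
      rw [hpz, ← h] at hf
      have : u / (2 * S) * (0 - S) = -(u / 2) := by field_simp; ring
      rw [this] at hf
      linarith
  · set Q := sq (qf f) with hQ
    have h0 : 0 ≤ Q := Finset.sum_nonneg fun j _ => sq_nonneg _
    have h1 : u * Real.sqrt (Q / S) ≤ u * ((Q + S) / (2 * S)) := by
      refine mul_le_mul_of_nonneg_left ?_ hu.le
      rw [Real.sqrt_le_left (by positivity)]
      rw [div_pow, div_le_div_iff₀ hS (by positivity)]
      nlinarith [mul_nonneg hS.le (sq_nonneg (Q - S))]
    have h2 : u * ((Q + S) / (2 * S)) = u + u / (2 * S) * (Q - S) := by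
      field_simp
      ring
    linarith

end MaureyAux

open MaureyAux in
/-- Sparsification: off a small explicit set, no sparse direction reaches the level `u`. -/
theorem maurey (h : GaussTail) : Maurey := by
  classical
  intro ι _ k u S hk hu hS
  set B : (Fin k → Option ι) → Set (ι → ℝ) := fun f =>
    {a | u * Real.sqrt (sq (qf f) / S) ≤ pair a (qf f)} with hB
  set T : Finset (Fin k → Option ι) := Finset.univ.filter fun f => 0 < sq (qf f) with hT
  have hcont : ∀ q : ι → ℝ, Continuous fun a : ι → ℝ => pair a q := by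
    intro q
    unfold pair
    fun_prop
  refine ⟨⋃ f ∈ T, B f, ?_, ?_, ?_⟩
  · refine Finset.measurableSet_biUnion _ fun f _ => ?_
    exact (isClosed_le continuous_const (hcont _)).measurableSet
  · refine le_trans (measureReal_biUnion_finset_le T B) ?_
    have h1 : ∀ f ∈ T, (gm ι).real (B f) ≤ Real.exp (-(u ^ 2) / (2 * S)) := by
      intro f hf
      have hQ : 0 < sq (qf f) := (Finset.mem_filter.1 hf).2
      have := (h ι (qf f) (u * Real.sqrt (sq (qf f) / S)) hQ (by positivity)).1
      refine le_trans this (le_of_eq ?_)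
      congr 1
      rw [mul_pow, Real.sq_sqrt (by positivity)]
      field_simp
    refine le_trans (Finset.sum_le_sum h1) ?_
    rw [Finset.sum_const, nsmul_eq_mul]
    refine mul_le_mul_of_nonneg_right ?_ (Real.exp_nonneg _)
    have h2 : T.card ≤ Fintype.card (Fin k → Option ι) := Finset.card_le_univ T
    have h3 : Fintype.card (Fin k → Option ι) = (Fintype.card ι + 1) ^ k := by
      rw [Fintype.card_fun, Fintype.card_option, Fintype.card_fin]
    rw [h3] at h2
    exact_mod_cast h2
  · intro a ha q hq0 hq1 hqS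
    by_contra hcon
    push Not at hcon
    obtain ⟨f, hf1, hf2⟩ := det_part hk u S hu hS a q hq0 hq1 hqS hcon
    apply ha
    simp only [Set.mem_iUnion]
    exact ⟨f, Finset.mem_filter.2 ⟨Finset.mem_univ _, hf1⟩, hf2⟩

end Pool.Agent.Work.MP_3574a2_pr
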