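import Pool.Agent.Work.MP_3574a2_pr.Claims

set_option autoImplicit false

/-!
# MP_3574a2_pr, S5: the tail function is asymptotically exponential
-/

namespace Pool.Agent.Work.MP_3574a2_pr

open MeasureTheory ProbabilityTheory Filter Topology

theorem rt_exp_lower (H : ℝ → ℝ) (α β a : ℝ) (ha : 0 ≤ a)
    (h : ∀ r1 r2, α ≤ r1 → r1 ≤ r2 → r2 ≤ β → H r2 * (1 + a * (r2 - r1)) ≤ H r1)
    (r1 r2 : ℝ) (h1 : α ≤ r1) (h12 : r1 ≤ r2) (h2 : r2 ≤ β) :
    H r2 * Real.exp (a * (r2 - r1)) ≤ H r1 := by
  have key : ∀ k : ℕ, 1 ≤ k → H r2 * (1 + a * (r2 - r1) / k) ^ k ≤ H r1 := by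
    intro k hk
    have hk0 : (0 : ℝ) < k := by exact_mod_cast hk
    set s := (r2 - r1) / k with hs
    have hs0 : 0 ≤ s := div_nonneg (by linarith) hk0.le
    have hks : k * s = r2 - r1 := by rw [hs]; field_simp
    have step : ∀ i : ℕ, i ≤ k → H r2 * (1 + a * s) ^ i ≤ H (r2 - i * s) := by
      intro i
      induction i with
      | zero => intro _; simp
      | succ i ih =>
        intro hi
        have hi' := ih (by omega)
        have hik : ((i : ℝ) + 1) ≤ k := by exact_mod_cast hi
        have e1 : ((i : ℝ) + 1) * s ≤ k * s := mul_le_mul_of_nonneg_right hik hs0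
        have e0 : 0 ≤ (i : ℝ) * s := by positivity
        have hh := h (r2 - ((i + 1 : ℕ) : ℝ) * s) (r2 - i * s) (by push_cast; linarith)
          (by push_cast; linarith) (by linarith)
        have e2 : (r2 - i * s) - (r2 - ((i + 1 : ℕ) : ℝ) * s) = s := by push_cast; ring
        rw [e2] at hh
        have has : 0 ≤ 1 + a * s := by positivity
        calc H r2 * (1 + a * s) ^ (i + 1) = (H r2 * (1 + a * s) ^ i) * (1 + a * s) := by ring
          _ ≤ H (r2 - i * s) * (1 + a * s) := mul_le_mul_of_nonneg_right hi' has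
          _ ≤ _ := hh
    have h3 := step k le_rfl
    rw [hks] at h3
    have e3 : a * (r2 - r1) / k = a * s := by rw [hs]; ring
    rw [e3]
    have e4 : r2 - (r2 - r1) = r1 := by ring
    rwa [e4] at h3
  have hlim : Tendsto (fun k : ℕ => H r2 * (1 + a * (r2 - r1) / k) ^ k) atTop
      (𝓝 (H r2 * Real.exp (a * (r2 - r1)))) :=
    (Real.tendsto_one_add_div_pow_exp _).const_mul _
  exact le_of_tendsto hlim (by filter_upwards [eventually_ge_atTop 1] with k hk using key k hk)

theorem rt_exp_upper (H : ℝ → ℝ) (α β b : ℝ) (hb : 0 ≤ b)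
    (h : ∀ r1 r2, α ≤ r1 → r1 ≤ r2 → r2 ≤ β → H r1 * (1 - b * (r2 - r1)) ≤ H r2)
    (r1 r2 : ℝ) (h1 : α ≤ r1) (h12 : r1 ≤ r2) (h2 : r2 ≤ β) :
    H r1 * Real.exp (-(b * (r2 - r1))) ≤ H r2 := by
  have key : ∀ k : ℕ, 1 ≤ k → b * (r2 - r1) ≤ k →
      H r1 * (1 + -(b * (r2 - r1)) / k) ^ k ≤ H r2 := by
    intro k hk hbk
    have hk0 : (0 : ℝ) < k := by exact_mod_cast hk
    set s := (r2 - r1) / k with hs
    have hs0 : 0 ≤ s := div_nonneg (by linarith) hk0.le
    have hks : k * s = r2 - r1 := by rw [hs]; field_simp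
    have hbs : 0 ≤ 1 - b * s := by
      have : b * s ≤ 1 := by
        rw [hs, mul_div_assoc', div_le_one hk0]; exact hbk
      linarith
    have step : ∀ i : ℕ, i ≤ k → H r1 * (1 - b * s) ^ i ≤ H (r1 + i * s) := by
      intro i
      induction i with
      | zero => intro _; simp
      | succ i ih =>
        intro hi
        have hi' := ih (by omega)
        have hik : ((i : ℝ) + 1) ≤ k := by exact_mod_cast hi
        have e1 : ((i : ℝ) + 1) * s ≤ k * s := mul_le_mul_of_nonneg_right hik hs0
        have e0 : 0 ≤ (i : ℝ) * s := by positivity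
        have hh := h (r1 + i * s) (r1 + ((i + 1 : ℕ) : ℝ) * s) (by linarith)
          (by push_cast; linarith) (by push_cast; linarith)
        have e2 : (r1 + ((i + 1 : ℕ) : ℝ) * s) - (r1 + i * s) = s := by push_cast; ring
        rw [e2] at hh
        calc H r1 * (1 - b * s) ^ (i + 1) = (H r1 * (1 - b * s) ^ i) * (1 - b * s) := by ring
          _ ≤ H (r1 + i * s) * (1 - b * s) := mul_le_mul_of_nonneg_right hi' hbs
          _ ≤ _ := hh
    have h3 := step k le_rfl
    rw [hks] at h3
    have e3 : 1 + -(b * (r2 - r1)) / k = 1 - b * s := by rw [hs]; ring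
    rw [e3]
    have e4 : r1 + (r2 - r1) = r2 := by ring
    rwa [e4] at h3
  have hlim : Tendsto (fun k : ℕ => H r1 * (1 + -(b * (r2 - r1)) / k) ^ k) atTop
      (𝓝 (H r1 * Real.exp (-(b * (r2 - r1))))) :=
    (Real.tendsto_one_add_div_pow_exp _).const_mul _
  obtain ⟨k0, hk0⟩ := exists_nat_ge (b * (r2 - r1))
  refine le_of_tendsto hlim ?_
  filter_upwards [eventually_ge_atTop 1, eventually_ge_atTop k0] with k hk hk'
  exact key k hk (hk0.trans (by exact_mod_cast hk'))

theorem rt_exp_le (x : ℝ) (h0 : 0 ≤ x) (h1 : x ≤ 1 / 2) : Real.exp x ≤ 1 + 2 * x := by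
  have h2 := Real.one_sub_le_exp_neg x
  have h3 : Real.exp x * (1 - x) ≤ 1 := by
    calc Real.exp x * (1 - x) ≤ Real.exp x * Real.exp (-x) :=
          mul_le_mul_of_nonneg_left h2 (Real.exp_pos x).le
      _ = 1 := by rw [← Real.exp_add]; simp
  have h4 : 1 ≤ (1 + 2 * x) * (1 - x) := by nlinarith
  have h5 : 0 < 1 - x := by linarith
  exact le_of_mul_le_mul_right (h3.trans h4) h5

theorem rt_one_sub (u : ℝ) (h0 : 0 ≤ u) (h1 : u ≤ 1 / 2) : Real.exp (-(2 * u)) ≤ 1 - u := by
  have h2 := Real.add_one_le_exp (2 * u)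
  have h5 : 0 < 1 - u := by linarith
  have h3 : 1 ≤ Real.exp (2 * u) * (1 - u) := by nlinarith
  have h4 : Real.exp (-(2 * u)) * (Real.exp (2 * u) * (1 - u)) = 1 - u := by
    rw [← mul_assoc, ← Real.exp_add]; simp
  calc Real.exp (-(2 * u)) = Real.exp (-(2 * u)) * 1 := by ring
    _ ≤ Real.exp (-(2 * u)) * (Real.exp (2 * u) * (1 - u)) :=
        mul_le_mul_of_nonneg_left h3 (Real.exp_pos _).le
    _ = 1 - u := h4

/-- The real analysis part. -/
theorem rt_core (H p : ℝ → ℝ) (S t X δ η ε x : ℝ) (hS : 0 < S) (hS1 : S ≤ 1) (ht : 0 < t)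
    (hX : 0 < X) (hδ0 : 0 < δ) (hδ : δ * (2 * (X + 1)) = η) (hη0 : 0 < η) (hη : η ≤ 1 / 8)
    (hηε : 8 * η * Real.exp X ≤ ε) (ht1 : 4 * X ^ 2 ≤ η * t ^ 2) (ht2 : 2 * X ≤ η * t ^ 2)
    (hH : ∀ r, 0 ≤ H r) (hp : ∀ r, 0 ≤ p r)
    (hd1 : ∀ r1 r2, r1 ≤ r2 → 0 < r1 → (r2 - r1) * p r2 ≤ H r1 - H r2)
    (hd2 : ∀ r1 r2, r1 ≤ r2 → 0 < r1 → H r1 - H r2 ≤ (r2 - r1) * p r1)
    (hreg : ∀ r, t - X * S / t ≤ r → r ≤ t + X * S / t → |S * p r - r * H r| ≤ δ * (r * H r))
    (hx : |x| ≤ X) :
    |p (t + x * S / t) - Real.exp (-x) * p t| ≤ ε * p t := by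
  have hX1 : 0 < X + 1 := by linarith
  have hδη : δ ≤ η / 2 := by
    have : δ * 2 ≤ δ * (2 * (X + 1)) := mul_le_mul_of_nonneg_left (by linarith) hδ0.le
    linarith
  have hXδ : X * δ ≤ η / 2 := by nlinarith
  have ht20 : 0 < t ^ 2 := by positivity
  -- u = X S / t^2
  set u := X * S / t ^ 2 with hu
  have hu0 : 0 < u := by positivity
  have huη : u ≤ η / 2 := by
    rw [hu, div_le_iff₀ ht20]
    nlinarith
  have hXu : X * (2 * u) ≤ η / 2 := by
    rw [hu]
    have : X * (2 * (X * S / t ^ 2)) = (2 * X ^ 2 * S) / t ^ 2 := by ring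
    rw [this, div_le_iff₀ ht20]
    nlinarith [mul_le_mul_of_nonneg_left hS1 (by positivity : (0 : ℝ) ≤ 2 * X ^ 2)]
  have hut : X * S / t = u * t := by rw [hu]; field_simp
  have hα : 0 < t - X * S / t := by rw [hut]; nlinarith
  set α := t - X * S / t with hαd
  set β := t + X * S / t with hβd
  have hαβ : α ≤ t ∧ t ≤ β := by
    constructor
    · rw [hαd, hut]; nlinarith
    · rw [hβd, hut]; nlinarith
  have hreg1 : ∀ r, α ≤ r → r ≤ β → S * p r ≤ (1 + δ) * (r * H r) := by
    intro r h1 h2
    have := (abs_le.mp (hreg r h1 h2)).2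
    linarith
  have hreg2 : ∀ r, α ≤ r → r ≤ β → (1 - δ) * (r * H r) ≤ S * p r := by
    intro r h1 h2
    have := (abs_le.mp (hreg r h1 h2)).1
    linarith
  have hδ1 : δ ≤ 1 / 16 := by linarith
  set a := (1 - δ) * α / S with ha
  set b := (1 + δ) * β / S with hb
  have ha0 : 0 ≤ a := by
    apply div_nonneg _ hS.le
    apply mul_nonneg (by linarith) hα.le
  have hb0 : 0 ≤ b := by
    apply div_nonneg _ hS.le
    apply mul_nonneg (by linarith) (by linarith [hαβ.1, hαβ.2])
  have hlow := rt_exp_lower H α β a ha0 (by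
    intro r1 r2 h1 h12 h2
    have h3 := hd1 r1 r2 h12 (hα.trans_le h1)
    have h4 := hreg2 r2 (h1.trans h12) h2
    have h5 : a * H r2 ≤ p r2 := by
      rw [ha, div_mul_eq_mul_div, div_le_iff₀ hS]
      have : (1 - δ) * α * H r2 ≤ (1 - δ) * (r2 * H r2) := by
        have h6 : α * H r2 ≤ r2 * H r2 := mul_le_mul_of_nonneg_right (h1.trans h12) (hH r2)
        rw [mul_assoc]
        exact mul_le_mul_of_nonneg_left h6 (by linarith)
      linarith
    have h7 : (r2 - r1) * (a * H r2) ≤ (r2 - r1) * p r2 :=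
      mul_le_mul_of_nonneg_left h5 (by linarith)
    linarith)
  have hupp := rt_exp_upper H α β b hb0 (by
    intro r1 r2 h1 h12 h2
    have h3 := hd2 r1 r2 h12 (hα.trans_le h1)
    have h4 := hreg1 r1 h1 (h12.trans h2)
    have h5 : p r1 ≤ b * H r1 := by
      rw [hb, div_mul_eq_mul_div, le_div_iff₀ hS]
      have : (1 + δ) * (r1 * H r1) ≤ (1 + δ) * β * H r1 := by
        have h6 : r1 * H r1 ≤ β * H r1 := mul_le_mul_of_nonneg_right (h12.trans h2) (hH r1)
        rw [mul_assoc]
        exact mul_le_mul_of_nonneg_left h6 (by linarith)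
      linarith
    have h7 : (r2 - r1) * p r1 ≤ (r2 - r1) * (b * H r1) :=
      mul_le_mul_of_nonneg_left h5 (by linarith)
    linarith)
  obtain ⟨hx1, hx2⟩ := abs_le.mp hx
  set y := x * S / t with hy
  have hyu : y = (x / X) * (X * S / t) := by rw [hy]; field_simp
  have hStpos : 0 < S / t := by positivity
  have hyle : y ≤ X * S / t := by
    rw [hy]
    exact div_le_div_of_nonneg_right (mul_le_mul_of_nonneg_right hx2 hS.le) ht.le
  have hyge : -(X * S / t) ≤ y := by
    rw [hy, ← neg_div]
    apply div_le_div_of_nonneg_right _ ht.le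
    nlinarith
  have hay : a * y = (1 - δ) * (1 - u) * x := by
    rw [ha, hy, hαd, hu]; field_simp
  have hby : b * y = (1 + δ) * (1 + u) * x := by
    rw [hb, hy, hβd, hu]; field_simp
  have hyt : t + y = t * (1 + x * S / t ^ 2) := by rw [hy]; field_simp
  -- the two sided bound for H
  have hHb : H (t + y) ≤ Real.exp (-x + η) * H t ∧ Real.exp (-x - η) * H t ≤ H (t + y) := by
    rcases le_total 0 x with hx0 | hx0
    · have hy0 : 0 ≤ y := by rw [hy]; positivity
      have e1 := hlow t (t + y) hαβ.1 (by linarith) (by linarith)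
      have e2 := hupp t (t + y) hαβ.1 (by linarith) (by linarith)
      have e3 : t + y - t = y := by ring
      rw [e3, hay] at e1
      rw [e3, hby] at e2
      constructor
      · have e4 : x - η ≤ (1 - δ) * (1 - u) * x := by
          have : (1 - δ) * (1 - u) * x = x - (δ + u) * x + δ * u * x := by ring
          rw [this]
          have h8 : (δ + u) * x ≤ (δ + u) * X := mul_le_mul_of_nonneg_left hx2 (by linarith)
          have h9 : 0 ≤ δ * u * x := by positivity
          linarith
        have e5 : H (t + y) * Real.exp (x - η) ≤ H t :=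
          (mul_le_mul_of_nonneg_left (Real.exp_le_exp.mpr e4) (hH _)).trans e1
        have e6 : H (t + y) = Real.exp (-x + η) * (H (t + y) * Real.exp (x - η)) := by
          have : Real.exp (-x + η) * Real.exp (x - η) = 1 := by
            rw [← Real.exp_add]; simp
          calc H (t + y) = H (t + y) * 1 := by ring
            _ = H (t + y) * (Real.exp (-x + η) * Real.exp (x - η)) := by rw [this]
            _ = _ := by ring
        rw [e6]
        exact mul_le_mul_of_nonneg_left e5 (Real.exp_pos _).le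
      · have e4 : -x - η ≤ -((1 + δ) * (1 + u) * x) := by
          have : (1 + δ) * (1 + u) * x = x + (δ + u + δ * u) * x := by ring
          rw [this]
          have h8 : (δ + u + δ * u) * x ≤ (δ + u + δ * u) * X :=
            mul_le_mul_of_nonneg_left hx2 (by positivity)
          have h10 : δ * u * X ≤ u * X := by
            apply mul_le_mul_of_nonneg_right _ hX.le
            calc δ * u ≤ 1 * u := mul_le_mul_of_nonneg_right (by linarith) hu0.le
              _ = u := one_mul u
          linarith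
        calc Real.exp (-x - η) * H t = H t * Real.exp (-x - η) := by ring
          _ ≤ H t * Real.exp (-((1 + δ) * (1 + u) * x)) :=
              mul_le_mul_of_nonneg_left (Real.exp_le_exp.mpr e4) (hH _)
          _ ≤ _ := e2
    · have hy0 : y ≤ 0 := by
        rw [hy]
        apply div_nonpos_of_nonpos_of_nonneg _ ht.le
        exact mul_nonpos_of_nonpos_of_nonneg hx0 hS.le
      have e1 := hlow (t + y) t (by linarith) (by linarith) hαβ.2
      have e2 := hupp (t + y) t (by linarith) (by linarith) hαβ.2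
      have e3 : t - (t + y) = -y := by ring
      have e3a : a * -y = -((1 - δ) * (1 - u) * x) := by rw [mul_neg, hay]
      have e3b : b * -y = -((1 + δ) * (1 + u) * x) := by rw [mul_neg, hby]
      rw [e3, e3a] at e1
      rw [e3, e3b] at e2
      constructor
      · have e4 : x - η ≤ - -((1 + δ) * (1 + u) * x) := by
          have : - -((1 + δ) * (1 + u) * x) = x - (δ + u + δ * u) * (-x) := by ring
          rw [this]
          have h8 : (δ + u + δ * u) * (-x) ≤ (δ + u + δ * u) * X :=
            mul_le_mul_of_nonneg_left (by linarith) (by positivity)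
          have h10 : δ * u * X ≤ u * X := by
            apply mul_le_mul_of_nonneg_right _ hX.le
            calc δ * u ≤ 1 * u := mul_le_mul_of_nonneg_right (by linarith) hu0.le
              _ = u := one_mul u
          linarith
        have e5 : H (t + y) * Real.exp (x - η) ≤ H t :=
          (mul_le_mul_of_nonneg_left (Real.exp_le_exp.mpr e4) (hH _)).trans e2
        have e6 : H (t + y) = Real.exp (-x + η) * (H (t + y) * Real.exp (x - η)) := by
          have : Real.exp (-x + η) * Real.exp (x - η) = 1 := by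
            rw [← Real.exp_add]; simp
          calc H (t + y) = H (t + y) * 1 := by ring
            _ = H (t + y) * (Real.exp (-x + η) * Real.exp (x - η)) := by rw [this]
            _ = _ := by ring
        rw [e6]
        exact mul_le_mul_of_nonneg_left e5 (Real.exp_pos _).le
      · have e4 : -x - η ≤ -((1 - δ) * (1 - u) * x) := by
          have : -((1 - δ) * (1 - u) * x) = -x - (δ + u) * (-x) + δ * u * (-x) := by ring
          rw [this]
          have h8 : (δ + u) * (-x) ≤ (δ + u) * X :=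
            mul_le_mul_of_nonneg_left (by linarith) (by linarith)
          have h9 : 0 ≤ δ * u * (-x) := mul_nonneg (by positivity) (by linarith)
          linarith
        calc Real.exp (-x - η) * H t = H t * Real.exp (-x - η) := by ring
          _ ≤ H t * Real.exp (-((1 - δ) * (1 - u) * x)) :=
              mul_le_mul_of_nonneg_left (Real.exp_le_exp.mpr e4) (hH _)
          _ ≤ _ := e1
  obtain ⟨hHu, hHl⟩ := hHb
  have hyin : α ≤ t + y ∧ t + y ≤ β := ⟨by linarith, by linarith⟩
  have hty : 0 < t + y := hα.trans_le hyin.1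
  -- factor bounds
  set v := x * S / t ^ 2 with hv
  have hv1 : v ≤ u := by
    rw [hv, hu]
    exact div_le_div_of_nonneg_right (mul_le_mul_of_nonneg_right hx2 hS.le) ht20.le
  have hv2 : -u ≤ v := by
    rw [hv, hu, ← neg_div]
    apply div_le_div_of_nonneg_right _ ht20.le
    nlinarith
  have f1 : 1 + δ ≤ Real.exp (η / 2) := by
    have := Real.add_one_le_exp (η / 2)
    linarith
  have f2 : 1 + v ≤ Real.exp (η / 2) := by
    have := Real.add_one_le_exp (η / 2)
    linarith
  have f3 : Real.exp (-η) ≤ 1 - δ := by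
    have h1 := rt_one_sub δ hδ0.le (by linarith)
    exact (Real.exp_le_exp.mpr (by linarith)).trans h1
  have f4 : Real.exp (-η) ≤ 1 + v := by
    have h1 := rt_one_sub u hu0.le (by linarith)
    exact (Real.exp_le_exp.mpr (by linarith)).trans (h1.trans (by linarith))
  have hpt0 := hp t
  have hHt0 := hH t
  have g1 := hreg1 t hαβ.1 hαβ.2
  have g2 := hreg2 t hαβ.1 hαβ.2
  have g3 := hreg1 (t + y) hyin.1 hyin.2
  have g4 := hreg2 (t + y) hyin.1 hyin.2
  -- upper bound
  have hup : p (t + y) ≤ Real.exp (-x) * Real.exp (3 * η) * p t := by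
    have s1 : S * p (t + y) ≤ Real.exp (η / 2) * ((t * Real.exp (η / 2)) *
        (Real.exp (-x + η) * H t)) := by
      refine g3.trans ?_
      apply mul_le_mul f1 _ (mul_nonneg hty.le (hH _)) (Real.exp_pos _).le
      apply mul_le_mul _ hHu (hH _) (by positivity)
      rw [hyt]
      exact mul_le_mul_of_nonneg_left f2 ht.le
    have s2 : t * H t ≤ Real.exp η * (S * p t) := by
      have h1 : Real.exp (-η) * (t * H t) ≤ S * p t :=
        (mul_le_mul_of_nonneg_right f3 (mul_nonneg ht.le hHt0)).trans g2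
      have h2 : t * H t = Real.exp η * (Real.exp (-η) * (t * H t)) := by
        rw [← mul_assoc, ← Real.exp_add]; simp
      rw [h2]
      exact mul_le_mul_of_nonneg_left h1 (Real.exp_pos _).le
    have s3 : Real.exp (η / 2) * ((t * Real.exp (η / 2)) * (Real.exp (-x + η) * H t)) =
        (Real.exp (-x) * Real.exp (2 * η)) * (t * H t) := by
      have : Real.exp (η / 2) * Real.exp (η / 2) * Real.exp (-x + η) =
          Real.exp (-x) * Real.exp (2 * η) := by
        rw [← Real.exp_add, ← Real.exp_add, ← Real.exp_add]; congr 1; ring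
      calc _ = (Real.exp (η / 2) * Real.exp (η / 2) * Real.exp (-x + η)) * (t * H t) := by ring
        _ = _ := by rw [this]
    rw [s3] at s1
    have s4 : S * p (t + y) ≤ (Real.exp (-x) * Real.exp (2 * η)) * (Real.exp η * (S * p t)) :=
      s1.trans (mul_le_mul_of_nonneg_left s2 (by positivity))
    have s5 : (Real.exp (-x) * Real.exp (2 * η)) * (Real.exp η * (S * p t)) =
        S * (Real.exp (-x) * Real.exp (3 * η) * p t) := by
      have : Real.exp (2 * η) * Real.exp η = Real.exp (3 * η) := by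
        rw [← Real.exp_add]; congr 1; ring
      rw [← this]; ring
    rw [s5] at s4
    exact le_of_mul_le_mul_left s4 hS
  have hlo : Real.exp (-x) * Real.exp (-(4 * η)) * p t ≤ p (t + y) := by
    have s1 : Real.exp (-η) * ((t * Real.exp (-η)) *
        (Real.exp (-x - η) * H t)) ≤ S * p (t + y) := by
      refine le_trans ?_ g4
      apply mul_le_mul f3 _ (by positivity) (by linarith)
      apply mul_le_mul _ hHl (by positivity) hty.le
      rw [hyt]
      exact mul_le_mul_of_nonneg_left f4 ht.le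
    have s2 : Real.exp (-η) * (S * p t) ≤ t * H t := by
      have h1 : S * p t ≤ Real.exp η * (t * H t) := by
        refine g1.trans (mul_le_mul_of_nonneg_right ?_ (mul_nonneg ht.le hHt0))
        exact f1.trans (Real.exp_le_exp.mpr (by linarith))
      have h2 : t * H t = Real.exp (-η) * (Real.exp η * (t * H t)) := by
        rw [← mul_assoc, ← Real.exp_add]; simp
      rw [h2]
      exact mul_le_mul_of_nonneg_left h1 (Real.exp_pos _).le
    have s3 : Real.exp (-η) * ((t * Real.exp (-η)) * (Real.exp (-x - η) * H t)) =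
        (Real.exp (-x) * Real.exp (-(3 * η))) * (t * H t) := by
      have : Real.exp (-η) * Real.exp (-η) * Real.exp (-x - η) =
          Real.exp (-x) * Real.exp (-(3 * η)) := by
        rw [← Real.exp_add, ← Real.exp_add, ← Real.exp_add]; congr 1; ring
      calc _ = (Real.exp (-η) * Real.exp (-η) * Real.exp (-x - η)) * (t * H t) := by ring
        _ = _ := by rw [this]
    rw [s3] at s1
    have s4 : (Real.exp (-x) * Real.exp (-(3 * η))) * (Real.exp (-η) * (S * p t)) ≤
        S * p (t + y) :=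
      (mul_le_mul_of_nonneg_left s2 (by positivity)).trans s1
    have s5 : (Real.exp (-x) * Real.exp (-(3 * η))) * (Real.exp (-η) * (S * p t)) =
        S * (Real.exp (-x) * Real.exp (-(4 * η)) * p t) := by
      have : Real.exp (-(3 * η)) * Real.exp (-η) = Real.exp (-(4 * η)) := by
        rw [← Real.exp_add]; congr 1; ring
      rw [← this]; ring
    rw [s5] at s4
    exact le_of_mul_le_mul_left s4 hS
  have hex : Real.exp (-x) ≤ Real.exp X := Real.exp_le_exp.mpr (by linarith)
  have k1 : Real.exp (3 * η) ≤ 1 + 6 * η := by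
    have := rt_exp_le (3 * η) (by linarith) (by linarith)
    linarith
  have k2 : 1 - 4 * η ≤ Real.exp (-(4 * η)) := by
    have := Real.one_sub_le_exp_neg (4 * η)
    linarith
  have hepos : 0 < Real.exp (-x) := Real.exp_pos _
  have m1 : Real.exp (-x) * Real.exp (3 * η) * p t ≤ Real.exp (-x) * (1 + 6 * η) * p t :=
    mul_le_mul_of_nonneg_right (mul_le_mul_of_nonneg_left k1 hepos.le) hpt0
  have m2 : Real.exp (-x) * (1 - 4 * η) * p t ≤ Real.exp (-x) * Real.exp (-(4 * η)) * p t :=
    mul_le_mul_of_nonneg_right (mul_le_mul_of_nonneg_left k2 hepos.le) hpt0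
  have m3 : Real.exp (-x) * (8 * η) ≤ ε := by
    have : Real.exp (-x) * (8 * η) ≤ Real.exp X * (8 * η) :=
      mul_le_mul_of_nonneg_right hex (by positivity)
    linarith
  have m4 : Real.exp (-x) * (8 * η) * p t ≤ ε * p t := mul_le_mul_of_nonneg_right m3 hpt0
  have m5 : 0 ≤ Real.exp (-x) * η * p t := by positivity
  rw [abs_le]
  constructor
  · linarith
  · linarith

/-- The excess moment and the tail function. -/
theorem rt_h1_diff (ι : Type) [Fintype ι] (Λ : (ι → ℝ) → ℝ) (hc : Continuous Λ)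
    (h0 : ∀ a, 0 ≤ Λ a) (hn : ∀ a, Λ a ≤ ‖a‖)
    (hint : Integrable (fun a : ι → ℝ => ‖a‖ ^ 2) (gm ι)) (r1 r2 : ℝ) (h12 : r1 ≤ r2)
    (hr : 0 < r1) :
    (r2 - r1) * tl Λ r2 ≤ h1 Λ r1 - h1 Λ r2 ∧ h1 Λ r1 - h1 Λ r2 ≤ (r2 - r1) * tl Λ r1 := by
  have hnorm : Integrable (fun a : ι → ℝ => 1 + ‖a‖ ^ 2) (gm ι) :=
    (integrable_const 1).add hint
  have hI : ∀ r, 0 < r → Integrable (fun a => max (Λ a - r) 0) (gm ι) := by
    intro r hr'
    refine hnorm.mono ((hc.sub continuous_const).max continuous_const).aestronglyMeasurable ?_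
    filter_upwards with a
    have h1 := hn a
    have h2 := h0 a
    have h3 := norm_nonneg a
    rw [Real.norm_of_nonneg (le_max_right _ _), Real.norm_of_nonneg (by positivity)]
    apply max_le
    · nlinarith [sq_nonneg (‖a‖ - 1)]
    · positivity
  have hms : ∀ r, MeasurableSet {a | r < Λ a} := fun r =>
    (isOpen_lt continuous_const hc).measurableSet
  have htl : ∀ r, (r2 - r1) * tl Λ r =
      ∫ a, ({a | r < Λ a}).indicator (fun _ => r2 - r1) a ∂(gm ι) := by
    intro r
    rw [integral_indicator_const _ (hms r), smul_eq_mul, mul_comm]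
    rfl
  have hIi : ∀ r, Integrable (({a | r < Λ a}).indicator (fun _ => r2 - r1)) (gm ι) := fun r =>
    (integrable_const _).indicator (hms r)
  have hr2 : 0 < r2 := hr.trans_le h12
  unfold h1
  rw [← integral_sub (hI r1 hr) (hI r2 hr2), htl, htl]
  constructor
  · apply integral_mono (hIi r2) ((hI r1 hr).sub (hI r2 hr2))
    intro a
    by_cases ha : r2 < Λ a
    · simp only [Set.indicator, Set.mem_ofPred_eq, ha, if_true, Pi.sub_apply]
      rw [max_eq_left (by linarith), max_eq_left (by linarith)]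
      linarith
    · simp only [Set.indicator, Set.mem_ofPred_eq, ha, if_false, Pi.sub_apply]
      rw [max_eq_right (a := Λ a - r2) (by linarith [not_lt.mp ha])]
      simp
  · apply integral_mono ((hI r1 hr).sub (hI r2 hr2)) (hIi r1)
    intro a
    by_cases ha : r1 < Λ a
    · simp only [Set.indicator, Set.mem_ofPred_eq, ha, if_true, Pi.sub_apply]
      rw [max_eq_left (a := Λ a - r1) (by linarith)]
      have := le_max_left (Λ a - r2) 0
      linarith
    · simp only [Set.indicator, Set.mem_ofPred_eq, ha, if_false, Pi.sub_apply]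
      rw [max_eq_right (a := Λ a - r1) (by linarith [not_lt.mp ha])]
      have := le_max_right (Λ a - r2) 0
      linarith

/-- S5. -/
theorem ratio (h : Regularity) (hg : SysGood) (hsup : GaussSup) : Ratio := by
  intro ε X hε hX
  set η : ℝ := min (1 / 8) (ε / (8 * Real.exp X)) with hη
  have hη0 : 0 < η := lt_min (by norm_num) (by positivity)
  have hη8 : η ≤ 1 / 8 := min_le_left _ _
  have hηε : 8 * η * Real.exp X ≤ ε := by
    have h1 : η ≤ ε / (8 * Real.exp X) := min_le_right _ _
    rw [le_div_iff₀ (by positivity)] at h1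
    linarith
  set δ : ℝ := η / (2 * (X + 1)) with hδ
  have hδ0 : 0 < δ := by positivity
  have hδη : δ * (2 * (X + 1)) = η := by rw [hδ]; field_simp
  obtain ⟨c, hc, n1, hn1⟩ := h δ hδ0
  refine ⟨min (c / 2) (1 / 2), lt_min (by positivity) (by norm_num), ?_⟩
  -- large n
  set M : ℝ := max (64 * (4 * X ^ 2 / η + 2 * X / η) + 64) (2 * (X + X ^ 2) / c) with hM
  have hlog : Tendsto (fun n : ℕ => Real.log (n : ℝ)) atTop atTop :=
    Real.tendsto_log_atTop.comp tendsto_natCast_atTop_atTop
  obtain ⟨n2, hn2⟩ := (hlog.eventually_ge_atTop M).exists_forall_of_atTop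
  refine ⟨max n1 (max n2 2), ?_⟩
  intro n hn K N ξ hreg t ht hrange x hx
  have hnn1 : n1 ≤ n := (le_max_left _ _).trans hn
  have hnn2 : n2 ≤ n := ((le_max_left _ _).trans (le_max_right _ _)).trans hn
  have hL := hn2 n hnn2
  have hL1 : 64 * (4 * X ^ 2 / η + 2 * X / η) + 64 ≤ Real.log n := (le_max_left _ _).trans hL
  have hL2 : 2 * (X + X ^ 2) / c ≤ Real.log n := (le_max_right _ _).trans hL
  have hlogpos : 0 < Real.log n := lt_of_lt_of_le (by positivity) hL1
  obtain ⟨hK, hKl, hB, hS64⟩ := hreg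
  obtain ⟨hgood, hcont, -, -, -, -, hS0', hS1⟩ := hg (Fin K) (EuclideanSpace ℂ (Fin N)) ξ hB
  set S := sig2 ξ with hS
  have hS0 : 0 < S := by linarith
  -- lower bound for t^2
  have hc1 : min (c / 2) (1 / 2 : ℝ) ≤ 1 / 2 := min_le_right _ _
  have hc2 : min (c / 2) (1 / 2 : ℝ) ≤ c / 2 := min_le_left _ _
  have hr := hrange
  unfold InRange at hr
  obtain ⟨hr1, hr2⟩ := abs_le.mp hr
  have ht2S : Real.log n / 2 ≤ t ^ 2 / (2 * S) := by
    have : min (c / 2) (1 / 2 : ℝ) * Real.log n ≤ 1 / 2 * Real.log n :=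
      mul_le_mul_of_nonneg_right hc1 hlogpos.le
    linarith
  have htlog : Real.log n / 64 ≤ t ^ 2 := by
    rw [le_div_iff₀ (by positivity)] at ht2S
    nlinarith
  have htbig : 4 * X ^ 2 / η + 2 * X / η ≤ t ^ 2 := by linarith
  have htone : 1 ≤ t ^ 2 := by
    have : 0 ≤ 4 * X ^ 2 / η + 2 * X / η := by positivity
    linarith
  have ht1 : 4 * X ^ 2 ≤ η * t ^ 2 := by
    have h1 : 4 * X ^ 2 / η ≤ t ^ 2 := by
      have : 0 ≤ 2 * X / η := by positivity
      linarith
    rw [div_le_iff₀ hη0] at h1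
    linarith
  have ht2 : 2 * X ≤ η * t ^ 2 := by
    have h1 : 2 * X / η ≤ t ^ 2 := by
      have : 0 ≤ 4 * X ^ 2 / η := by positivity
      linarith
    rw [div_le_iff₀ hη0] at h1
    linarith
  have ht16 : 16 * X ≤ t ^ 2 := by nlinarith
  have hLam0 : ∀ a, Lam ξ a ≤ ‖a‖ := by
    intro a
    have h1 := hgood.lip 0 a
    have h2 : Lam ξ 0 = 0 := by
      have := hgood.homog 0 0 le_rfl
      simpa using this
    rw [zero_add, h2, sub_zero] at h1
    exact (le_abs_self _).trans h1
  have hne : Nonempty (Fin K) := ⟨⟨0, by omega⟩⟩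
  have hint := (hsup (Fin K)).1
  have hdiff := rt_h1_diff (Fin K) (Lam ξ) hcont hgood.nonneg hLam0 hint
  refine rt_core (h1 (Lam ξ)) (tl (Lam ξ)) S t X δ η ε x hS0 hS1 ht hX hδ0 hδη hη0 hη8 hηε
    ht1 ht2 ?_ ?_ (fun r1 r2 h12 h0 => (hdiff r1 r2 h12 h0).1)
    (fun r1 r2 h12 h0 => (hdiff r1 r2 h12 h0).2) ?_ hx
  · intro r
    exact integral_nonneg (fun a => le_max_right _ _)
  · intro r
    exact measureReal_nonneg
  · intro r hr3 hr4
    have hXS : X * S / t * t = X * S := by field_simp
    have hXSle : X * S / t ≤ t / 2 := by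
      rw [div_le_iff₀ ht]
      nlinarith
    have hrpos : 0 < r := by linarith
    apply hn1 n hnn1 K N ξ ⟨hK, hKl, hB, hS64⟩ r hrpos
    unfold InRange
    have hz : |r - t| ≤ X * S / t := by
      rw [abs_le]; constructor <;> linarith
    have hw0 : 0 ≤ X * S / t := by positivity
    have hsq : |r ^ 2 - t ^ 2| ≤ 2 * (X * S) + (X * S / t) ^ 2 := by
      have e1 : r ^ 2 - t ^ 2 = (r - t) * (2 * t + (r - t)) := by ring
      rw [e1, abs_mul]
      have e2 : |2 * t + (r - t)| ≤ 2 * t + X * S / t := by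
        calc |2 * t + (r - t)| ≤ |2 * t| + |r - t| := abs_add_le _ _
          _ ≤ 2 * t + X * S / t := by rw [abs_of_pos (by linarith : 0 < 2 * t)]; linarith
      calc |r - t| * |2 * t + (r - t)| ≤ (X * S / t) * (2 * t + X * S / t) :=
            mul_le_mul hz e2 (abs_nonneg _) hw0
        _ = 2 * (X * S / t * t) + (X * S / t) ^ 2 := by ring
        _ = _ := by rw [hXS]
    have hw2 : (X * S / t) ^ 2 ≤ X ^ 2 * S := by
      rw [div_pow, div_le_iff₀ (by positivity)]
      have e5 : (X * S) ^ 2 = X ^ 2 * S * S := by ring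
      rw [e5]
      exact mul_le_mul_of_nonneg_left (hS1.trans htone) (by positivity)
    have hfin : |r ^ 2 / (2 * S) - t ^ 2 / (2 * S)| ≤ X + X ^ 2 := by
      rw [← sub_div, abs_div, abs_of_pos (by positivity : 0 < 2 * S), div_le_iff₀ (by positivity)]
      nlinarith
    have hc3 : X + X ^ 2 ≤ c / 2 * Real.log n := by
      rw [div_le_iff₀ hc] at hL2
      linarith
    calc |r ^ 2 / (2 * S) - Real.log n|
        = |(r ^ 2 / (2 * S) - t ^ 2 / (2 * S)) + (t ^ 2 / (2 * S) - Real.log n)| := by ring_nf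
      _ ≤ |r ^ 2 / (2 * S) - t ^ 2 / (2 * S)| + |t ^ 2 / (2 * S) - Real.log n| :=
          abs_add_le _ _
      _ ≤ (c / 2 * Real.log n) + (c / 2 * Real.log n) := by
          apply add_le_add (hfin.trans hc3)
          exact hr.trans (mul_le_mul_of_nonneg_right hc2 hlogpos.le)
      _ = c * Real.log n := by ring

end Pool.Agent.Work.MP_3574a2_pr
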