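import Pool.Agent.Work.MP_3574a2_pr.Claims

set_option autoImplicit false

/-!
# MP_3574a2_pr : the hazard rate
-/

namespace Pool.Agent.Work.MP_3574a2_pr

open MeasureTheory ProbabilityTheory

/-! ## Excess moments -/

section moments

variable {ι : Type} [Fintype ι] {Λ : (ι → ℝ) → ℝ}

lemma reg_le_norm (hg : IsGood Λ) (a : ι → ℝ) : Λ a ≤ ‖a‖ := by
  have h0 : Λ 0 = 0 := by
    have := hg.homog 0 0 le_rfl
    simpa using this
  have h := hg.lip 0 a
  rw [zero_add, h0, sub_zero] at h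
  exact (le_abs_self _).trans h

lemma reg_int_norm (h2 : Integrable (fun a : ι → ℝ => ‖a‖ ^ 2) (gm ι)) :
    Integrable (fun a : ι → ℝ => ‖a‖) (gm ι) := by
  have h1 : Integrable (fun a : ι → ℝ => 1 + ‖a‖ ^ 2) (gm ι) := (integrable_const 1).add h2
  refine h1.mono' measurable_norm.aestronglyMeasurable ?_
  filter_upwards with a
  rw [Real.norm_eq_abs, abs_of_nonneg (norm_nonneg a)]
  nlinarith [sq_nonneg (‖a‖ - 1), norm_nonneg a]

lemma reg_int_exc (hg : IsGood Λ) (hc : Continuous Λ)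
    (h2 : Integrable (fun a : ι → ℝ => ‖a‖ ^ 2) (gm ι)) {r : ℝ} (hr : 0 ≤ r) :
    Integrable (fun a => max (Λ a - r) 0) (gm ι) := by
  refine (reg_int_norm h2).mono' ?_ ?_
  · exact ((hc.sub continuous_const).max continuous_const).aestronglyMeasurable
  · filter_upwards with a
    rw [Real.norm_eq_abs, abs_of_nonneg (le_max_right _ _)]
    refine max_le ?_ (norm_nonneg a)
    linarith [reg_le_norm hg a]

lemma reg_meas (hc : Continuous Λ) (r : ℝ) : MeasurableSet {a | r < Λ a} :=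
  (isOpen_lt continuous_const hc).measurableSet

lemma reg_int_ind (hc : Continuous Λ) (r x : ℝ) :
    Integrable (fun a => ({a | r < Λ a}).indicator (fun _ => x) a) (gm ι) :=
  (integrable_const x).indicator (reg_meas hc r)

lemma reg_ind (hc : Continuous Λ) (r x : ℝ) :
    ∫ a, ({a | r < Λ a}).indicator (fun _ => x) a ∂(gm ι) = x * tl Λ r := by
  rw [integral_indicator_const _ (reg_meas hc r), smul_eq_mul, mul_comm]
  rfl

lemma reg_h1_nonneg (r : ℝ) : 0 ≤ h1 Λ r := integral_nonneg fun _ => le_max_right _ _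

lemma reg_h2_nonneg (r : ℝ) : 0 ≤ h2 Λ r := integral_nonneg fun _ => sq_nonneg _

lemma reg_tl_nonneg (r : ℝ) : 0 ≤ tl Λ r := measureReal_nonneg

lemma reg_tl_anti {r r' : ℝ} (h : r ≤ r') : tl Λ r' ≤ tl Λ r :=
  measureReal_mono (fun _ ha => lt_of_le_of_lt h ha)

/-- `H(r) ≤ H(r') + (r' - r) p(r)` -/
lemma reg_h1_le (hg : IsGood Λ) (hc : Continuous Λ)
    (h2 : Integrable (fun a : ι → ℝ => ‖a‖ ^ 2) (gm ι)) {r r' : ℝ} (hr : 0 ≤ r) (h : r ≤ r') :
    h1 Λ r ≤ h1 Λ r' + (r' - r) * tl Λ r := by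
  unfold h1
  rw [← reg_ind hc r (r' - r), ← integral_add (reg_int_exc hg hc h2 (hr.trans h))
    (reg_int_ind hc r _)]
  refine integral_mono (reg_int_exc hg hc h2 hr)
    ((reg_int_exc hg hc h2 (hr.trans h)).add (reg_int_ind hc r _)) ?_
  intro a
  show max (Λ a - r) 0 ≤ max (Λ a - r') 0 + ({a | r < Λ a}).indicator (fun _ => r' - r) a
  by_cases ha : r < Λ a
  · rw [Set.indicator_of_mem (show a ∈ {a | r < Λ a} from ha)]
    rw [max_eq_left (by linarith)]
    linarith [le_max_left (Λ a - r') 0]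
  · rw [Set.indicator_of_notMem (show a ∉ {a | r < Λ a} from ha), add_zero]
    rw [max_eq_right (by linarith)]
    exact le_max_right _ _

/-- `(r' - r) p(r') ≤ H(r)` -/
lemma reg_tl_le (hg : IsGood Λ) (hc : Continuous Λ)
    (h2 : Integrable (fun a : ι → ℝ => ‖a‖ ^ 2) (gm ι)) {r r' : ℝ} (hr : 0 ≤ r) :
    (r' - r) * tl Λ r' ≤ h1 Λ r := by
  unfold h1
  rw [← reg_ind hc r' (r' - r)]
  refine integral_mono (reg_int_ind hc r' _) (reg_int_exc hg hc h2 hr) ?_
  intro a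
  show ({a | r' < Λ a}).indicator (fun _ => r' - r) a ≤ max (Λ a - r) 0
  by_cases ha : r' < Λ a
  · rw [Set.indicator_of_mem (show a ∈ {a | r' < Λ a} from ha)]
    exact le_max_of_le_left (by linarith)
  · rw [Set.indicator_of_notMem (show a ∉ {a | r' < Λ a} from ha)]
    exact le_max_right _ _

/-- `Q(r) ≤ d H(r) + T² p(r + d) + η(T)` -/
lemma reg_h2_le (hg : IsGood Λ) (hc : Continuous Λ)
    (hi : Integrable (fun a : ι → ℝ => ‖a‖ ^ 2) (gm ι)) {r d T : ℝ} (hr : 0 ≤ r) (hd : 0 ≤ d)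
    (hT : 0 ≤ T) :
    h2 Λ r ≤ d * h1 Λ r + T ^ 2 * tl Λ (r + d) + eta ι T := by
  have hms : MeasurableSet {a : ι → ℝ | T < ‖a‖} :=
    (isOpen_lt continuous_const continuous_norm).measurableSet
  have e1 : h2 Λ r = ∫ a, (max (Λ a - r) 0) ^ 2 ∂(gm ι) := rfl
  have e2 : d * h1 Λ r = ∫ a, d * max (Λ a - r) 0 ∂(gm ι) := by
    unfold h1; rw [integral_const_mul]
  have e3 : eta ι T = ∫ a, ({a : ι → ℝ | T < ‖a‖}).indicator (fun a => ‖a‖ ^ 2) a ∂(gm ι) := by
    unfold eta; rw [integral_indicator hms]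
  have i2 : Integrable (fun a => d * max (Λ a - r) 0) (gm ι) :=
    (reg_int_exc hg hc hi hr).const_mul d
  have i3 : Integrable (fun a => ({a | r + d < Λ a}).indicator (fun _ => T ^ 2) a) (gm ι) :=
    reg_int_ind hc _ _
  have i4 : Integrable (fun a => ({a : ι → ℝ | T < ‖a‖}).indicator (fun a => ‖a‖ ^ 2) a) (gm ι) :=
    hi.indicator hms
  have i1 : Integrable (fun a => (max (Λ a - r) 0) ^ 2) (gm ι) := by
    refine hi.mono' ?_ ?_
    · exact (((hc.sub continuous_const).max continuous_const).pow 2).aestronglyMeasurable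
    · filter_upwards with a
      rw [Real.norm_eq_abs, abs_of_nonneg (sq_nonneg _)]
      refine pow_le_pow_left₀ (le_max_right _ _) ?_ 2
      exact max_le (by linarith [reg_le_norm hg a]) (norm_nonneg a)
  have i23 : Integrable (fun a => d * max (Λ a - r) 0 +
      ({a | r + d < Λ a}).indicator (fun _ => T ^ 2) a) (gm ι) := i2.add i3
  rw [e1, e2, e3, ← reg_ind hc (r + d) (T ^ 2), ← integral_add i2 i3, ← integral_add i23 i4]
  refine integral_mono i1 (i23.add i4) ?_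
  intro a
  show (max (Λ a - r) 0) ^ 2 ≤ d * max (Λ a - r) 0 +
    ({a | r + d < Λ a}).indicator (fun _ => T ^ 2) a +
    ({a : ι → ℝ | T < ‖a‖}).indicator (fun a => ‖a‖ ^ 2) a
  have hn := reg_le_norm hg a
  have hm0 : 0 ≤ max (Λ a - r) 0 := le_max_right _ _
  have hp1 : 0 ≤ ({a | r + d < Λ a}).indicator (fun _ => T ^ 2) a :=
    Set.indicator_nonneg (fun _ _ => sq_nonneg T) _
  have hp2 : 0 ≤ ({a : ι → ℝ | T < ‖a‖}).indicator (fun a => ‖a‖ ^ 2) a :=
    Set.indicator_nonneg (fun _ _ => sq_nonneg _) _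
  by_cases ha : r + d < Λ a
  · by_cases hb : T < ‖a‖
    · rw [Set.indicator_of_mem (show a ∈ {a : ι → ℝ | T < ‖a‖} from hb)]
      have : (max (Λ a - r) 0) ^ 2 ≤ ‖a‖ ^ 2 := by
        refine pow_le_pow_left₀ hm0 (max_le (by linarith) (norm_nonneg a)) 2
      have : 0 ≤ d * max (Λ a - r) 0 := mul_nonneg hd hm0
      linarith
    · rw [Set.indicator_of_mem (show a ∈ {a | r + d < Λ a} from ha)]
      have : (max (Λ a - r) 0) ^ 2 ≤ T ^ 2 := by
        refine pow_le_pow_left₀ hm0 (max_le (by linarith) hT) 2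
      have : 0 ≤ d * max (Λ a - r) 0 := mul_nonneg hd hm0
      linarith
  · have h3 : max (Λ a - r) 0 ≤ d := max_le (by linarith) hd
    have : (max (Λ a - r) 0) ^ 2 ≤ d * max (Λ a - r) 0 := by
      rw [pow_two]; exact mul_le_mul_of_nonneg_right h3 hm0
    linarith

lemma reg_locQuad_mono {Bad : Set (ι → ℝ)} {t0 t1 S ε g C : ℝ}
    (h : LocQuad Λ Bad t0 S ε g C) (h01 : t0 ≤ t1) : LocQuad Λ Bad t1 S ε g C :=
  fun a ha hta => h a ha (lt_of_le_of_lt h01 hta)

end moments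

/-! ## Real number bookkeeping -/

/-- the final algebra -/
lemma reg_final {ε S t h e p0 H0 Hm Hp Qm : ℝ} (hε : 0 < ε) (hε1 : ε ≤ 1 / 10)
    (hS : 1 / 64 ≤ S) (hS1 : S ≤ 1) (ht : 1 ≤ t)
    (hp0 : 0 ≤ p0) (hH0 : 0 ≤ H0) (he : 0 ≤ e)
    (f1 : ((1 - ε / 10) * S - ε / 100 * S) * (p0 - e) ≤ t * Hm + Qm)
    (f2 : (1 - ε / 100) * (t * Hp) ≤ (S + ε / 100 * S) * p0 + ε / 100 * t * Hp + e)
    (f3 : Hm ≤ (1 + ε / 100) * H0) (f4 : Qm ≤ ε / 20 * t * Hm + ε / 100 * (t * H0))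
    (f5 : H0 ≤ Hp + h * p0) (f6 : t * h ≤ ε / 100 * S) (f7 : e ≤ ε / 100 * (t * H0)) :
    |S * p0 - t * H0| ≤ ε * (t * H0) := by
  have hy : 0 ≤ t * H0 := by positivity
  have hx : 0 ≤ S * p0 := by positivity
  rw [abs_le]
  constructor
  · -- lower bound of `S p0`
    have g1 : t * H0 ≤ t * Hp + t * h * p0 := by nlinarith
    have g2 : t * h * p0 ≤ ε / 100 * (S * p0) := by nlinarith
    -- (1 - 2ν) t Hp ≤ (1+ν) x + e
    have g3 : (1 - 2 * (ε / 100)) * (t * Hp) ≤ (1 + ε / 100) * (S * p0) + e := by nlinarith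
    have g4 : (1 - 2 * (ε / 100)) * (t * H0) ≤
        (1 - 2 * (ε / 100)) * (t * Hp) + (1 - 2 * (ε / 100)) * (ε / 100 * (S * p0)) := by
      have : 0 ≤ 1 - 2 * (ε / 100) := by linarith
      nlinarith
    have g5 : (1 - 3 * (ε / 100)) * (t * H0) ≤ (1 + 2 * (ε / 100)) * (S * p0) := by
      nlinarith [mul_nonneg hε.le hx]
    nlinarith [mul_nonneg hε.le hy, mul_nonneg hε.le hx]
  · have g1 : t * Hm + Qm ≤ (1 + ε / 20) * (t * Hm) + ε / 100 * (t * H0) := by nlinarith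
    have g2 : t * Hm ≤ (1 + ε / 100) * (t * H0) := by nlinarith
    have g3 : (1 + ε / 20) * (t * Hm) ≤ (1 + ε / 20) * ((1 + ε / 100) * (t * H0)) :=
      mul_le_mul_of_nonneg_left g2 (by linarith)
    have g4 : (1 - 11 / 100 * ε) * (S * p0) ≤ (1 - 11 / 100 * ε) * (S * e) +
        ((1 + ε / 20) * ((1 + ε / 100) * (t * H0)) + ε / 100 * (t * H0)) := by nlinarith
    have g5 : (1 - 11 / 100 * ε) * (S * e) ≤ ε / 100 * (t * H0) := by
      have h1 : S * e ≤ e := by nlinarith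
      have h2 : 0 ≤ S * e := by positivity
      nlinarith
    have g6 : (1 - 11 / 100 * ε) * (S * p0) ≤ (1 + 9 / 100 * ε) * (t * H0) := by
      nlinarith [mul_nonneg hε.le hy, mul_nonneg (mul_nonneg hε.le hε.le) hy,
        mul_nonneg (mul_nonneg hε.le (by linarith : 0 ≤ 1 / 10 - ε)) hy]
    by_contra hcon
    push Not at hcon
    have : (1 + ε) * (t * H0) < S * p0 := by linarith
    have h3 : (1 - 11 / 100 * ε) * ((1 + ε) * (t * H0)) < (1 - 11 / 100 * ε) * (S * p0) :=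
      mul_lt_mul_of_pos_left this (by linarith)
    nlinarith [mul_nonneg hε.le hy, mul_nonneg (mul_nonneg hε.le (by linarith : 0 ≤ 1 / 10 - ε)) hy]


/-- the parameters: `R = √(log n)`, `L = log n` -/
structure RegPar (c L R : ℝ) (k : ℕ) : Prop where
  cpos : 0 < c
  cle : c ≤ 1 / 100000
  Rpos : 0 < R
  LR : L = R ^ 2
  big : 3 * k + 10000 ≤ c * R
  kbig : 1 / (k : ℝ) ≤ c / 64
  k1 : 1 ≤ k
  poly : 100 * L ^ 4 ≤ Real.exp (c * L)

lemma reg_exists_par {c : ℝ} (hc : 0 < c) (hc1 : c ≤ 1 / 100000) :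
    ∃ (k : ℕ) (n0 : ℕ), ∀ n : ℕ, n0 ≤ n →
      RegPar c (Real.log n) (Real.sqrt (Real.log n)) k := by
  obtain ⟨k, hk⟩ := exists_nat_gt (64 / c)
  have hk0 : (0 : ℝ) < k := lt_trans (by positivity) hk
  have hk1 : 1 ≤ k := by exact_mod_cast hk0
  set X : ℝ := max (((3 * k + 10000) / c) ^ 2) (12000 / c ^ 5) with hX
  obtain ⟨n0, hn0⟩ := exists_nat_gt (Real.exp X)
  refine ⟨k, n0, fun n hn => ?_⟩
  have hXpos : 0 < X := lt_of_lt_of_le (by positivity) (le_max_right _ _)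
  have hnX : Real.exp X < n := lt_of_lt_of_le hn0 (by exact_mod_cast hn)
  have hL : X ≤ Real.log n := by
    rw [← Real.log_exp X]
    exact Real.log_le_log (Real.exp_pos X) hnX.le
  have hLpos : 0 < Real.log n := lt_of_lt_of_le hXpos hL
  refine ⟨hc, hc1, Real.sqrt_pos.2 hLpos, (Real.sq_sqrt hLpos.le).symm, ?_, ?_, hk1, ?_⟩
  · have h1 : ((3 * k + 10000) / c) ^ 2 ≤ Real.log n := le_trans (le_max_left _ _) hL
    have h2 : (3 * k + 10000) / c ≤ Real.sqrt (Real.log n) := Real.le_sqrt_of_sq_le h1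
    rw [div_le_iff₀ hc] at h2
    linarith
  · rw [div_le_div_iff₀ hk0 (by norm_num)]
    rw [div_lt_iff₀ hc] at hk
    linarith
  · set L := Real.log n with hLdef
    have h1 : 12000 / c ^ 5 ≤ L := le_trans (le_max_right _ _) hL
    have h2 := Real.pow_div_factorial_le_exp (c * L) (by positivity) 5
    have h3 : (c * L) ^ 5 / (Nat.factorial 5 : ℕ) = (c ^ 5 * L) * L ^ 4 / 120 := by
      norm_num [Nat.factorial]; ring
    rw [h3] at h2
    have h4 : 12000 ≤ c ^ 5 * L := by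
      rw [div_le_iff₀ (by positivity)] at h1
      linarith
    have h5 : 0 ≤ L ^ 4 := by positivity
    nlinarith

section par

variable {c L R : ℝ} {k : ℕ}

lemma RegPar.R_large (h : RegPar c L R k) : 1000000000 ≤ R := by
  have h1 := h.big
  have h2 := h.cle
  have h3 := h.Rpos
  have h4 : (0 : ℝ) ≤ k := Nat.cast_nonneg k
  nlinarith

lemma RegPar.L_large (h : RegPar c L R k) : 1000000000 * R ≤ L := by
  have := h.R_large
  rw [h.LR]
  nlinarith [h.Rpos]

lemma RegPar.L_big (h : RegPar c L R k) : 1000000000 ≤ L := by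
  have := h.R_large
  have := h.L_large
  nlinarith

lemma RegPar.L_pos (h : RegPar c L R k) : 0 < L := by
  have := h.L_big
  linarith

lemma RegPar.cL (h : RegPar c L R k) : 10000 * R ≤ c * L := by
  have h1 := h.big
  have h3 := h.Rpos
  have h4 : (0 : ℝ) ≤ k := Nat.cast_nonneg k
  rw [h.LR]
  nlinarith

/-- the combinatorial factor -/
lemma RegPar.card (h : RegPar c L R k) {K : ℕ} (hK : 1 ≤ K) (hKR : Real.log K ≤ 2 * R) :
    ((K : ℝ) + 1) ^ k ≤ Real.exp (c * L) := by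
  have hK' : (1 : ℝ) ≤ K := by exact_mod_cast hK
  have h1 : (K : ℝ) ≤ Real.exp (2 * R) := by
    rw [← Real.log_le_iff_le_exp (by linarith)]
    exact hKR
  have h2 : (K : ℝ) + 1 ≤ Real.exp (2 * R + 1) := by
    rw [Real.exp_add]
    have h3 : (2 : ℝ) ≤ Real.exp 1 := by have := Real.add_one_le_exp (1 : ℝ); linarith
    have h4 := Real.exp_pos (2 * R)
    nlinarith
  calc ((K : ℝ) + 1) ^ k ≤ (Real.exp (2 * R + 1)) ^ k :=
        pow_le_pow_left₀ (by linarith) h2 k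
    _ = Real.exp (k * (2 * R + 1)) := by rw [← Real.exp_nat_mul]
    _ ≤ Real.exp (c * L) := by
        apply Real.exp_le_exp.2
        have h5 := h.big
        have h6 := h.R_large
        have h4 : (0 : ℝ) ≤ k := Nat.cast_nonneg k
        rw [h.LR]
        nlinarith

/-- `x² / (2 (S + 1/k))` against `x² / (2 S)` -/
lemma RegPar.expo (h : RegPar c L R k) {S x : ℝ} (hS : 1 / 64 ≤ S) :
    (1 - c) * (x ^ 2 / (2 * S)) ≤ x ^ 2 / (2 * (S + 1 / k)) := by
  have hk := h.kbig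
  have hc := h.cpos
  have hk0 : (0 : ℝ) < k := by have := h.k1; exact_mod_cast this
  have hkS : 1 / (k : ℝ) ≤ c * S := by nlinarith
  have h1k : 0 < 1 / (k : ℝ) := by positivity
  have hS0 : 0 < S := by linarith
  have h1 : x ^ 2 / (2 * (S + c * S)) ≤ x ^ 2 / (2 * (S + 1 / k)) := by
    apply div_le_div_of_nonneg_left (sq_nonneg x) (by linarith) (by linarith)
  refine le_trans ?_ h1
  have h2 : 0 ≤ x ^ 2 / (2 * S) := by positivity
  have h3 : x ^ 2 / (2 * (S + c * S)) = (x ^ 2 / (2 * S)) / (1 + c) := by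
    field_simp
  rw [h3, le_div_iff₀ (by linarith)]
  nlinarith [mul_nonneg (mul_nonneg hc.le hc.le) h2]

lemma RegPar.tiny (h : RegPar c L R k) : L ^ 3 * Real.exp (-(c * L)) ≤ c / 1000000 := by
  have h1 := h.poly
  have h2 := h.cL
  have h3 := h.R_large
  have h4 := h.L_pos
  have hc := h.cpos
  rw [Real.exp_neg]
  have h5 : L ^ 3 * (Real.exp (c * L))⁻¹ ≤ L ^ 3 * (100 * L ^ 4)⁻¹ :=
    mul_le_mul_of_nonneg_left (inv_anti₀ (by positivity) h1) (by positivity)
  refine h5.trans ?_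
  have h6 : L ^ 3 * (100 * L ^ 4)⁻¹ = 1 / (100 * L) := by field_simp
  rw [h6, div_le_div_iff₀ (by positivity) (by norm_num)]
  nlinarith

lemma RegPar.tiny0 (h : RegPar c L R k) : Real.exp (-(c * L)) ≤ c / 1000000 := by
  refine le_trans ?_ h.tiny
  have h1 : (1 : ℝ) ≤ L ^ 3 := one_le_pow₀ (by have := h.L_big; linarith)
  have := Real.exp_pos (-(c * L))
  nlinarith

lemma RegPar.tiny1 (h : RegPar c L R k) : L * Real.exp (-(c * L)) ≤ c / 1000000 := by
  refine le_trans ?_ h.tiny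
  have h0 := h.L_big
  have h1 : L ≤ L ^ 3 := by nlinarith [mul_pos h.L_pos h.L_pos]
  exact mul_le_mul_of_nonneg_right h1 (Real.exp_pos _).le

lemma RegPar.tiny2 (h : RegPar c L R k) : L ^ 2 * Real.exp (-(c * L)) ≤ c / 1000000 := by
  refine le_trans ?_ h.tiny
  have h0 := h.L_big
  have h1 : L ^ 2 ≤ L ^ 3 := by nlinarith [mul_pos h.L_pos h.L_pos]
  exact mul_le_mul_of_nonneg_right h1 (Real.exp_pos _).le

lemma RegPar.expc (h : RegPar c L R k) : 100 ≤ Real.exp (c * L) := by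
  refine le_trans ?_ h.poly
  have h0 := h.L_big
  have h1 : (1 : ℝ) ≤ L ^ 4 := one_le_pow₀ (by linarith)
  linarith

/-- the bounds on the level -/
lemma RegPar.level (h : RegPar c L R k) {S t : ℝ} (hS : 1 / 64 ≤ S) (hS1 : S ≤ 1) (ht : 0 < t)
    (hr : |t ^ 2 / (2 * S) - L| ≤ c * L) :
    R / 8 ≤ t ∧ t ≤ 2 * R ∧ (1 - 2 * c) * L ≤ (t - 1) ^ 2 / (2 * S) ∧
      t ^ 2 / (2 * S) ≤ (1 + c) * L := by
  have hc := h.cpos
  have hc1 := h.cle
  have hR := h.Rpos
  have hL := h.LR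
  have hLp := h.L_pos
  rw [abs_le] at hr
  set A := t ^ 2 / (2 * S) with hA
  have hS0 : 0 < S := by linarith
  have htA : t ^ 2 = 2 * S * A := by rw [hA]; field_simp
  have hA1 : (1 - c) * L ≤ A := by linarith [hr.1]
  have hA2 : A ≤ (1 + c) * L := by linarith [hr.2]
  have hA0 : 0 ≤ A := by positivity
  have h1 : R / 8 ≤ t := by
    have h2 : (R / 8) ^ 2 ≤ t ^ 2 := by
      rw [htA]
      have h3 : L / 2 ≤ A := by nlinarith
      nlinarith
    exact le_of_sq_le_sq h2 ht.le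
  have h2 : t ≤ 2 * R := by
    have h3 : t ^ 2 ≤ (2 * R) ^ 2 := by
      rw [htA]
      have h4 : A ≤ 2 * L := by nlinarith
      nlinarith
    exact le_of_sq_le_sq h3 (by linarith)
  refine ⟨h1, h2, ?_, hA2⟩
  have hk : (0 : ℝ) ≤ k := Nat.cast_nonneg k
  have hct : 2 ≤ c * t := by
    have h3 := h.big
    nlinarith
  have h4 : (1 - c) * t ^ 2 ≤ (t - 1) ^ 2 := by nlinarith
  have h5 : (1 - c) * A ≤ (t - 1) ^ 2 / (2 * S) := by
    rw [le_div_iff₀ (by linarith)]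
    nlinarith
  nlinarith [mul_pos hc hLp]

/-- upper bound of the tail -/
lemma RegPar.tl_up (h : RegPar c L R k) {K : ℕ} {Λ : (Fin K → ℝ) → ℝ} {S : ℝ}
    (hS : 1 / 64 ≤ S) (hK : 1 ≤ K) (hKR : Real.log K ≤ 2 * R)
    (hcr : ∀ (t : ℝ) (k : ℕ), 0 < t → 1 ≤ k →
      tl Λ t ≤ ((Fintype.card (Fin K) : ℝ) + 1) ^ k *
        Real.exp (-(t ^ 2) / (2 * (S + 1 / k))))
    {x y : ℝ} (hx : 0 < x) (hxy : (y + c) * L ≤ (1 - c) * (x ^ 2 / (2 * S))) :
    tl Λ x ≤ Real.exp (-(y * L)) := by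
  have h1 := hcr x k hx h.k1
  rw [Fintype.card_fin] at h1
  have h2 := h.card hK hKR
  have h3 := h.expo (x := x) hS
  calc tl Λ x ≤ ((K : ℝ) + 1) ^ k * Real.exp (-(x ^ 2) / (2 * (S + 1 / k))) := h1
    _ ≤ Real.exp (c * L) * Real.exp (-((y + c) * L)) := by
        refine mul_le_mul h2 ?_ (Real.exp_pos _).le (Real.exp_pos _).le
        apply Real.exp_le_exp.2
        rw [neg_div]
        linarith
    _ = Real.exp (-(y * L)) := by rw [← Real.exp_add]; ring_nf

/-- lower bound of the tail -/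
lemma RegPar.tl_low (h : RegPar c L R k) {K : ℕ} {Λ : (Fin K → ℝ) → ℝ} {S t : ℝ}
    (hS : 1 / 64 ≤ S) (ht : 0 < t) (ht2 : t ≤ 2 * R) (htA : t ^ 2 / (2 * S) ≤ (1 + c) * L)
    (hlow : (Real.sqrt (2 * Real.pi))⁻¹ * Real.exp (-(((t + 1) / Real.sqrt S + 1) ^ 2) / 2) ≤
      tl Λ (t + 1)) :
    Real.exp (-((1 + 3 * c) * L)) ≤ tl Λ (t + 1) := by
  refine le_trans ?_ hlow
  have hR := h.R_large
  have hcL := h.cL
  have hS0 : 0 < S := by linarith
  have hsq : 0 < Real.sqrt S := Real.sqrt_pos.2 hS0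
  have hsq8 : 1 / 8 ≤ Real.sqrt S := by
    apply Real.le_sqrt_of_sq_le
    norm_num
    linarith
  have h1 : Real.exp (-1) ≤ (Real.sqrt (2 * Real.pi))⁻¹ := by
    rw [Real.exp_neg]
    apply inv_anti₀ (Real.sqrt_pos.2 (by positivity))
    rw [Real.sqrt_le_left (Real.exp_pos 1).le]
    have h2 := Real.exp_one_gt_d9
    have h3 := Real.pi_lt_d2
    nlinarith
  set y := t / Real.sqrt S with hy
  have hy2 : y ^ 2 / 2 = t ^ 2 / (2 * S) := by
    rw [hy, div_pow, Real.sq_sqrt hS0.le]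
    field_simp
  have hy0 : 0 ≤ y := by positivity
  have hy16 : y ≤ 16 * R := by
    rw [hy, div_le_iff₀ hsq]
    nlinarith
  have h1S : 1 / Real.sqrt S ≤ 8 := by
    rw [div_le_iff₀ hsq]; linarith
  have hz : (t + 1) / Real.sqrt S + 1 ≤ y + 9 := by
    rw [add_div]
    linarith
  have hz0 : 0 ≤ (t + 1) / Real.sqrt S + 1 := by positivity
  have hz2 : ((t + 1) / Real.sqrt S + 1) ^ 2 ≤ (y + 9) ^ 2 := pow_le_pow_left₀ hz0 hz 2
  calc Real.exp (-((1 + 3 * c) * L))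
      ≤ Real.exp (-1 + -(((t + 1) / Real.sqrt S + 1) ^ 2) / 2) := by
        apply Real.exp_le_exp.2
        nlinarith
    _ = Real.exp (-1) * Real.exp (-(((t + 1) / Real.sqrt S + 1) ^ 2) / 2) := Real.exp_add _ _
    _ ≤ _ := mul_le_mul_of_nonneg_right h1 (Real.exp_pos _).le

/-- the exceptional set -/
lemma RegPar.bad (h : RegPar c L R k) {K : ℕ} {S t PB : ℝ}
    (hS : 1 / 64 ≤ S) (hK : 1 ≤ K) (hKR : Real.log K ≤ 2 * R)
    (htb : (1 - 2 * c) * L ≤ (t - 1) ^ 2 / (2 * S))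
    (hPB : PB ≤ ((Fintype.card (Fin K) : ℝ) + 1) ^ k *
        (Real.exp (-((t - 1) ^ 2) / (2 * ((1 - 1000 * c) * S + 1 / k))) +
          Real.exp (-((95 / 100 * (t - 1)) ^ 2) / (2 * (3 / 4 * S + 1 / k))))) :
    PB ≤ Real.exp (-((1 + 800 * c) * L)) := by
  have hk := h.kbig
  have hc := h.cpos
  have hc1 := h.cle
  have hL := h.L_pos
  have hk0 : (0 : ℝ) < k := by have := h.k1; exact_mod_cast this
  have hkS : 1 / (k : ℝ) ≤ c * S := by nlinarith
  have h1k : 0 < 1 / (k : ℝ) := by positivity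
  have hS0 : 0 < S := by linarith
  rw [Fintype.card_fin] at hPB
  set A := (t - 1) ^ 2 / (2 * S) with hA
  have hA0 : 0 ≤ A := by positivity
  have e1 : (1 + 900 * c) * L ≤ (t - 1) ^ 2 / (2 * ((1 - 1000 * c) * S + 1 / k)) := by
    have g1 : (t - 1) ^ 2 / (2 * S * (1 - 999 * c)) ≤
        (t - 1) ^ 2 / (2 * ((1 - 1000 * c) * S + 1 / k)) := by
      apply div_le_div_of_nonneg_left (sq_nonneg _)
      · nlinarith
      · nlinarith
    refine le_trans ?_ g1
    rw [← div_div, ← hA, le_div_iff₀ (by linarith)]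
    nlinarith [mul_pos hc hL, mul_pos (mul_pos hc hc) hL]
  have e2 : (1 + 900 * c) * L ≤ (95 / 100 * (t - 1)) ^ 2 / (2 * (3 / 4 * S + 1 / k)) := by
    have g1 : (95 / 100 * (t - 1)) ^ 2 / (2 * S * (76 / 100)) ≤
        (95 / 100 * (t - 1)) ^ 2 / (2 * (3 / 4 * S + 1 / k)) := by
      apply div_le_div_of_nonneg_left (sq_nonneg _)
      · linarith
      · nlinarith
    refine le_trans ?_ g1
    have g2 : (95 / 100 * (t - 1)) ^ 2 / (2 * S * (76 / 100)) = (95 / 100) ^ 2 * A / (76 / 100) := by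
      rw [hA]; field_simp
    rw [g2, le_div_iff₀ (by norm_num)]
    nlinarith [mul_pos hc hL]
  have f1 : Real.exp (-((t - 1) ^ 2) / (2 * ((1 - 1000 * c) * S + 1 / k))) ≤
      Real.exp (-((1 + 900 * c) * L)) := by
    apply Real.exp_le_exp.2
    rw [neg_div]; linarith
  have f2 : Real.exp (-((95 / 100 * (t - 1)) ^ 2) / (2 * (3 / 4 * S + 1 / k))) ≤
      Real.exp (-((1 + 900 * c) * L)) := by
    apply Real.exp_le_exp.2
    rw [neg_div]; linarith
  have h2 := h.card hK hKR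
  have h3 := h.expc
  calc PB ≤ _ := hPB
    _ ≤ Real.exp (c * L) * (Real.exp (-((1 + 900 * c) * L)) + Real.exp (-((1 + 900 * c) * L))) :=
        mul_le_mul h2 (add_le_add f1 f2) (by positivity) (Real.exp_pos _).le
    _ ≤ Real.exp (c * L) * (Real.exp (c * L) * Real.exp (-((1 + 900 * c) * L))) := by
        apply mul_le_mul_of_nonneg_left _ (Real.exp_pos _).le
        have := Real.exp_pos (-((1 + 900 * c) * L))
        nlinarith
    _ = Real.exp (c * L + (c * L + -((1 + 900 * c) * L))) := by rw [Real.exp_add, Real.exp_add]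
    _ ≤ Real.exp (-((1 + 800 * c) * L)) := by
        apply Real.exp_le_exp.2
        nlinarith [mul_pos hc hL]

lemma RegPar.eta_le (h : RegPar c L R k) {K : ℕ} {et : ℝ} (hK : 1 ≤ K)
    (hKR : Real.log K ≤ 2 * R)
    (het : et ≤ 16 * Fintype.card (Fin K) * Real.exp (-(L ^ 2) / 8)) :
    et ≤ Real.exp (-(3 * L)) := by
  rw [Fintype.card_fin] at het
  have hK' : (1 : ℝ) ≤ K := by exact_mod_cast hK
  have h1 : (K : ℝ) ≤ Real.exp (2 * R) := by
    rw [← Real.log_le_iff_le_exp (by linarith)]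
    exact hKR
  have h16 : (16 : ℝ) ≤ Real.exp 4 := by
    have h2 : (2 : ℝ) ≤ Real.exp 1 := by have := Real.add_one_le_exp (1 : ℝ); linarith
    have h3 : Real.exp 4 = Real.exp 1 ^ 4 := by rw [← Real.exp_nat_mul]; norm_num
    rw [h3]
    calc (16 : ℝ) = 2 ^ 4 := by norm_num
      _ ≤ _ := pow_le_pow_left₀ (by norm_num) h2 4
  have hL := h.L_big
  have hRL := h.L_large
  have hR := h.R_large
  calc et ≤ 16 * K * Real.exp (-(L ^ 2) / 8) := het
    _ ≤ Real.exp 4 * Real.exp (2 * R) * Real.exp (-(L ^ 2) / 8) := by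
        apply mul_le_mul_of_nonneg_right _ (Real.exp_pos _).le
        exact mul_le_mul h16 h1 (by linarith) (Real.exp_pos _).le
    _ = Real.exp (4 + 2 * R + -(L ^ 2) / 8) := by rw [Real.exp_add, Real.exp_add]
    _ ≤ Real.exp (-(3 * L)) := by
        apply Real.exp_le_exp.2
        nlinarith

lemma RegPar.mu_le (h : RegPar c L R k) {K : ℕ} {m : ℝ} (hK : 1 ≤ K)
    (hKR : Real.log K ≤ 2 * R) (hm : m ≤ 4 * Real.log (2 * Fintype.card (Fin K))) :
    m ≤ 12 * R := by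
  rw [Fintype.card_fin] at hm
  have hK' : (1 : ℝ) ≤ K := by exact_mod_cast hK
  rw [Real.log_mul (by norm_num) (by linarith)] at hm
  have h2 : Real.log 2 ≤ 1 := by
    have := Real.log_le_sub_one_of_pos (show (0 : ℝ) < 2 by norm_num)
    linarith
  have hR := h.R_large
  linarith

lemma RegPar.exp_small (_ : RegPar c L R k) {x : ℝ} (hx : c * L ≤ x) :
    Real.exp (-x) ≤ Real.exp (-(c * L)) := Real.exp_le_exp.2 (by linarith)

lemma RegPar.exp_small' (hp : RegPar c L R k) {m : ℝ} (hm : 1 ≤ m) :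
    Real.exp (-(m * c * L)) ≤ Real.exp (-(c * L)) := by
  apply hp.exp_small
  have := mul_pos hp.cpos hp.L_pos
  nlinarith

/-- the smoothing parameters -/
lemma RegPar.smooth (hp : RegPar c L R k) {s C t : ℝ} (ht1 : R / 8 ≤ t) (ht2 : t ≤ 2 * R)
    (hs : s = Real.exp (-(30 * c * L))) (hC : C = 2 / ((1 - 95 / 100) * (t - 1))) :
    0 < s ∧ s ≤ 1 ∧ s ^ 2 ≤ c / 1000000 ∧ s * L ≤ (1 - 95 / 100) * (t - 1) / 4 ∧ 0 ≤ C ∧
    C * (t - 1) = 40 ∧ 0 < 2 * s * L ∧ 2 * s * L ≤ c / 100000 ∧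
    2 * s * L * (C * L ^ 2 + L) ≤ c / 100000 ∧ s ^ 2 * (C * L ^ 2 + L) ^ 2 ≤ c / 100000 ∧
    t * (2 * s * L) ≤ c / 100000 ∧ 100000000 ≤ t ∧ 1000 ≤ c * t := by
  have hc := hp.cpos
  have hc1 := hp.cle
  have hRl := hp.R_large
  have hLb := hp.L_big
  have hLl := hp.L_large
  have hbig := hp.big
  have hk0 : (0 : ℝ) ≤ k := Nat.cast_nonneg k
  have hLp := hp.L_pos
  have hct : 1000 ≤ c * t := by
    have h1 : c * (R / 8) ≤ c * t := mul_le_mul_of_nonneg_left ht1 hc.le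
    linarith
  have ht100 : 100000000 ≤ t := by linarith
  have hs0 : 0 < s := by rw [hs]; exact Real.exp_pos _
  have hsE : s ≤ Real.exp (-(c * L)) := by
    rw [hs]; exact hp.exp_small' (by norm_num)
  have hsc : s ≤ c / 1000000 := hsE.trans hp.tiny0
  have hs1 : s ≤ 1 := by linarith
  have hsL1 : L * s ≤ c / 1000000 := (mul_le_mul_of_nonneg_left hsE hLp.le).trans hp.tiny1
  have hsL2 : L ^ 2 * s ≤ c / 1000000 :=
    (mul_le_mul_of_nonneg_left hsE (by positivity)).trans hp.tiny2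
  have hsL3 : L ^ 3 * s ≤ c / 1000000 :=
    (mul_le_mul_of_nonneg_left hsE (by positivity)).trans hp.tiny
  have ht0 : (t - 1) ≠ 0 := by linarith
  have hCt : C * (t - 1) = 40 := by
    rw [hC]; field_simp; norm_num
  have hC0 : 0 ≤ C := by
    rw [hC]; apply div_nonneg (by norm_num); apply mul_nonneg (by norm_num) (by linarith)
  have hC1 : C ≤ 1 := by
    by_contra hcon
    push Not at hcon
    have : 1 * (t - 1) < C * (t - 1) := mul_lt_mul_of_pos_right hcon (by linarith)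
    linarith
  have hc2L : C * L ^ 2 + L ≤ 2 * L ^ 2 := by
    have h1 : C * L ^ 2 ≤ 1 * L ^ 2 := mul_le_mul_of_nonneg_right hC1 (sq_nonneg L)
    have h2 : 1 * L ≤ L * L := mul_le_mul_of_nonneg_right (by linarith) hLp.le
    nlinarith
  have hc20 : 0 ≤ C * L ^ 2 + L := by positivity
  refine ⟨hs0, hs1, ?_, by linarith, hC0, hCt, by positivity, by linarith, ?_, ?_, ?_, ht100, hct⟩
  · nlinarith
  · have h1 : 2 * s * L * (C * L ^ 2 + L) ≤ 2 * s * L * (2 * L ^ 2) :=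
      mul_le_mul_of_nonneg_left hc2L (by positivity)
    have h2 : 2 * s * L * (2 * L ^ 2) = 4 * (L ^ 3 * s) := by ring
    linarith
  · have h1 : s * (C * L ^ 2 + L) ≤ 2 * (L ^ 2 * s) := by
      have := mul_le_mul_of_nonneg_left hc2L hs0.le
      linarith
    have h2 : 0 ≤ s * (C * L ^ 2 + L) := by positivity
    have h3 : s ^ 2 * (C * L ^ 2 + L) ^ 2 = (s * (C * L ^ 2 + L)) * (s * (C * L ^ 2 + L)) := by
      ring
    have h4 : s * (C * L ^ 2 + L) ≤ c / 100000 := by linarith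
    have h5 : s * (C * L ^ 2 + L) ≤ 1 := by linarith
    rw [h3]
    have h6 := mul_le_mul h4 h5 h2 (by positivity)
    linarith
  · have h1 : t ≤ L := by linarith
    have h2 : t * (2 * s * L) ≤ L * (2 * s * L) := mul_le_mul_of_nonneg_right h1 (by positivity)
    have h3 : L * (2 * s * L) = 2 * (L ^ 2 * s) := by ring
    linarith

/-- the error terms -/
lemma RegPar.errors (hp : RegPar c L R k) {s C t H0 e P et mu PB p1 p2 : ℝ} (ht1 : R / 8 ≤ t)
    (ht2 : t ≤ 2 * R) (hs : s = Real.exp (-(30 * c * L))) (hCt : C * (t - 1) = 40)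
    (hC0 : 0 ≤ C) (hs0 : 0 < s) (hs1 : s ≤ 1) (ht100 : 100000000 ≤ t) (hct : 1000 ≤ c * t)
    (he : e = Real.exp (-((1 + 700 * c) * L))) (hP : P = Real.exp (-((1 + 800 * c) * L)))
    (hH0 : Real.exp (-((1 + 3 * c) * L)) ≤ H0) (het0 : 0 ≤ et) (_ : 0 ≤ mu) (hPB0 : 0 ≤ PB)
    (het : et ≤ Real.exp (-(3 * L))) (hmu : mu ≤ 12 * R) (hPB : PB ≤ P)
    (hp1 : p1 ≤ Real.exp (-((1 - 4 * c) * L))) (hp2 : p2 ≤ Real.exp (-((1 + 500 * c) * L))) :
    PB + et ≤ e ∧ e ≤ 100 * c * (t * H0) ∧ 2 * s * L * p1 ≤ 100 * c * H0 ∧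
    L ^ 2 * p2 + et ≤ 100 * c * (t * H0) ∧
    2 / s * (1 + mu) * (L * PB + et) + 2 * (mu + L ^ 2) * PB + 4 * (1 + mu) * et ≤ e ∧
    2 * C * mu + 4 * et / s ≤ 100 * c * t ∧ et ≤ c / 1000000 := by
  have hc := hp.cpos
  have hc1 := hp.cle
  have hRl := hp.R_large
  have hLb := hp.L_big
  have hLl := hp.L_large
  have hLp := hp.L_pos
  have hcLp := mul_pos hc hLp
  have hcL1 : c * L ≤ 1 / 100000 * L := mul_le_mul_of_nonneg_right hc1 hLp.le
  have he0 : 0 < e := by rw [he]; exact Real.exp_pos _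
  have hP0 : 0 < P := by rw [hP]; exact Real.exp_pos _
  have hH0p : 0 < H0 := lt_of_lt_of_le (Real.exp_pos _) hH0
  have hE0 := hp.tiny0
  have hE1 := hp.tiny1
  have hE2 := hp.tiny2
  have hEp := Real.exp_pos (-(c * L))
  have hetc : et ≤ c / 1000000 := by
    refine het.trans (le_trans ?_ hE0)
    apply hp.exp_small; linarith
  have hetP : et ≤ P := by
    refine het.trans ?_
    rw [hP]; apply Real.exp_le_exp.2
    linarith
  have hPe : 2 * P ≤ e := by
    have h1 : P = Real.exp (-(100 * c * L)) * e := by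
      rw [hP, he, ← Real.exp_add]; ring_nf
    have h2 : Real.exp (-(100 * c * L)) ≤ Real.exp (-(c * L)) := hp.exp_small' (by norm_num)
    have h3 : Real.exp (-(100 * c * L)) ≤ 1 / 2 := by linarith
    have h4 := mul_le_mul_of_nonneg_right h3 he0.le
    rw [h1]
    linarith
  have hHt : c * H0 ≤ 100 * c * (t * H0) := by
    have h1 : 1 * (c * H0) ≤ (100 * t) * (c * H0) :=
      mul_le_mul_of_nonneg_right (by linarith) (by positivity)
    linarith
  have heH : e ≤ c * H0 := by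
    have h1' : e = Real.exp (-(697 * c * L)) * Real.exp (-((1 + 3 * c) * L)) := by
      rw [he, ← Real.exp_add]; ring_nf
    have h2 : Real.exp (-(697 * c * L)) ≤ Real.exp (-(c * L)) := hp.exp_small' (by norm_num)
    rw [h1']
    exact mul_le_mul (by linarith) hH0 (Real.exp_pos _).le hc.le
  refine ⟨by linarith, heH.trans hHt, ?_, ?_, ?_, ?_, hetc⟩
  · have h1 : 2 * s * L * Real.exp (-((1 - 4 * c) * L)) =
        2 * (L * Real.exp (-(23 * c * L))) * Real.exp (-((1 + 3 * c) * L)) := by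
      have : Real.exp (-(30 * c * L)) * Real.exp (-((1 - 4 * c) * L)) =
        Real.exp (-(23 * c * L)) * Real.exp (-((1 + 3 * c) * L)) := by
        rw [← Real.exp_add, ← Real.exp_add]; ring_nf
      rw [hs]
      linear_combination 2 * L * this
    have h2 : Real.exp (-(23 * c * L)) ≤ Real.exp (-(c * L)) := hp.exp_small' (by norm_num)
    have h3 : 2 * s * L * p1 ≤ 2 * s * L * Real.exp (-((1 - 4 * c) * L)) :=
      mul_le_mul_of_nonneg_left hp1 (by positivity)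
    have h4 : L * Real.exp (-(23 * c * L)) ≤ c / 1000000 :=
      (mul_le_mul_of_nonneg_left h2 hLp.le).trans hE1
    rw [h1] at h3
    refine h3.trans ?_
    have h5 : 2 * (L * Real.exp (-(23 * c * L))) ≤ 100 * c := by linarith
    exact mul_le_mul h5 hH0 (Real.exp_pos _).le (by positivity)
  · have h1 : L ^ 2 * Real.exp (-((1 + 500 * c) * L)) =
        (L ^ 2 * Real.exp (-(497 * c * L))) * Real.exp (-((1 + 3 * c) * L)) := by
      have : Real.exp (-((1 + 500 * c) * L)) =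
        Real.exp (-(497 * c * L)) * Real.exp (-((1 + 3 * c) * L)) := by
        rw [← Real.exp_add]; ring_nf
      rw [this]; ring
    have h2 : Real.exp (-(497 * c * L)) ≤ Real.exp (-(c * L)) := hp.exp_small' (by norm_num)
    have h3 : L ^ 2 * p2 ≤ L ^ 2 * Real.exp (-((1 + 500 * c) * L)) :=
      mul_le_mul_of_nonneg_left hp2 (by positivity)
    have h4 : L ^ 2 * Real.exp (-(497 * c * L)) ≤ c / 1000000 :=
      (mul_le_mul_of_nonneg_left h2 (by positivity)).trans hE2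
    rw [h1] at h3
    have h5 : L ^ 2 * p2 ≤ c / 1000000 * H0 :=
      h3.trans (mul_le_mul h4 hH0 (Real.exp_pos _).le (by positivity))
    have h6 : et ≤ c * H0 := by linarith
    have h7 : (2 : ℝ) * (c * H0) ≤ (100 * t) * (c * H0) :=
      mul_le_mul_of_nonneg_right (by linarith) (by positivity)
    have h8 : 0 ≤ c * H0 := by positivity
    linarith
  · have hmuL : mu ≤ L := by linarith
    have h1 : L * PB + et ≤ 2 * L * P := by
      have h1 : L * PB ≤ L * P := mul_le_mul_of_nonneg_left hPB hLp.le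
      have h2 : 1 * P ≤ L * P := mul_le_mul_of_nonneg_right (by linarith) hP0.le
      linarith
    have h1s : 1 ≤ 1 / s := by rw [le_div_iff₀ hs0]; linarith
    have h2 : 2 / s * (1 + mu) * (L * PB + et) ≤ (1 / s) * (8 * L ^ 2 * P) := by
      have g1 : (1 + mu) ≤ 2 * L := by linarith
      have g2 : (1 + mu) * (L * PB + et) ≤ (2 * L) * (2 * L * P) :=
        mul_le_mul g1 h1 (by positivity) (by positivity)
      have g3 : 2 / s * (1 + mu) * (L * PB + et) = (1 / s) * (2 * ((1 + mu) * (L * PB + et))) := by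
        ring
      rw [g3]
      apply mul_le_mul_of_nonneg_left _ (by positivity)
      linarith
    have h3 : 2 * (mu + L ^ 2) * PB ≤ (1 / s) * (4 * L ^ 2 * P) := by
      have g1 : mu + L ^ 2 ≤ 2 * L ^ 2 := by nlinarith
      have g2 : (mu + L ^ 2) * PB ≤ 2 * L ^ 2 * P := mul_le_mul g1 hPB hPB0 (by positivity)
      have g3 : 1 * (4 * L ^ 2 * P) ≤ (1 / s) * (4 * L ^ 2 * P) :=
        mul_le_mul_of_nonneg_right h1s (by positivity)
      linarith
    have h4 : 4 * (1 + mu) * et ≤ (1 / s) * (8 * L ^ 2 * P) := by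
      have g1 : (1 + mu) ≤ 2 * L ^ 2 := by nlinarith
      have g2 : (1 + mu) * et ≤ (2 * L ^ 2) * P := mul_le_mul g1 hetP het0 (by positivity)
      have g3 : 1 * (8 * L ^ 2 * P) ≤ (1 / s) * (8 * L ^ 2 * P) :=
        mul_le_mul_of_nonneg_right h1s (by positivity)
      linarith
    have h5 : (1 / s) * (20 * L ^ 2 * P) ≤ e := by
      have g1 : 1 / s = Real.exp (30 * c * L) := by
        rw [hs, Real.exp_neg]; simp
      have g2 : 20 * L ^ 2 ≤ Real.exp (c * L) := by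
        refine le_trans ?_ hp.poly
        have g3 : L ^ 2 ≤ L ^ 4 := pow_le_pow_right₀ (by linarith) (by norm_num)
        have g4 : 0 ≤ L ^ 2 := sq_nonneg L
        linarith
      rw [g1]
      calc Real.exp (30 * c * L) * (20 * L ^ 2 * P) ≤
          Real.exp (30 * c * L) * (Real.exp (c * L) * P) := by
            apply mul_le_mul_of_nonneg_left _ (Real.exp_pos _).le
            exact mul_le_mul_of_nonneg_right g2 hP0.le
        _ = Real.exp (30 * c * L + (c * L + -((1 + 800 * c) * L))) := by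
            rw [hP, Real.exp_add, Real.exp_add]
        _ ≤ e := by
            rw [he]; apply Real.exp_le_exp.2
            linarith
    linarith
  · have h1 : 2 * C * mu ≤ 16000 := by
      have g1 : mu ≤ 96 * t := by linarith
      have g2 : mu ≤ 200 * (t - 1) := by linarith
      have g3 : C * mu ≤ C * (200 * (t - 1)) := mul_le_mul_of_nonneg_left g2 hC0
      have g4 : C * (200 * (t - 1)) = 200 * (C * (t - 1)) := by ring
      rw [g4, hCt] at g3
      linarith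
    have h2 : 4 * et / s ≤ 4 := by
      rw [div_le_iff₀ hs0]
      have : et ≤ s := by
        refine het.trans ?_
        rw [hs]; apply Real.exp_le_exp.2
        linarith
      linarith
    linarith

end par

/-- from the two inequalities for the excess moments to the hypotheses of `reg_final` -/
lemma reg_f1 {c S s et h c2 p0 e PB t Hm Qm A : ℝ} (hc : 0 < c) (hS : 1 / 64 ≤ S)
    (hA : A = (1 - 1000 * c) * S - s ^ 2 - et - h * c2) (hc1 : c ≤ 1 / 100000)
    (hs2 : s ^ 2 ≤ c / 1000000) (het : et ≤ c / 1000000) (hhc : h * c2 ≤ c / 100000)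
    (hPe : PB + et ≤ e) (hh0 : 0 ≤ h) (hHm : 0 ≤ Hm) (hQm : 0 ≤ Qm) (ht : 0 ≤ t)
    (hmain : A * (p0 - PB - et) ≤ (t - h) * Hm + Qm) :
    ((1 - 10000 * c / 10) * S - 10000 * c / 100 * S) * (p0 - e) ≤ t * Hm + Qm := by
  have h1 : (1 - 10000 * c / 10) * S - 10000 * c / 100 * S ≤ A := by
    rw [hA]; nlinarith
  have h2 : 0 ≤ (1 - 10000 * c / 10) * S - 10000 * c / 100 * S := by nlinarith
  have h3 : 0 ≤ t * Hm + Qm := by positivity
  have h4 : (t - h) * Hm ≤ t * Hm := mul_le_mul_of_nonneg_right (by linarith) hHm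
  rcases le_or_gt e p0 with hpe | hpe
  · have h5 : ((1 - 10000 * c / 10) * S - 10000 * c / 100 * S) * (p0 - e) ≤
        A * (p0 - PB - et) := mul_le_mul h1 (by linarith) (by linarith) (h2.trans h1)
    linarith
  · have h5 : ((1 - 10000 * c / 10) * S - 10000 * c / 100 * S) * (p0 - e) ≤ 0 :=
      mul_nonpos_of_nonneg_of_nonpos h2 (by linarith)
    linarith

lemma reg_f2 {c S s t h Hp Qp c2 p0 B e D : ℝ} (hc : 0 < c) (hS : 1 / 64 ≤ S)
    (hs2 : s ^ 2 ≤ c / 1000000) (hhc : h * c2 ≤ c / 100000)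
    (hsc : s ^ 2 * c2 ^ 2 ≤ c / 100000) (hh0 : 0 ≤ h) (hHp : 0 ≤ Hp) (hQp : 0 ≤ Qp)
    (hp0 : 0 ≤ p0) (ht : 0 ≤ t) (hc1 : c ≤ 1 / 100000) (hB : B ≤ 100 * c * t) (hD : D ≤ e)
    (hmain : (1 - s ^ 2) * ((t + h) * Hp + Qp) ≤
      (S + h * c2 + s ^ 2 * c2 ^ 2) * p0 + B * Hp + D) :
    (1 - 10000 * c / 100) * (t * Hp) ≤
      (S + 10000 * c / 100 * S) * p0 + 10000 * c / 100 * t * Hp + e := by
  have h1 : t * Hp ≤ (t + h) * Hp + Qp := by
    have := mul_nonneg hh0 hHp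
    linarith
  have h2 : (1 - 10000 * c / 100) * (t * Hp) ≤ (1 - s ^ 2) * ((t + h) * Hp + Qp) := by
    apply mul_le_mul (by linarith) h1 (by positivity) (by linarith)
  have h3 : (S + h * c2 + s ^ 2 * c2 ^ 2) * p0 ≤ (S + 10000 * c / 100 * S) * p0 := by
    apply mul_le_mul_of_nonneg_right _ hp0
    nlinarith
  have h4 : B * Hp ≤ 100 * c * t * Hp := mul_le_mul_of_nonneg_right hB hHp
  linarith

lemma reg_nn {c S s2 et x : ℝ} (hS : 1 / 64 ≤ S) (hc1 : c ≤ 1 / 100000)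
    (hs2 : s2 ≤ c / 1000000) (het : et ≤ c / 1000000) (hx : x ≤ c / 100000) :
    0 ≤ (1 - 1000 * c) * S - s2 - et - x := by
  have h1 : (99 / 100) * S ≤ (1 - 1000 * c) * S :=
    mul_le_mul_of_nonneg_right (by linarith) (by linarith)
  linarith

lemma reg_lvl1 {c L X : ℝ} (hc : 0 < c) (hc1 : c ≤ 1 / 100000) (hL : 0 < L)
    (hX : (1 - 2 * c) * L ≤ X) : (1 - 4 * c + c) * L ≤ (1 - c) * X := by
  have h1 := mul_le_mul_of_nonneg_left hX (by linarith : (0 : ℝ) ≤ 1 - c)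
  refine le_trans ?_ h1
  have g1 := mul_pos hc hL
  have g2 := mul_pos hc g1
  linarith

lemma reg_lvl2 {c L X : ℝ} (hc : 0 < c) (hc1 : c ≤ 1 / 100000) (hL : 0 < L)
    (hX : (1 - 2 * c) * L ≤ X) :
    (1 + 500 * c + c) * L ≤ (1 - c) * ((1 + 500 * c) ^ 2 * X) := by
  have g1 := mul_pos hc hL
  have g2 : c * (c * L) ≤ 1 / 100000 * (c * L) := mul_le_mul_of_nonneg_right hc1 g1.le
  have g3 := mul_pos hc g1
  have h2 : (1 + 1000 * c) * ((1 - 2 * c) * L) ≤ (1 + 500 * c) ^ 2 * X := by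
    apply mul_le_mul _ hX
    · apply mul_nonneg (by linarith) hL.le
    · positivity
    · nlinarith
  have h3 : (1 + 990 * c) * L ≤ (1 + 1000 * c) * ((1 - 2 * c) * L) := by
    linarith
  have h4 := mul_le_mul_of_nonneg_left (h3.trans h2) (by linarith : (0 : ℝ) ≤ 1 - c)
  refine le_trans ?_ h4
  linarith

theorem reg_core (hsup : GaussSup) (hL : SmoothLower) (hU : SmoothUpper) (hg : SysGood)
    (hloc : SysLoc) (hcr : SysCrude) {c L R : ℝ} {k K N : ℕ} (hp : RegPar c L R k)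
    (ξ : Fin K → EuclideanSpace ℂ (Fin N)) (hK : 1 ≤ K) (hKR : Real.log K ≤ 2 * R)
    (hB : Bessel ξ) (hS : 1 / 64 ≤ sig2 ξ) {t : ℝ} (ht : 0 < t)
    (hin : |t ^ 2 / (2 * sig2 ξ) - L| ≤ c * L) :
    |sig2 ξ * tl (Lam ξ) t - t * h1 (Lam ξ) t| ≤ (10000 * c) * (t * h1 (Lam ξ) t) := by
  obtain ⟨hgood, hcont, -, -, -, -, -, hS1⟩ := hg (Fin K) (EuclideanSpace ℂ (Fin N)) ξ hB
  obtain ⟨hcrU, hcrL⟩ := hcr (Fin K) (EuclideanSpace ℂ (Fin N)) ξ hB
  have hne : Nonempty (Fin K) := ⟨⟨0, hK⟩⟩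
  obtain ⟨hint, hmu, -, heta⟩ := hsup (Fin K)
  obtain ⟨ht1, ht2, htb, htA⟩ := hp.level hS hS1 ht hin
  have hc := hp.cpos
  have hc1 := hp.cle
  have hLp := hp.L_pos
  have hLb := hp.L_big
  have hS0 : 0 < sig2 ξ := by linarith
  have hct0 : 100000000 ≤ t := by have := hp.R_large; linarith
  -- the exceptional set
  obtain ⟨Bad, hBm, hBad, hLQ⟩ := hloc (Fin K) (EuclideanSpace ℂ (Fin N)) ξ (t - 1) (95 / 100)
    (1000 * c) k hB (by linarith) (by norm_num) (by norm_num) (by linarith) (by linarith) hp.k1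
  have hPB := hp.bad hS hK hKR htb hBad
  have het := hp.eta_le hK hKR (heta L hLp.le)
  have hmu' := hp.mu_le hK hKR hmu
  have hmu0 : 0 ≤ mu2 (Fin K) := integral_nonneg fun _ => sq_nonneg _
  have het0 : 0 ≤ eta (Fin K) L := integral_nonneg fun _ => sq_nonneg _
  have hPB0 : 0 ≤ (gm (Fin K)).real Bad := measureReal_nonneg
  obtain ⟨s, hs⟩ : ∃ s, s = Real.exp (-(30 * c * L)) := ⟨_, rfl⟩
  obtain ⟨C, hC⟩ : ∃ C : ℝ, C = 2 / ((1 - 95 / 100) * (t - 1)) := ⟨_, rfl⟩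
  rw [← hC] at hLQ
  obtain ⟨hs0, hs1, hs2, hsg, hC0, hCt, hh0, hhc, hhc2, hsc2, hth, ht100, hct⟩ :=
    hp.smooth ht1 ht2 hs hC
  obtain ⟨h, hh⟩ : ∃ h : ℝ, h = 2 * s * L := ⟨_, rfl⟩
  -- crude bounds
  have hp1 : tl (Lam ξ) (t - 1) ≤ Real.exp (-((1 - 4 * c) * L)) :=
    hp.tl_up hS hK hKR hcrU (by linarith) (reg_lvl1 hc hc1 hLp htb)
  have hp2 : tl (Lam ξ) ((1 + 500 * c) * (t - 1)) ≤ Real.exp (-((1 + 500 * c) * L)) :=
    hp.tl_up hS hK hKR hcrU (mul_pos (by linarith) (by linarith)) (by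
      have h1 : ((1 + 500 * c) * (t - 1)) ^ 2 / (2 * sig2 ξ) =
          (1 + 500 * c) ^ 2 * ((t - 1) ^ 2 / (2 * sig2 ξ)) := by ring
      rw [h1]
      exact reg_lvl2 hc hc1 hLp htb)
  have hH0 : Real.exp (-((1 + 3 * c) * L)) ≤ h1 (Lam ξ) t := by
    refine (hp.tl_low hS ht ht2 htA (hcrL (t + 1) (by linarith) hS0)).trans ?_
    have := reg_tl_le hgood hcont hint (r := t) (r' := t + 1) ht.le
    linarith
  have hH0p : 0 < h1 (Lam ξ) t := lt_of_lt_of_le (Real.exp_pos _) hH0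
  have htl0 : 0 ≤ tl (Lam ξ) t := reg_tl_nonneg t
  -- the error terms
  obtain ⟨e, he⟩ : ∃ e, e = Real.exp (-((1 + 700 * c) * L)) := ⟨_, rfl⟩
  obtain ⟨P, hP⟩ : ∃ P, P = Real.exp (-((1 + 800 * c) * L)) := ⟨_, rfl⟩
  rw [← hP] at hPB
  obtain ⟨g1, g2, g3, g4, g5, g6, g7⟩ := hp.errors ht1 ht2 hs hCt hC0 hs0 hs1 ht100 hct he hP hH0
    het0 hmu0 hPB0 het hmu' hPB hp1 hp2
  -- the two inequalities
  have hm1 := hL (Fin K) (Lam ξ) Bad (t - 2 * s * L) (sig2 ξ) (1000 * c)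
    ((1 - 95 / 100) * (t - 1) / 4) C s L hgood hBm hS0 hS1 (by linarith) (by linarith) hC0 hs0 hs1
    (by linarith) hsg (by linarith) (reg_locQuad_mono hLQ (by linarith))
    (reg_nn hS hc1 hs2 g7 hhc2)
  have hm2 := hU (Fin K) (Lam ξ) Bad (t + 2 * s * L) (sig2 ξ) (1000 * c)
    ((1 - 95 / 100) * (t - 1) / 4) C s L hgood hBm hS0 hS1 (by linarith) (by linarith) hC0 hs0 hs1
    (by linarith) hsg (by linarith) (by linarith) (reg_locQuad_mono hLQ (by linarith))
  rw [show t - 2 * s * L + 2 * s * L = t by ring] at hm1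
  rw [show t + 2 * s * L - 2 * s * L = t by ring] at hm2
  rw [← hh] at hm1 hm2 hth hhc2 g3 hh0 hhc
  have f1 := reg_f1 (p0 := tl (Lam ξ) t) (e := e) (t := t) hc hS rfl hc1 hs2 g7 hhc2 g1 hh0.le
    (reg_h1_nonneg (Λ := Lam ξ) (t - h)) (reg_h2_nonneg (Λ := Lam ξ) (t - h)) ht.le hm1
  have f2 := reg_f2 (e := e) (t := t) (h := h) hc hS hs2 hhc2 hsc2 hh0.le
    (reg_h1_nonneg (Λ := Lam ξ) (t + h)) (reg_h2_nonneg (Λ := Lam ξ) (t + h)) htl0 ht.le hc1 g6 g5
    (by linarith)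
  have hr : 0 ≤ t - h := by linarith
  refine reg_final (ε := 10000 * c) (S := sig2 ξ) (t := t) (h := h) (e := e)
    (p0 := tl (Lam ξ) t) (H0 := h1 (Lam ξ) t) (Hm := h1 (Lam ξ) (t - h))
    (Hp := h1 (Lam ξ) (t + h)) (Qm := h2 (Lam ξ) (t - h)) (by linarith) (by linarith) hS hS1
    (by linarith) htl0 hH0p.le (by rw [he]; exact (Real.exp_pos _).le) f1 f2 ?_ ?_ ?_ ?_ ?_
  · have h1' := reg_h1_le hgood hcont hint (r := t - h) (r' := t) hr (by linarith)
    have h2' : tl (Lam ξ) (t - h) ≤ tl (Lam ξ) (t - 1) := reg_tl_anti (by linarith)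
    have h3' : h * tl (Lam ξ) (t - h) ≤ h * tl (Lam ξ) (t - 1) :=
      mul_le_mul_of_nonneg_left h2' hh0.le
    have h4' : (t - (t - h)) * tl (Lam ξ) (t - h) = h * tl (Lam ξ) (t - h) := by ring
    rw [h4'] at h1'
    linarith
  · have h1' := reg_h2_le hgood hcont hint (r := t - h) (d := 500 * c * t) (T := L) hr
      (by positivity) hLp.le
    have h2' : tl (Lam ξ) (t - h + 500 * c * t) ≤ tl (Lam ξ) ((1 + 500 * c) * (t - 1)) := by
      apply reg_tl_anti
      linarith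
    have h3' : L ^ 2 * tl (Lam ξ) (t - h + 500 * c * t) ≤
        L ^ 2 * tl (Lam ξ) ((1 + 500 * c) * (t - 1)) :=
      mul_le_mul_of_nonneg_left h2' (sq_nonneg L)
    linarith
  · have h1' := reg_h1_le hgood hcont hint (r := t) (r' := t + h) ht.le (by linarith)
    have h4' : (t + h - t) * tl (Lam ξ) t = h * tl (Lam ξ) t := by ring
    rw [h4'] at h1'
    exact h1'
  · have h9 : 10000 * c / 100 * (1 / 64) ≤ 10000 * c / 100 * sig2 ξ :=
      mul_le_mul_of_nonneg_left hS (by linarith)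
    linarith
  · linarith

theorem regularity (hsup : GaussSup) (hL : SmoothLower) (hU : SmoothUpper) (hg : SysGood)
    (hloc : SysLoc) (hc : SysCrude) : Regularity := by
  intro ε hε
  obtain ⟨c, hcd⟩ : ∃ c, c = min (ε / 10000) (1 / 100000) := ⟨_, rfl⟩
  have hc0 : 0 < c := by rw [hcd]; exact lt_min (by positivity) (by norm_num)
  have hc1 : c ≤ 1 / 100000 := by rw [hcd]; exact min_le_right _ _
  have hce : c ≤ ε / 10000 := by rw [hcd]; exact min_le_left _ _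
  obtain ⟨k, n0, hn0⟩ := reg_exists_par hc0 hc1
  refine ⟨c, hc0, n0, fun n hn K N ξ hreg t ht hin => ?_⟩
  obtain ⟨hK, hKR, hB, hS⟩ := hreg
  have h := reg_core hsup hL hU hg hloc hc (hn0 n hn) ξ hK hKR hB hS ht hin
  refine h.trans ?_
  apply mul_le_mul_of_nonneg_right (by linarith)
  exact mul_nonneg ht.le (reg_h1_nonneg t)

end Pool.Agent.Work.MP_3574a2_pr
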