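import Pool.Agent.Work.MP_3574a2_pr.Claims

set_option autoImplicit false

/-!
# MP_3574a2_pr, step R1: lower inequality for the excess moments
-/

namespace Pool.Agent.Work.MP_3574a2_pr

open MeasureTheory ProbabilityTheory

section basics

variable {ι : Type} [Fintype ι]

theorem sl_memLp (q : ι → ℝ) (j : ι) :
    MemLp (fun x : ℝ => x * q j) 2 (gaussianReal 0 1) := by
  have h := (memLp_id_gaussianReal (μ := 0) (v := 1) 2).mul_const (q j)
  exact_mod_cast h

theorem sl_memLp_coord (q : ι → ℝ) (j : ι) :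
    MemLp (fun a : ι → ℝ => a j * q j) 2 (gm ι) :=
  (sl_memLp q j).comp_measurePreserving (measurePreserving_eval (fun _ : ι => gaussianReal 0 1) j)

theorem sl_memLp_pair (q : ι → ℝ) : MemLp (fun a : ι → ℝ => pair a q) 2 (gm ι) :=
  memLp_finsetSum Finset.univ fun j _ => sl_memLp_coord q j

theorem sl_pair_int (q : ι → ℝ) : Integrable (fun a : ι → ℝ => pair a q) (gm ι) :=
  (sl_memLp_pair q).integrable (by norm_num)

theorem sl_pair_sq_int (q : ι → ℝ) : Integrable (fun a : ι → ℝ => pair a q ^ 2) (gm ι) :=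
  (sl_memLp_pair q).integrable_sq

theorem sl_pair_mean (q : ι → ℝ) : ∫ a, pair a q ∂(gm ι) = 0 := by
  unfold pair
  rw [integral_finsetSum _ fun j _ => (sl_memLp_coord q j).integrable (by norm_num)]
  refine Finset.sum_eq_zero fun j _ => ?_
  have h := (measurePreserving_eval (fun _ : ι => gaussianReal 0 1) j).map_eq
  have h2 : ∫ a : ι → ℝ, (a j * q j) ∂(gm ι) = ∫ x, x * q j ∂(gaussianReal 0 1) := by
    have h3 := integral_map (μ := gm ι) (φ := Function.eval j)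
      (measurable_pi_apply j).aemeasurable (f := fun x : ℝ => x * q j)
      (Measurable.aestronglyMeasurable (by fun_prop))
    rw [h] at h3
    exact h3.symm
  rw [h2, integral_mul_const, integral_id_gaussianReal, zero_mul]

theorem sl_pair_sq (q : ι → ℝ) : ∫ a, pair a q ^ 2 ∂(gm ι) = sq q := by
  rw [← variance_of_integral_eq_zero (sl_memLp_pair q).aemeasurable (sl_pair_mean q)]
  have h := variance_sum_pi (μ := fun _ : ι => gaussianReal 0 1)
    (X := fun j => fun x : ℝ => x * q j) fun j => sl_memLp q j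
  have e : (fun a : ι → ℝ => pair a q) = ∑ i, fun ω : ι → ℝ => ω i * q i := by
    funext a
    simp [pair, Finset.sum_apply]
  rw [e]
  have h' : variance (∑ i, fun ω : ι → ℝ => ω i * q i) (gm ι) =
      ∑ i, variance (fun x : ℝ => x * q i) (gaussianReal 0 1) := h
  rw [h']
  unfold sq
  refine Finset.sum_congr rfl fun j _ => ?_
  have h3 : variance (fun x : ℝ => q j * x) (gaussianReal 0 1) =
      q j ^ 2 * variance (fun x : ℝ => x) (gaussianReal 0 1) := variance_const_mul _ _ _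
  have h4 : (fun x : ℝ => x * q j) = fun x : ℝ => q j * x := by
    funext x
    ring
  rw [h4, h3, variance_fun_id_gaussianReal]
  simp

end basics

section good

variable {ι : Type} [Fintype ι] {Λ : (ι → ℝ) → ℝ}

theorem sl_zero (h : IsGood Λ) : Λ 0 = 0 := by
  have := h.homog 0 0 le_rfl
  simpa using this

theorem sl_le_norm (h : IsGood Λ) (a : ι → ℝ) : Λ a ≤ ‖a‖ := by
  have := h.lip 0 a
  rw [zero_add, sl_zero h, sub_zero] at this
  exact (le_abs_self _).trans this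

theorem sl_cont (h : IsGood Λ) : Continuous Λ := by
  have : LipschitzWith 1 Λ := by
    refine LipschitzWith.of_dist_le_mul fun a b => ?_
    rw [Real.dist_eq, dist_eq_norm, NNReal.coe_one, one_mul]
    have h1 := h.lip b (a - b)
    rwa [add_sub_cancel] at h1
  exact this.continuous

theorem sl_pair_smul (s : ℝ) (b q : ι → ℝ) : pair (s • b) q = s * pair b q := by
  unfold pair
  rw [Finset.mul_sum]
  refine Finset.sum_congr rfl fun j _ => ?_
  rw [Pi.smul_apply, smul_eq_mul, mul_assoc]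

theorem sl_pair_neg (b q : ι → ℝ) : pair (-b) q = -pair b q := by
  have := sl_pair_smul (-1) b q
  rwa [neg_one_smul, neg_one_mul] at this

theorem sl_pair_le (h : IsGood Λ) {a q : ι → ℝ} (hq : ∀ b, Λ a + pair b q ≤ Λ (a + b))
    (b : ι → ℝ) : |pair b q| ≤ ‖b‖ := by
  have h1 : ∀ b : ι → ℝ, pair b q ≤ ‖b‖ := fun b => by
    have := (le_abs_self _).trans (h.lip a b)
    linarith [hq b]
  rw [abs_le]
  constructor
  · have := h1 (-b)
    rw [sl_pair_neg, norm_neg] at this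
    linarith
  · exact h1 b

theorem sl_norm_int [Nonempty ι] (hg : GaussSup) : Integrable (fun a : ι → ℝ => ‖a‖) (gm ι) := by
  refine Integrable.mono' ((integrable_const (1 : ℝ)).add (hg ι).1)
    (by fun_prop) (Filter.Eventually.of_forall fun a => ?_)
  rw [norm_norm]
  simp only [Pi.add_apply]
  nlinarith [norm_nonneg a, sq_nonneg (‖a‖ - 1)]

theorem sl_shift_int [Nonempty ι] (hg : GaussSup) (h : IsGood Λ) (a : ι → ℝ) (s : ℝ) :
    Integrable (fun b => Λ (a + s • b)) (gm ι) := by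
  have hc := sl_cont h
  refine Integrable.mono' ((integrable_const ‖a‖).add ((sl_norm_int hg).const_mul |s|))
    (Continuous.aestronglyMeasurable (by fun_prop)) (Filter.Eventually.of_forall fun b => ?_)
  rw [Real.norm_of_nonneg (h.nonneg _)]
  refine (sl_le_norm h _).trans ?_
  refine (norm_add_le _ _).trans ?_
  rw [norm_smul, Real.norm_eq_abs]
  exact le_refl _

theorem sl_jensen [Nonempty ι] (hg : GaussSup) (h : IsGood Λ) (a : ι → ℝ) (s : ℝ) :
    Λ a ≤ ∫ b, Λ (a + s • b) ∂(gm ι) := by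
  obtain ⟨q, hq⟩ := h.subgrad a
  have h1 : ∫ b, (Λ a + s * pair b q) ∂(gm ι) ≤ ∫ b, Λ (a + s • b) ∂(gm ι) := by
    refine integral_mono ((integrable_const _).add ((sl_pair_int q).const_mul s))
      (sl_shift_int hg h a s) fun b => ?_
    have := hq (s • b)
    rwa [sl_pair_smul] at this
  rw [integral_add (integrable_const _) ((sl_pair_int q).const_mul s), integral_const_mul,
    sl_pair_mean, integral_const] at h1
  simpa using h1

theorem sl_incr_sq_int [Nonempty ι] (hg : GaussSup) (h : IsGood Λ) (a : ι → ℝ) {s : ℝ}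
    (hs : 0 < s) (hs1 : s ≤ 1) (hρ : 0 < rho s) (hρ1 : rho s ≤ 1) :
    Integrable (fun b => incr Λ s (a, b) ^ 2) (gm ι) := by
  have hc := sl_cont h
  refine Integrable.mono' ((integrable_const (2 * ‖a‖ ^ 2)).add ((hg ι).1.const_mul 2))
    (Continuous.aestronglyMeasurable (by unfold incr; fun_prop))
    (Filter.Eventually.of_forall fun b => ?_)
  rw [Real.norm_of_nonneg (sq_nonneg _)]
  simp only [Pi.add_apply, incr]
  have h1 := h.nonneg a
  have h2 := h.nonneg (a + s • b)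
  have h3 := sl_le_norm h a
  have h4 : Λ (a + s • b) ≤ ‖a‖ + ‖b‖ := by
    refine (sl_le_norm h _).trans ((norm_add_le _ _).trans ?_)
    rw [norm_smul, Real.norm_of_nonneg hs.le]
    nlinarith [norm_nonneg b]
  have h5 : rho s * Λ (a + s • b) ≤ ‖a‖ + ‖b‖ := by nlinarith
  have h6 : 0 ≤ rho s * Λ (a + s • b) := by positivity
  have h7 : |rho s * Λ (a + s • b) - Λ a| ≤ ‖a‖ + ‖b‖ := by
    rw [abs_le]
    constructor <;> linarith [norm_nonneg b]
  have h8 : (rho s * Λ (a + s • b) - Λ a) ^ 2 ≤ (‖a‖ + ‖b‖) ^ 2 := by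
    rw [← sq_abs]
    exact pow_le_pow_left₀ (abs_nonneg _) h7 2
  nlinarith [sq_nonneg (‖a‖ - ‖b‖)]

end good

section rho

theorem sl_rho_pos (s : ℝ) : 0 < rho s := by
  unfold rho
  positivity

theorem sl_rho_le (s : ℝ) : rho s ≤ 1 := by
  unfold rho
  refine inv_le_one_of_one_le₀ ?_
  rw [Real.one_le_sqrt]
  nlinarith [sq_nonneg s]

theorem sl_rho_sq {s : ℝ} (hs1 : s ^ 2 ≤ 1) : 1 - s ^ 2 ≤ rho s ^ 2 := by
  unfold rho
  rw [inv_pow, Real.sq_sqrt (by positivity)]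
  have h : (0 : ℝ) < 1 + s ^ 2 := by positivity
  rw [← one_div, le_div_iff₀ h]
  nlinarith [sq_nonneg (s ^ 2)]

theorem sl_rho_ge (s : ℝ) : 1 - s ^ 2 / 2 ≤ rho s := by
  unfold rho
  have h : (0 : ℝ) < Real.sqrt (1 + s ^ 2) := Real.sqrt_pos.2 (by positivity)
  have h2 : Real.sqrt (1 + s ^ 2) ≤ 1 + s ^ 2 / 2 := by
    rw [Real.sqrt_le_left (by positivity)]
    nlinarith [sq_nonneg (s ^ 2)]
  rw [← one_div, le_div_iff₀ h]
  by_cases h3 : 1 - s ^ 2 / 2 ≤ 0
  · nlinarith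
  · push Not at h3
    nlinarith [sq_nonneg (s ^ 2)]

end rho

section left

variable {ι : Type} [Fintype ι] [Nonempty ι] {Λ : (ι → ℝ) → ℝ}

theorem sl_exc_int (hg : GaussSup) (h : IsGood Λ) {t : ℝ} (ht : 0 < t) :
    Integrable (fun a => max (Λ a - t) 0) (gm ι) := by
  have hc := sl_cont h
  refine Integrable.mono' (sl_norm_int hg) (Continuous.aestronglyMeasurable (by fun_prop))
    (Filter.Eventually.of_forall fun a => ?_)
  rw [Real.norm_of_nonneg (le_max_right _ _)]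
  refine max_le ?_ (norm_nonneg _)
  linarith [sl_le_norm h a]

theorem sl_exc_sq_int (hg : GaussSup) (h : IsGood Λ) {t : ℝ} (ht : 0 < t) :
    Integrable (fun a => (max (Λ a - t) 0) ^ 2) (gm ι) := by
  have hc := sl_cont h
  refine Integrable.mono' (hg ι).1 (Continuous.aestronglyMeasurable (by fun_prop))
    (Filter.Eventually.of_forall fun a => ?_)
  rw [Real.norm_of_nonneg (sq_nonneg _)]
  refine pow_le_pow_left₀ (le_max_right _ _) ?_ 2
  refine max_le ?_ (norm_nonneg _)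
  linarith [sl_le_norm h a]

theorem sl_left (hg : GaussSup) (h : IsGood Λ) {t s : ℝ} (ht : 0 < t)
    (hi : Integrable (fun p => max (Λ p.1 - t) 0 * (-incr Λ s p)) ((gm ι).prod (gm ι))) :
    ∫ p, max (Λ p.1 - t) 0 * (-incr Λ s p) ∂((gm ι).prod (gm ι)) ≤
      s ^ 2 / 2 * (t * h1 Λ t + h2 Λ t) := by
  rw [integral_prod _ hi]
  have hρ := sl_rho_pos s
  have hρ1 := sl_rho_le s
  have hρ2 := sl_rho_ge s
  have e1 : ∀ a : ι → ℝ, ∫ b, max (Λ a - t) 0 * (-incr Λ s (a, b)) ∂(gm ι) ≤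
      s ^ 2 / 2 * (t * max (Λ a - t) 0 + (max (Λ a - t) 0) ^ 2) := by
    intro a
    rw [integral_const_mul]
    have e2 : ∫ b, -incr Λ s (a, b) ∂(gm ι) = Λ a - rho s * ∫ b, Λ (a + s • b) ∂(gm ι) := by
      simp only [incr, neg_sub]
      rw [integral_sub (integrable_const _) ((sl_shift_int hg h a s).const_mul _),
        integral_const_mul, integral_const]
      simp
    rw [e2]
    have e3 := sl_jensen hg h a s
    have e4 := h.nonneg a
    have e5 : Λ a - rho s * ∫ b, Λ (a + s • b) ∂(gm ι) ≤ s ^ 2 / 2 * Λ a := by nlinarith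
    have e6 : (0 : ℝ) ≤ max (Λ a - t) 0 := le_max_right _ _
    have e7 : max (Λ a - t) 0 * Λ a = t * max (Λ a - t) 0 + (max (Λ a - t) 0) ^ 2 := by
      rcases le_total (Λ a - t) 0 with h0 | h0
      · rw [max_eq_right h0]
        ring
      · rw [max_eq_left h0]
        ring
    calc max (Λ a - t) 0 * (Λ a - rho s * ∫ b, Λ (a + s • b) ∂(gm ι)) ≤
        max (Λ a - t) 0 * (s ^ 2 / 2 * Λ a) := mul_le_mul_of_nonneg_left e5 e6
      _ = s ^ 2 / 2 * (max (Λ a - t) 0 * Λ a) := by ring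
      _ = _ := by rw [e7]
  have i1 := sl_exc_int hg h ht
  have i2 := sl_exc_sq_int hg h ht
  refine (integral_mono hi.integral_prod_left (((i1.const_mul t).add i2).const_mul (s ^ 2 / 2))
    e1).trans (le_of_eq ?_)
  have e8 : ∫ a, s ^ 2 / 2 * (t * max (Λ a - t) 0 + (max (Λ a - t) 0) ^ 2) ∂(gm ι) =
      s ^ 2 / 2 * (t * h1 Λ t + h2 Λ t) := by
    rw [integral_const_mul, integral_add (i1.const_mul t) i2, integral_const_mul]
    rfl
  exact e8

end left

section right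

variable {ι : Type} [Fintype ι] [Nonempty ι] {Λ : (ι → ℝ) → ℝ}

theorem sl_eta_nonneg (T : ℝ) : 0 ≤ eta ι T :=
  integral_nonneg fun _ => sq_nonneg _

theorem sl_meas_le_eta (hg : GaussSup) {T : ℝ} (hT : 1 ≤ T) :
    (gm ι).real {a | T < ‖a‖} ≤ eta ι T := by
  have hm : MeasurableSet {a : ι → ℝ | T < ‖a‖} := measurableSet_lt (by fun_prop) (by fun_prop)
  have h1 : ∫ a in {a : ι → ℝ | T < ‖a‖}, (1 : ℝ) ∂(gm ι) ≤ eta ι T := by
    refine setIntegral_mono_on (integrable_const _).integrableOn (hg ι).1.integrableOn hm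
      fun a ha => ?_
    have ha' : T < ‖a‖ := ha
    nlinarith
  simpa using h1

theorem sl_ball_sq (hg : GaussSup) {T : ℝ} {q : ι → ℝ} (hq : ∀ b, |pair b q| ≤ ‖b‖) :
    sq q - eta ι T ≤ ∫ b in {b : ι → ℝ | ‖b‖ ≤ T}, pair b q ^ 2 ∂(gm ι) := by
  have hm : MeasurableSet {b : ι → ℝ | ‖b‖ ≤ T} := measurableSet_le (by fun_prop) (by fun_prop)
  have hc : {b : ι → ℝ | ‖b‖ ≤ T}ᶜ = {b | T < ‖b‖} := by
    ext b
    simp
  have h1 := integral_add_compl hm (sl_pair_sq_int q)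
  rw [sl_pair_sq, hc] at h1
  have h2 : ∫ b in {b : ι → ℝ | T < ‖b‖}, pair b q ^ 2 ∂(gm ι) ≤ eta ι T := by
    refine setIntegral_mono_on (sl_pair_sq_int q).integrableOn (hg ι).1.integrableOn
      (by rw [← hc]; exact hm.compl) fun b _ => ?_
    rw [← sq_abs]
    exact pow_le_pow_left₀ (abs_nonneg _) (hq b) 2
  linarith

/-- the pointwise lower bound for the square of the increment -/
theorem sl_point (h : IsGood Λ) {a b q : ι → ℝ} {s g C T : ℝ} (hs : 0 < s) (hs1 : s ≤ 1)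
    (hC : 0 ≤ C) (hT : 1 ≤ T) (hsT : s * T ≤ g)
    (hq : ∀ b, Λ a + pair b q ≤ Λ (a + b))
    (hq2 : ∀ b, ‖b‖ ≤ g → Λ (a + b) ≤ Λ a + pair b q + C * ‖b‖ ^ 2)
    (ha : ‖a‖ ≤ T) (hb : ‖b‖ ≤ T) :
    (1 - s ^ 2) * s ^ 2 * pair b q ^ 2 - 2 * s ^ 3 * T * (C * T ^ 2 + T) ≤
      incr Λ s (a, b) ^ 2 := by
  have hρ := sl_rho_pos s
  have hρ1 := sl_rho_le s
  have hρ2 := sl_rho_ge s
  have hss : s ^ 2 ≤ 1 := by nlinarith
  have hρ3 := sl_rho_sq hss
  have e1 := hq (s • b)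
  have nb : ‖s • b‖ = s * ‖b‖ := by rw [norm_smul, Real.norm_of_nonneg hs.le]
  have nb2 : ‖s • b‖ ≤ g := by
    rw [nb]
    exact (mul_le_mul_of_nonneg_left hb hs.le).trans hsT
  have e2 := hq2 (s • b) nb2
  rw [sl_pair_smul] at e1 e2
  rw [nb] at e2
  have e3 : C * (s * ‖b‖) ^ 2 ≤ s ^ 2 * (C * T ^ 2) := by
    have : ‖b‖ ^ 2 ≤ T ^ 2 := pow_le_pow_left₀ (norm_nonneg _) hb 2
    calc C * (s * ‖b‖) ^ 2 = s ^ 2 * (C * ‖b‖ ^ 2) := by ring
      _ ≤ s ^ 2 * (C * T ^ 2) := by gcongr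
  have e4 := (sl_pair_le h hq b).trans hb
  have e5 := h.nonneg a
  have e6 := (sl_le_norm h a).trans ha
  have hT0 : 0 < T := by linarith
  set x : ℝ := s * pair b q with hx
  set r : ℝ := incr Λ s (a, b) - rho s * x with hr
  have hxa : |x| ≤ s * T := by
    rw [hx, abs_mul, abs_of_pos hs]
    exact mul_le_mul_of_nonneg_left e4 hs.le
  have hra : |r| ≤ s ^ 2 * (C * T ^ 2 + T) := by
    have hr2 : r = rho s * (Λ (a + s • b) - Λ a - x) - (1 - rho s) * Λ a := by
      rw [hr]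
      simp only [incr]
      ring
    have f1 : 0 ≤ Λ (a + s • b) - Λ a - x := by linarith
    have f2 : Λ (a + s • b) - Λ a - x ≤ s ^ 2 * (C * T ^ 2) := by linarith
    have f3 : 0 ≤ rho s * (Λ (a + s • b) - Λ a - x) := by positivity
    have f4 : rho s * (Λ (a + s • b) - Λ a - x) ≤ s ^ 2 * (C * T ^ 2) := by nlinarith
    have f5 : 0 ≤ (1 - rho s) * Λ a := mul_nonneg (by linarith) e5
    have f6 : (1 - rho s) * Λ a ≤ s ^ 2 * T := by
      have : (1 - rho s) * Λ a ≤ s ^ 2 / 2 * T :=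
        mul_le_mul (by linarith) e6 e5 (by positivity)
      have h2 : 0 ≤ s ^ 2 * T := by positivity
      linarith
    have f7 : 0 ≤ s ^ 2 * (C * T ^ 2) := by positivity
    have f8 : 0 ≤ s ^ 2 * T := by positivity
    rw [abs_le, hr2]
    constructor <;> nlinarith
  have hI : incr Λ s (a, b) = rho s * x + r := by
    rw [hr]
    ring
  rw [hI]
  have g1 : |x * r| ≤ s * T * (s ^ 2 * (C * T ^ 2 + T)) := by
    rw [abs_mul]
    exact mul_le_mul hxa hra (abs_nonneg _) (by positivity)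
  have g2 : |rho s * (x * r)| ≤ s * T * (s ^ 2 * (C * T ^ 2 + T)) := by
    rw [abs_mul, abs_of_pos hρ]
    nlinarith [abs_nonneg (x * r)]
  have g3 := (abs_le.1 g2).1
  have g4 : (1 - s ^ 2) * x ^ 2 ≤ rho s ^ 2 * x ^ 2 :=
    mul_le_mul_of_nonneg_right hρ3 (sq_nonneg x)
  have g5 : (1 - s ^ 2) * s ^ 2 * pair b q ^ 2 = (1 - s ^ 2) * x ^ 2 := by
    rw [hx]
    ring
  rw [g5]
  nlinarith [sq_nonneg r]

theorem sl_inner (hg : GaussSup) (h : IsGood Λ) {a q : ι → ℝ} {S ε s g C T : ℝ} (hs : 0 < s)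
    (hs1 : s ≤ 1) (hS0 : 0 < S) (hS : S ≤ 1) (hε : 0 ≤ ε)
    (hC : 0 ≤ C) (hT : 1 ≤ T) (hsT : s * T ≤ g)
    (hqS : (1 - ε) * S ≤ sq q)
    (hq : ∀ b, Λ a + pair b q ≤ Λ (a + b))
    (hq2 : ∀ b, ‖b‖ ≤ g → Λ (a + b) ≤ Λ a + pair b q + C * ‖b‖ ^ 2)
    (ha : ‖a‖ ≤ T) :
    s ^ 2 * ((1 - ε) * S - s ^ 2 - eta ι T - 2 * s * T * (C * T ^ 2 + T)) ≤
      ∫ b in {b : ι → ℝ | ‖b‖ ≤ T}, incr Λ s (a, b) ^ 2 ∂(gm ι) := by
  have hm : MeasurableSet {b : ι → ℝ | ‖b‖ ≤ T} := measurableSet_le (by fun_prop) (by fun_prop)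
  have hss : s ^ 2 ≤ 1 := by nlinarith
  have h1 : ∫ b in {b : ι → ℝ | ‖b‖ ≤ T},
      ((1 - s ^ 2) * s ^ 2 * pair b q ^ 2 - 2 * s ^ 3 * T * (C * T ^ 2 + T)) ∂(gm ι) ≤
      ∫ b in {b : ι → ℝ | ‖b‖ ≤ T}, incr Λ s (a, b) ^ 2 ∂(gm ι) := by
    refine setIntegral_mono_on
      (((sl_pair_sq_int q).const_mul _).sub (integrable_const _)).integrableOn
      (sl_incr_sq_int hg h a hs hs1 (sl_rho_pos s) (sl_rho_le s)).integrableOn hm fun b hb => ?_
    exact sl_point h hs hs1 hC hT hsT hq hq2 ha hb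
  rw [integral_sub ((sl_pair_sq_int q).const_mul _).integrableOn
    (integrable_const _).integrableOn, integral_const_mul] at h1
  have h2 := sl_ball_sq hg (T := T) (sl_pair_le h hq)
  have h3 : ∫ _ in {b : ι → ℝ | ‖b‖ ≤ T}, 2 * s ^ 3 * T * (C * T ^ 2 + T) ∂(gm ι) ≤
      2 * s ^ 3 * T * (C * T ^ 2 + T) := by
    rw [setIntegral_const, smul_eq_mul]
    have : (gm ι).real {b : ι → ℝ | ‖b‖ ≤ T} ≤ 1 := measureReal_le_one
    have h4 : 0 ≤ 2 * s ^ 3 * T * (C * T ^ 2 + T) := by positivity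
    nlinarith
  have h5 : (1 - s ^ 2) * s ^ 2 * ((1 - ε) * S - eta ι T) ≤
      (1 - s ^ 2) * s ^ 2 * ∫ b in {b : ι → ℝ | ‖b‖ ≤ T}, pair b q ^ 2 ∂(gm ι) := by
    refine mul_le_mul_of_nonneg_left (by linarith) ?_
    have : 0 ≤ 1 - s ^ 2 := by linarith
    positivity
  have h6 : (1 - ε) * S - eta ι T ≤ 1 := by
    have := sl_eta_nonneg (ι := ι) T
    nlinarith
  have h7 : s ^ 2 * s ^ 2 * ((1 - ε) * S - eta ι T) ≤ s ^ 2 * s ^ 2 * 1 :=
    mul_le_mul_of_nonneg_left h6 (by positivity)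
  nlinarith

end right

theorem smoothLower (h : SmoothPair) (hg : GaussSup) : SmoothLower := by
  intro ι _ Λ Bad t S ε g C s T hΛ hBad hS0 hS hε hε1 hC hs hs1 hT hsT ht hL hc
  rcases isEmpty_or_nonempty ι with hι | hι
  · have e1 : tl Λ (t + 2 * s * T) = 0 := by
      unfold tl
      have : {a : ι → ℝ | t + 2 * s * T < Λ a} = ∅ := by
        ext a
        simp only [Set.mem_ofPred_eq, Set.mem_empty_iff_false, iff_false, not_lt]
        have : a = 0 := Subsingleton.elim _ _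
        rw [this, sl_zero hΛ]
        positivity
      rw [this, measureReal_empty]
    have e2 : 0 ≤ eta ι T := integral_nonneg fun _ => sq_nonneg _
    have e3 : 0 ≤ (gm ι).real Bad := measureReal_nonneg
    have e4 : 0 ≤ h1 Λ t := integral_nonneg fun _ => le_max_right _ _
    have e5 : 0 ≤ h2 Λ t := integral_nonneg fun _ => sq_nonneg _
    have e6 : 0 ≤ t * h1 Λ t + h2 Λ t := by positivity
    rw [e1]
    refine le_trans (mul_nonpos_of_nonneg_of_nonpos hc (by linarith)) e6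
  obtain ⟨hD, hi, -, hlow⟩ := h ι Λ t s hΛ hs hs1 ht
  have hleft := sl_left hg hΛ ht hi
  have hcont := sl_cont hΛ
  have hT0 : 0 < T := by linarith
  set c : ℝ := (1 - ε) * S - s ^ 2 - eta ι T - 2 * s * T * (C * T ^ 2 + T) with hcdef
  set G : Set (ι → ℝ) := {a | a ∉ Bad ∧ t + 2 * s * T < Λ a ∧ ‖a‖ ≤ T} with hG
  set B : Set (ι → ℝ) := {b | ‖b‖ ≤ T} with hB
  have hmB : MeasurableSet B := measurableSet_le (by fun_prop) (by fun_prop)
  have hmG : MeasurableSet G :=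
    hBad.compl.inter ((measurableSet_lt measurable_const hcont.measurable).inter
      (measurableSet_le measurable_norm measurable_const))
  have hmD : MeasurableSet {p : (ι → ℝ) × (ι → ℝ) | t + |incr Λ s p| < Λ p.1} := by
    refine measurableSet_lt ?_ (by fun_prop)
    unfold incr
    exact Continuous.measurable (by fun_prop)
  have hsub : G ×ˢ B ⊆ {p : (ι → ℝ) × (ι → ℝ) | t + |incr Λ s p| < Λ p.1} := by
    rintro ⟨a, b⟩ ⟨⟨ha1, ha2, ha3⟩, hb⟩
    have hb' : ‖b‖ ≤ T := hb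
    show t + |incr Λ s (a, b)| < Λ a
    refine lt_of_le_of_lt ?_ ha2
    have hρ := sl_rho_pos s
    have hρ1 := sl_rho_le s
    have hρ2 := sl_rho_ge s
    have f1 : |Λ (a + s • b) - Λ a| ≤ s * T := by
      refine (hΛ.lip a (s • b)).trans ?_
      rw [norm_smul, Real.norm_of_nonneg hs.le]
      exact mul_le_mul_of_nonneg_left hb' hs.le
    have f2 := hΛ.nonneg a
    have f3 := (sl_le_norm hΛ a).trans ha3
    have f4 : incr Λ s (a, b) = rho s * (Λ (a + s • b) - Λ a) - (1 - rho s) * Λ a := by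
      unfold incr
      ring
    have f5 : |rho s * (Λ (a + s • b) - Λ a)| ≤ s * T := by
      rw [abs_mul, abs_of_pos hρ]
      nlinarith [abs_nonneg (Λ (a + s • b) - Λ a)]
    have f6 : |(1 - rho s) * Λ a| ≤ s * T := by
      rw [abs_of_nonneg (mul_nonneg (by linarith) f2)]
      have : (1 - rho s) * Λ a ≤ s ^ 2 / 2 * T :=
        mul_le_mul (by linarith) f3 f2 (by positivity)
      have h3 : s ^ 2 / 2 ≤ s := by nlinarith
      nlinarith
    have f7 : |incr Λ s (a, b)| ≤ s * T + s * T := by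
      rw [f4]
      exact (abs_sub _ _).trans (add_le_add f5 f6)
    linarith
  have hr1 : ∫ p in G ×ˢ B, incr Λ s p ^ 2 ∂((gm ι).prod (gm ι)) ≤
      ∫ p in {p | t + |incr Λ s p| < Λ p.1}, incr Λ s p ^ 2 ∂((gm ι).prod (gm ι)) :=
    setIntegral_mono_set hD.integrableOn (Filter.Eventually.of_forall fun _ => sq_nonneg _)
      (Filter.Eventually.of_forall hsub)
  rw [setIntegral_prod _ hD.integrableOn] at hr1
  have hr2 : ∫ a in G, s ^ 2 * c ∂(gm ι) ≤
      ∫ a in G, ∫ b in B, incr Λ s (a, b) ^ 2 ∂(gm ι) ∂(gm ι) := by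
    refine setIntegral_mono_on (integrable_const _).integrableOn ?_ hmG fun a ha => ?_
    · have hh : Integrable (fun p => incr Λ s p ^ 2)
          (((gm ι).restrict G).prod ((gm ι).restrict B)) := by
        rw [Measure.prod_restrict]
        exact hD.integrableOn
      exact hh.integral_prod_left
    · obtain ⟨ha1, ha2, ha3⟩ := ha
      obtain ⟨q, q1, q2, q3, q4⟩ := hL a ha1 (by nlinarith)
      exact sl_inner hg hΛ hs hs1 hS0 hS hε hC hT hsT q1 q3 q4 ha3
  rw [setIntegral_const, smul_eq_mul] at hr2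
  have hmeas : tl Λ (t + 2 * s * T) - (gm ι).real Bad - eta ι T ≤ (gm ι).real G := by
    have k1 : {a : ι → ℝ | t + 2 * s * T < Λ a} ⊆ G ∪ (Bad ∪ {a | T < ‖a‖}) := by
      intro a ha
      by_cases k2 : a ∈ Bad
      · exact Or.inr (Or.inl k2)
      · by_cases k3 : ‖a‖ ≤ T
        · exact Or.inl ⟨k2, ha, k3⟩
        · exact Or.inr (Or.inr (not_le.1 k3))
    have k4 : tl Λ (t + 2 * s * T) ≤
        (gm ι).real G + ((gm ι).real Bad + (gm ι).real {a | T < ‖a‖}) := by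
      refine (measureReal_mono k1).trans ((measureReal_union_le _ _).trans ?_)
      gcongr
      exact measureReal_union_le _ _
    have k5 := sl_meas_le_eta (ι := ι) hg hT
    linarith
  have hs2 : 0 < s ^ 2 / 2 := by positivity
  have hfin : s ^ 2 / 2 * (c * (tl Λ (t + 2 * s * T) - (gm ι).real Bad - eta ι T)) ≤
      s ^ 2 / 2 * (t * h1 Λ t + h2 Λ t) := by
    have k1 : (gm ι).real G * (s ^ 2 * c) ≤
        2 * (s ^ 2 / 2 * (t * h1 Λ t + h2 Λ t)) := by linarith
    have k2 : s ^ 2 * c * (tl Λ (t + 2 * s * T) - (gm ι).real Bad - eta ι T) ≤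
        s ^ 2 * c * (gm ι).real G :=
      mul_le_mul_of_nonneg_left hmeas (by positivity)
    nlinarith
  exact le_of_mul_le_mul_left hfin hs2

end Pool.Agent.Work.MP_3574a2_pr
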