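import Pool.Agent.Work.MP_3574a2_pr.Claims

set_option autoImplicit false

/-!
# MP_3574a2_pr : the upper inequality for the excess moments
-/

namespace Pool.Agent.Work.MP_3574a2_pr

open MeasureTheory ProbabilityTheory

namespace SU

variable {ι : Type} [Fintype ι]

lemma good_cont {Λ : (ι → ℝ) → ℝ} (hΛ : IsGood Λ) : Continuous Λ := by
  have h : LipschitzWith 1 Λ := by
    apply LipschitzWith.of_dist_le_mul
    intro x y
    have := hΛ.lip y (x - y)
    rw [add_sub_cancel] at this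
    simpa [Real.dist_eq, dist_eq_norm] using this
  exact h.continuous

lemma good_zero {Λ : (ι → ℝ) → ℝ} (hΛ : IsGood Λ) : Λ 0 = 0 := by
  have := hΛ.homog 0 0 le_rfl
  simpa using this

lemma good_le {Λ : (ι → ℝ) → ℝ} (hΛ : IsGood Λ) (a : ι → ℝ) : Λ a ≤ ‖a‖ := by
  have := hΛ.lip 0 a
  rw [zero_add, good_zero hΛ, sub_zero] at this
  exact (le_abs_self _).trans this

lemma pair_neg (b q : ι → ℝ) : pair (-b) q = -pair b q := by
  simp [pair, Finset.sum_neg_distrib]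

lemma pair_smul (s : ℝ) (b q : ι → ℝ) : pair (s • b) q = s * pair b q := by
  simp [pair, Finset.mul_sum, mul_assoc]

lemma abs_pair_le {Λ : (ι → ℝ) → ℝ} (hΛ : IsGood Λ) {a q : ι → ℝ}
    (hq : ∀ b, Λ a + pair b q ≤ Λ (a + b)) (b : ι → ℝ) : |pair b q| ≤ ‖b‖ := by
  have key : ∀ b : ι → ℝ, pair b q ≤ ‖b‖ := by
    intro b
    have h1 := hq b
    have h2 := (le_abs_self _).trans (hΛ.lip a b)
    linarith
  rw [abs_le]
  constructor
  · have := key (-b)
    rw [pair_neg, norm_neg] at this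
    linarith
  · exact key b

lemma cont_pair (q : ι → ℝ) : Continuous (fun a : ι → ℝ => pair a q) := by
  unfold pair
  fun_prop

lemma integrable_coord (j : ι) : Integrable (fun a : ι → ℝ => a j) (gm ι) :=
  integrable_eval IsGaussian.integrable_id

lemma integrable_pair (q : ι → ℝ) : Integrable (fun a : ι → ℝ => pair a q) (gm ι) := by
  unfold pair
  exact integrable_finsetSum _ fun j _ => (integrable_coord j).mul_const _

lemma integral_pair (q : ι → ℝ) : ∫ a, pair a q ∂(gm ι) = 0 := by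
  unfold pair
  rw [integral_finsetSum _ fun j _ => (integrable_coord j).mul_const _]
  refine Finset.sum_eq_zero fun j _ => ?_
  rw [integral_mul_const, integral_eval, integral_id_gaussianReal, zero_mul]

lemma memLp_pair (q : ι → ℝ) : MemLp (fun a : ι → ℝ => pair a q) 2 (gm ι) := by
  unfold pair
  refine memLp_finsetSum _ fun j _ => ?_
  have h : MemLp (id : ℝ → ℝ) 2 (gaussianReal 0 1) := memLp_id_gaussianReal' 2 (by simp)
  exact (h.comp_measurePreserving (measurePreserving_eval (fun _ : ι => gaussianReal 0 1) j)).mul_const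
    (q j)

lemma integral_pair_sq (q : ι → ℝ) : ∫ a, pair a q ^ 2 ∂(gm ι) = sq q := by
  have h := variance_sum_pi (μ := fun _ : ι => gaussianReal 0 1)
    (X := fun (j : ι) (x : ℝ) => q j * x)
    (fun j => (memLp_id_gaussianReal' 2 (by simp)).const_mul (q j))
  have h2 : (∑ i, fun ω : ι → ℝ => q i * ω i) = fun a => pair a q := by
    ext a
    simp [pair, mul_comm]
  rw [h2] at h
  have h3 : Var[fun a => pair a q; gm ι] = ∫ a, pair a q ^ 2 ∂(gm ι) := by
    rw [variance_eq_integral (cont_pair q).measurable.aemeasurable, integral_pair]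
    simp
  rw [← h3]
  rw [h]
  unfold sq
  refine Finset.sum_congr rfl fun j _ => ?_
  have : Var[fun x => q j * (id x); gaussianReal 0 1] = q j ^ 2 * Var[id; gaussianReal 0 1] :=
    variance_const_mul _ _ _
  simp only [id] at this
  rw [this]
  change q j ^ 2 * Var[id; gaussianReal 0 1] = _
  rw [variance_id_gaussianReal]
  simp

/-! ### The constant `rho` -/

lemma rho_pos (s : ℝ) : 0 < rho s := by
  unfold rho
  positivity

lemma rho_le_one (s : ℝ) : rho s ≤ 1 := by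
  unfold rho
  apply inv_le_one_of_one_le₀
  rw [Real.one_le_sqrt]
  nlinarith [sq_nonneg s]

lemma one_sub_rho_le {s : ℝ} (hs : 0 < s) (hs1 : s ≤ 1) : 1 - rho s ≤ s ^ 2 / 2 := by
  have h1 : (0 : ℝ) < 1 - s ^ 2 / 2 := by nlinarith
  have h2 : 0 < Real.sqrt (1 + s ^ 2) := Real.sqrt_pos.2 (by positivity)
  have h3 : Real.sqrt (1 + s ^ 2) ≤ 1 + s ^ 2 / 2 := by
    rw [Real.sqrt_le_left (by positivity)]
    nlinarith [sq_nonneg (s ^ 2)]
  have h4 : 1 - s ^ 2 / 2 ≤ rho s := by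
    unfold rho
    rw [le_inv_comm₀ h1 h2]
    refine h3.trans ?_
    rw [← one_div, le_div_iff₀ h1]
    nlinarith [sq_nonneg (s ^ 2)]
  linarith

lemma le_one_sub_rho {s : ℝ} (hs : 0 < s) (hs1 : s ≤ 1) :
    s ^ 2 / 2 * (1 - s ^ 2) ≤ 1 - rho s := by
  have h2 : 0 < Real.sqrt (1 + s ^ 2) := Real.sqrt_pos.2 (by positivity)
  set x := s ^ 2 with hx
  have hx0 : 0 ≤ x := by positivity
  have hx1 : x ≤ 1 := by nlinarith
  set y := 1 - x / 2 + x ^ 2 / 2 with hy
  have hy0 : 0 < y := by nlinarith [sq_nonneg x]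
  have h3 : 1 ≤ y ^ 2 * (1 + x) := by
    have e : y ^ 2 * (1 + x) = 1 + x ^ 2 / 4 + 3 / 4 * x ^ 3 - x ^ 4 / 4 + x ^ 5 / 4 := by
      rw [hy]; ring
    rw [e]
    have h4 : x ^ 4 ≤ x ^ 3 := by nlinarith [pow_nonneg hx0 3]
    nlinarith [pow_nonneg hx0 5, pow_nonneg hx0 3, sq_nonneg x]
  have h5 : y⁻¹ ≤ Real.sqrt (1 + x) := by
    apply Real.le_sqrt_of_sq_le
    rw [inv_pow, inv_le_comm₀ (by positivity) (by positivity)]
    rw [← one_div, div_le_iff₀ (by positivity)]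
    exact h3
  have h6 : rho s ≤ y := by
    unfold rho
    rw [inv_le_comm₀ h2 hy0]
    exact h5
  rw [hy] at h6
  nlinarith

/-! ### Moments of the sup norm -/

lemma integrable_norm (hI : Integrable (fun a : ι → ℝ => ‖a‖ ^ 2) (gm ι)) :
    Integrable (fun a : ι → ℝ => ‖a‖) (gm ι) := by
  refine Integrable.mono' (g := fun a : ι → ℝ => 1 + ‖a‖ ^ 2) ((integrable_const 1).add hI)
    (by fun_prop) (Filter.Eventually.of_forall fun a => ?_)
  rw [norm_norm]
  nlinarith [sq_nonneg (‖a‖ - 1), norm_nonneg a]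

lemma mu2_nonneg : 0 ≤ mu2 ι := integral_nonneg fun _ => by positivity

lemma eta_nonneg (T : ℝ) : 0 ≤ eta ι T := integral_nonneg fun _ => by positivity

lemma meas_tail (T : ℝ) : MeasurableSet {a : ι → ℝ | T < ‖a‖} :=
  measurableSet_lt measurable_const measurable_norm

lemma integral_norm_le (hI : Integrable (fun a : ι → ℝ => ‖a‖ ^ 2) (gm ι)) :
    ∫ a : ι → ℝ, ‖a‖ ∂(gm ι) ≤ 1 + mu2 ι := by
  have h : ∫ a : ι → ℝ, ‖a‖ ∂(gm ι) ≤ ∫ a : ι → ℝ, (1 + ‖a‖ ^ 2) ∂(gm ι) := by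
    refine integral_mono (integrable_norm hI) ((integrable_const 1).add hI) fun a => ?_
    nlinarith [sq_nonneg (‖a‖ - 1), norm_nonneg a]
  refine h.trans_eq ?_
  rw [integral_add (integrable_const 1) hI]
  simp [mu2]

lemma eta_eq (T : ℝ) : eta ι T =
    ∫ a, ({a : ι → ℝ | T < ‖a‖}.indicator (fun a => ‖a‖ ^ 2) a) ∂(gm ι) := by
  rw [integral_indicator (meas_tail T)]
  rfl

lemma prob_le_eta (hI : Integrable (fun a : ι → ℝ => ‖a‖ ^ 2) (gm ι)) {T : ℝ} (hT : 1 ≤ T) :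
    (gm ι).real {a : ι → ℝ | T < ‖a‖} ≤ eta ι T := by
  rw [eta_eq, ← integral_indicator_one (meas_tail T)]
  refine integral_mono ((integrable_const (1 : ℝ)).indicator (meas_tail T))
    (hI.indicator (meas_tail T)) fun a => ?_
  refine Set.indicator_le_indicator' fun ha => ?_
  have : T < ‖a‖ := ha
  simp only [Pi.one_apply]
  nlinarith

/-! ### The inner integral -/

section inner

variable {Λ : (ι → ℝ) → ℝ} {s : ℝ}

lemma integrable_shift (hI : Integrable (fun a : ι → ℝ => ‖a‖ ^ 2) (gm ι)) (hΛ : IsGood Λ)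
    (a : ι → ℝ) : Integrable (fun b => Λ (a + s • b)) (gm ι) := by
  refine Integrable.mono' (g := fun b : ι → ℝ => ‖a‖ + |s| * ‖b‖)
    ((integrable_const _).add ((integrable_norm hI).const_mul _))
    ((good_cont hΛ).comp (by fun_prop)).aestronglyMeasurable
    (Filter.Eventually.of_forall fun b => ?_)
  rw [Real.norm_eq_abs, abs_of_nonneg (hΛ.nonneg _)]
  refine (good_le hΛ _).trans ((norm_add_le _ _).trans ?_)
  rw [norm_smul, Real.norm_eq_abs]

lemma shift_ge (hI : Integrable (fun a : ι → ℝ => ‖a‖ ^ 2) (gm ι)) (hΛ : IsGood Λ)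
    (a : ι → ℝ) : Λ a ≤ ∫ b, Λ (a + s • b) ∂(gm ι) := by
  obtain ⟨q, hq⟩ := hΛ.subgrad a
  have h : ∫ b, (Λ a + s * pair b q) ∂(gm ι) ≤ ∫ b, Λ (a + s • b) ∂(gm ι) := by
    refine integral_mono ((integrable_const _).add ((integrable_pair q).const_mul _))
      (integrable_shift hI hΛ a) fun b => ?_
    have := hq (s • b)
    rw [pair_smul] at this
    exact this
  refine le_trans (le_of_eq ?_) h
  rw [integral_add (integrable_const _) ((integrable_pair q).const_mul _), integral_const_mul,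
    integral_pair]
  simp

lemma shift_le (hI : Integrable (fun a : ι → ℝ => ‖a‖ ^ 2) (gm ι)) (hΛ : IsGood Λ)
    (hs : 0 < s) (a : ι → ℝ) :
    ∫ b, Λ (a + s • b) ∂(gm ι) ≤ Λ a + s * (1 + mu2 ι) := by
  have h : ∫ b, Λ (a + s • b) ∂(gm ι) ≤ ∫ b, (Λ a + s * ‖b‖) ∂(gm ι) := by
    refine integral_mono (integrable_shift hI hΛ a)
      ((integrable_const _).add ((integrable_norm hI).const_mul _)) fun b => ?_
    have := (le_abs_self _).trans (hΛ.lip a (s • b))
    rw [norm_smul, Real.norm_eq_abs, abs_of_pos hs] at this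
    simp only
    linarith
  refine h.trans ?_
  rw [integral_add (integrable_const _) ((integrable_norm hI).const_mul _), integral_const_mul]
  have := integral_norm_le hI
  simp only [integral_const, probReal_univ, one_smul]
  nlinarith

lemma shift_le' (hI : Integrable (fun a : ι → ℝ => ‖a‖ ^ 2) (gm ι)) (hΛ : IsGood Λ)
    (hs : 0 < s) {T g C : ℝ} (hT : 1 ≤ T) (hg : s * T ≤ g) (hC : 0 ≤ C) {a q : ι → ℝ}
    (hq : ∀ b, Λ a + pair b q ≤ Λ (a + b))
    (hq2 : ∀ b, ‖b‖ ≤ g → Λ (a + b) ≤ Λ a + pair b q + C * ‖b‖ ^ 2) :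
    ∫ b, Λ (a + s • b) ∂(gm ι) ≤ Λ a + (C * s ^ 2 * mu2 ι + 2 * s * eta ι T) := by
  have i1 : Integrable (fun b : ι → ℝ => s * pair b q) (gm ι) := (integrable_pair q).const_mul _
  have i2 : Integrable (fun b : ι → ℝ => C * s ^ 2 * ‖b‖ ^ 2) (gm ι) := hI.const_mul _
  have i3 : Integrable (fun b : ι → ℝ => 2 * s *
      ({a : ι → ℝ | T < ‖a‖}.indicator (fun a => ‖a‖ ^ 2) b)) (gm ι) :=
    (hI.indicator (meas_tail T)).const_mul _
  have h : ∫ b, Λ (a + s • b) ∂(gm ι) ≤ ∫ b, (((Λ a + s * pair b q) + C * s ^ 2 * ‖b‖ ^ 2) +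
      2 * s * ({a : ι → ℝ | T < ‖a‖}.indicator (fun a => ‖a‖ ^ 2) b)) ∂(gm ι) := by
    refine integral_mono (integrable_shift hI hΛ a)
      ((((integrable_const _).add i1).add i2).add i3) fun b => ?_
    simp only
    have hn : ‖s • b‖ = s * ‖b‖ := by rw [norm_smul, Real.norm_eq_abs, abs_of_pos hs]
    by_cases hb : T < ‖b‖
    · rw [Set.indicator_of_mem (by exact hb)]
      have h1 := (le_abs_self _).trans (hΛ.lip a (s • b))
      rw [hn] at h1
      have h2 := (abs_le.1 (abs_pair_le hΛ hq b)).1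
      have h3 : ‖b‖ ≤ ‖b‖ ^ 2 := by nlinarith
      have h4 : 0 ≤ C * s ^ 2 * ‖b‖ ^ 2 := by positivity
      have h5 : s * (-‖b‖) ≤ s * pair b q := mul_le_mul_of_nonneg_left h2 hs.le
      have h6 : s * ‖b‖ ≤ s * ‖b‖ ^ 2 := mul_le_mul_of_nonneg_left h3 hs.le
      nlinarith
    · rw [Set.indicator_of_notMem (by exact hb)]
      rw [not_lt] at hb
      have h1 := hq2 (s • b) (by
        rw [hn]
        exact (mul_le_mul_of_nonneg_left hb hs.le).trans hg)
      rw [hn, pair_smul] at h1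
      nlinarith
  refine h.trans (le_of_eq ?_)
  have i0 : Integrable (fun b : ι → ℝ => Λ a + s * pair b q) (gm ι) := (integrable_const _).add i1
  have i01 : Integrable (fun b : ι → ℝ => Λ a + s * pair b q + C * s ^ 2 * ‖b‖ ^ 2) (gm ι) :=
    i0.add i2
  rw [integral_add i01 i3, integral_add i0 i2, integral_add (integrable_const _) i1,
    integral_const_mul, integral_const_mul, integral_const_mul, integral_pair, ← eta_eq]
  simp only [integral_const, probReal_univ, one_smul, mu2]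
  ring

end inner

/-! ### Excess moments -/

section outer

variable {Λ : (ι → ℝ) → ℝ}

omit [Fintype ι] in
lemma ex_nonneg (t : ℝ) (a : ι → ℝ) : 0 ≤ max (Λ a - t) 0 := le_max_right _ _

lemma ex_le (hΛ : IsGood Λ) {t : ℝ} (ht : 0 < t) (a : ι → ℝ) : max (Λ a - t) 0 ≤ Λ a :=
  max_le (by linarith) (hΛ.nonneg a)

lemma cont_ex (hΛ : IsGood Λ) (t : ℝ) : Continuous fun a => max (Λ a - t) 0 := by
  have := good_cont hΛ
  fun_prop

lemma integrable_ex (hI : Integrable (fun a : ι → ℝ => ‖a‖ ^ 2) (gm ι)) (hΛ : IsGood Λ)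
    {t : ℝ} (ht : 0 < t) : Integrable (fun a => max (Λ a - t) 0) (gm ι) := by
  refine Integrable.mono' (integrable_norm hI) (cont_ex hΛ t).aestronglyMeasurable
    (Filter.Eventually.of_forall fun a => ?_)
  rw [Real.norm_eq_abs, abs_of_nonneg (ex_nonneg t a)]
  exact (ex_le hΛ ht a).trans (good_le hΛ a)

lemma integrable_ex_sq (hI : Integrable (fun a : ι → ℝ => ‖a‖ ^ 2) (gm ι)) (hΛ : IsGood Λ)
    {t : ℝ} (ht : 0 < t) : Integrable (fun a => (max (Λ a - t) 0) ^ 2) (gm ι) := by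
  refine Integrable.mono' hI ((cont_ex hΛ t).pow 2).aestronglyMeasurable
    (Filter.Eventually.of_forall fun a => ?_)
  rw [Real.norm_eq_abs, abs_of_nonneg (by positivity)]
  exact pow_le_pow_left₀ (ex_nonneg t a) ((ex_le hΛ ht a).trans (good_le hΛ a)) 2

omit [Fintype ι] in
lemma ex_mul (t : ℝ) (a : ι → ℝ) :
    max (Λ a - t) 0 * Λ a = (max (Λ a - t) 0) ^ 2 + t * max (Λ a - t) 0 := by
  rcases le_total (Λ a - t) 0 with h | h
  · rw [max_eq_right h]; ring
  · rw [max_eq_left h]; ring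

lemma bad_ex (hI : Integrable (fun a : ι → ℝ => ‖a‖ ^ 2) (gm ι)) (hΛ : IsGood Λ)
    {t T : ℝ} (ht : 0 < t) (hT : 1 ≤ T) {Bad : Set (ι → ℝ)} (hB : MeasurableSet Bad) :
    ∫ a, Bad.indicator (fun a => max (Λ a - t) 0) a ∂(gm ι) ≤
      T * (gm ι).real Bad + eta ι T := by
  have i1 : Integrable (fun a => Bad.indicator (fun _ : ι → ℝ => T) a) (gm ι) :=
    (integrable_const T).indicator hB
  have i2 : Integrable (fun a => {a : ι → ℝ | T < ‖a‖}.indicator (fun a => ‖a‖ ^ 2) a) (gm ι) :=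
    hI.indicator (meas_tail T)
  have h : ∫ a, Bad.indicator (fun a => max (Λ a - t) 0) a ∂(gm ι) ≤
      ∫ a, (Bad.indicator (fun _ : ι → ℝ => T) a +
        {a : ι → ℝ | T < ‖a‖}.indicator (fun a => ‖a‖ ^ 2) a) ∂(gm ι) := by
    refine integral_mono ((integrable_ex hI hΛ ht).indicator hB) (i1.add i2) fun a => ?_
    simp only
    have h0 : 0 ≤ {a : ι → ℝ | T < ‖a‖}.indicator (fun a => ‖a‖ ^ 2) a :=
      Set.indicator_nonneg (fun _ _ => by positivity) _
    by_cases ha : a ∈ Bad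
    · rw [Set.indicator_of_mem ha, Set.indicator_of_mem ha]
      have h1 := (ex_le hΛ ht a).trans (good_le hΛ a)
      by_cases hb : T < ‖a‖
      · rw [Set.indicator_of_mem (by exact hb)]
        nlinarith
      · rw [not_lt] at hb
        linarith
    · rw [Set.indicator_of_notMem ha, Set.indicator_of_notMem ha]
      linarith
  refine h.trans (le_of_eq ?_)
  rw [integral_add i1 i2, ← eta_eq, integral_indicator hB]
  simp [mul_comm, Measure.real]

/-- The lower bound for the mixed term. -/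
lemma left_bound (hI : Integrable (fun a : ι → ℝ => ‖a‖ ^ 2) (gm ι)) (hΛ : IsGood Λ)
    {Bad : Set (ι → ℝ)} (hB : MeasurableSet Bad) {t t0 S ε g C s T : ℝ} (hC : 0 ≤ C)
    (hs : 0 < s) (hs1 : s ≤ 1) (hT : 1 ≤ T) (hg : s * T ≤ g) (ht : 0 < t) (ht0 : t0 ≤ t)
    (hL : LocQuad Λ Bad t0 S ε g C)
    (hF : Integrable (fun p => max (Λ p.1 - t) 0 * (-incr Λ s p)) ((gm ι).prod (gm ι))) :
    s ^ 2 / 2 * (1 - s ^ 2) * (t * h1 Λ t + h2 Λ t) -
      (C * s ^ 2 * mu2 ι + 2 * s * eta ι T) * h1 Λ t -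
      s * (1 + mu2 ι) * (T * (gm ι).real Bad + eta ι T) ≤
    ∫ p, max (Λ p.1 - t) 0 * (-incr Λ s p) ∂((gm ι).prod (gm ι)) := by
  have hmu : 0 ≤ mu2 ι := mu2_nonneg
  have heta : 0 ≤ eta ι T := eta_nonneg T
  set K1 := C * s ^ 2 * mu2 ι + 2 * s * eta ι T with hK1
  have hK1' : 0 ≤ K1 := by positivity
  set K2 := s * (1 + mu2 ι) with hK2
  have hK2' : 0 ≤ K2 := by positivity
  have iex := integrable_ex hI hΛ ht
  have iex2 := integrable_ex_sq hI hΛ ht
  have iB : Integrable (fun a => Bad.indicator (fun a => max (Λ a - t) 0) a) (gm ι) :=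
    iex.indicator hB
  rw [integral_prod _ hF]
  have hinner : ∀ a, ∫ b, max (Λ a - t) 0 * (-incr Λ s (a, b)) ∂(gm ι) =
      max (Λ a - t) 0 * (Λ a - rho s * ∫ b, Λ (a + s • b) ∂(gm ι)) := by
    intro a
    rw [integral_const_mul]
    congr 1
    have : (fun b : ι → ℝ => -incr Λ s (a, b)) = fun b => Λ a - rho s * Λ (a + s • b) := by
      ext b; simp [incr]
    rw [this, integral_sub (integrable_const _) ((integrable_shift hI hΛ a).const_mul _),
      integral_const_mul]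
    simp
  have i1 : Integrable (fun a => (1 - rho s) * ((max (Λ a - t) 0) ^ 2 + t * max (Λ a - t) 0))
      (gm ι) := (iex2.add (iex.const_mul t)).const_mul _
  have i2 : Integrable (fun a => K1 * max (Λ a - t) 0) (gm ι) := iex.const_mul _
  have i3 : Integrable (fun a => K2 * Bad.indicator (fun a => max (Λ a - t) 0) a) (gm ι) :=
    iB.const_mul _
  have hmain : ∫ a, ((1 - rho s) * ((max (Λ a - t) 0) ^ 2 + t * max (Λ a - t) 0) -
      K1 * max (Λ a - t) 0 - K2 * Bad.indicator (fun a => max (Λ a - t) 0) a) ∂(gm ι) ≤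
      ∫ a, ∫ b, max (Λ a - t) 0 * (-incr Λ s (a, b)) ∂(gm ι) ∂(gm ι) := by
    refine integral_mono ((i1.sub i2).sub i3) hF.integral_prod_left fun a => ?_
    simp only
    rw [hinner a, ← ex_mul]
    set M := ∫ b, Λ (a + s • b) ∂(gm ι) with hM
    have hMge : Λ a ≤ M := shift_ge hI hΛ a
    have hr1 := rho_le_one s
    by_cases hta : t < Λ a
    · have hx : 0 ≤ max (Λ a - t) 0 := ex_nonneg t a
      by_cases ha : a ∈ Bad
      · rw [Set.indicator_of_mem ha]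
        have h1 : M ≤ Λ a + K2 := shift_le hI hΛ hs a
        have h2 : (1 - rho s) * Λ a - K1 - K2 ≤ Λ a - rho s * M := by nlinarith
        have h3 := mul_le_mul_of_nonneg_left h2 hx
        nlinarith
      · rw [Set.indicator_of_notMem ha]
        obtain ⟨q, -, -, hq, hq2⟩ := hL a ha (lt_of_le_of_lt ht0 hta)
        have h1 : M ≤ Λ a + K1 := shift_le' hI hΛ hs hT hg hC hq hq2
        have h2 : (1 - rho s) * Λ a - K1 ≤ Λ a - rho s * M := by nlinarith
        have h3 := mul_le_mul_of_nonneg_left h2 hx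
        nlinarith
    · rw [not_lt] at hta
      have hx : max (Λ a - t) 0 = 0 := max_eq_right (by linarith)
      have hx2 : Bad.indicator (fun a => max (Λ a - t) 0) a = 0 := by
        by_cases ha : a ∈ Bad
        · rw [Set.indicator_of_mem ha, hx]
        · rw [Set.indicator_of_notMem ha]
      rw [hx, hx2]
      simp
  refine le_trans ?_ hmain
  have i12 : Integrable (fun a => (1 - rho s) * ((max (Λ a - t) 0) ^ 2 + t * max (Λ a - t) 0) -
      K1 * max (Λ a - t) 0) (gm ι) := i1.sub i2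
  rw [integral_sub i12 i3, integral_sub i1 i2, integral_const_mul, integral_const_mul,
    integral_const_mul, integral_add iex2 (iex.const_mul t), integral_const_mul]
  have hb := bad_ex hI hΛ ht hT hB
  have hh1 : ∫ a, max (Λ a - t) 0 ∂(gm ι) = h1 Λ t := rfl
  have hh2 : ∫ a, (max (Λ a - t) 0) ^ 2 ∂(gm ι) = h2 Λ t := rfl
  rw [hh1, hh2]
  have hh1' : 0 ≤ h1 Λ t := integral_nonneg fun a => ex_nonneg t a
  have hh2' : 0 ≤ h2 Λ t := integral_nonneg fun a => by positivity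
  have hr := le_one_sub_rho hs hs1
  have e1 : s ^ 2 / 2 * (1 - s ^ 2) * (t * h1 Λ t + h2 Λ t) ≤
      (1 - rho s) * (h2 Λ t + t * h1 Λ t) := by
    have : 0 ≤ t * h1 Λ t + h2 Λ t := by positivity
    calc s ^ 2 / 2 * (1 - s ^ 2) * (t * h1 Λ t + h2 Λ t)
        ≤ (1 - rho s) * (t * h1 Λ t + h2 Λ t) := mul_le_mul_of_nonneg_right hr this
      _ = _ := by ring
  have e2 := mul_le_mul_of_nonneg_left hb hK2'
  linarith

end outer

/-! ### The right side -/

section right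

variable {Λ : (ι → ℝ) → ℝ} {s : ℝ}

lemma abs_incr_le (hΛ : IsGood Λ) (hs : 0 < s) (hs1 : s ≤ 1) (a b : ι → ℝ) :
    |incr Λ s (a, b)| ≤ s * ‖b‖ + s ^ 2 / 2 * ‖a‖ := by
  have hn : ‖s • b‖ = s * ‖b‖ := by rw [norm_smul, Real.norm_eq_abs, abs_of_pos hs]
  have h1 := hΛ.lip a (s • b)
  rw [hn] at h1
  have h2 := rho_pos s
  have h3 := rho_le_one s
  have h4 := one_sub_rho_le hs hs1
  have h5 := good_le hΛ a
  have h6 := hΛ.nonneg a
  have e : incr Λ s (a, b) = rho s * (Λ (a + s • b) - Λ a) - (1 - rho s) * Λ a := by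
    simp only [incr]; ring
  rw [e]
  refine (abs_sub _ _).trans ?_
  rw [abs_mul, abs_mul, abs_of_pos h2, abs_of_nonneg (by linarith : (0 : ℝ) ≤ 1 - rho s),
    abs_of_nonneg h6]
  have h7 : rho s * |Λ (a + s • b) - Λ a| ≤ 1 * (s * ‖b‖) :=
    mul_le_mul h3 h1 (abs_nonneg _) (by norm_num)
  have h8 : (1 - rho s) * Λ a ≤ s ^ 2 / 2 * ‖a‖ :=
    mul_le_mul h4 h5 h6 (by positivity)
  linarith

lemma incr_sq_le (hΛ : IsGood Λ) (hs : 0 < s) (hs1 : s ≤ 1) (a b : ι → ℝ) :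
    incr Λ s (a, b) ^ 2 ≤ 2 * s ^ 2 * (‖b‖ ^ 2 + ‖a‖ ^ 2) := by
  have h1 := abs_incr_le hΛ hs hs1 a b
  have h2 : s * ‖b‖ + s ^ 2 / 2 * ‖a‖ ≤ s * (‖b‖ + ‖a‖) := by
    have : s ^ 2 / 2 * ‖a‖ ≤ s * ‖a‖ := by
      apply mul_le_mul_of_nonneg_right _ (norm_nonneg a)
      nlinarith
    linarith
  have h3 := h1.trans h2
  rw [← sq_abs]
  calc |incr Λ s (a, b)| ^ 2 ≤ (s * (‖b‖ + ‖a‖)) ^ 2 := pow_le_pow_left₀ (abs_nonneg _) h3 2
    _ ≤ _ := by nlinarith [sq_nonneg (s * (‖b‖ - ‖a‖))]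

lemma cont_incr (hΛ : IsGood Λ) : Continuous (incr Λ s) := by
  unfold incr
  have := good_cont hΛ
  fun_prop

/-- The event of the right side. -/
def ev (Λ : (ι → ℝ) → ℝ) (s t : ℝ) : Set ((ι → ℝ) × (ι → ℝ)) :=
  {p | t - |incr Λ s p| < Λ p.1}

lemma meas_ev (hΛ : IsGood Λ) (t : ℝ) : MeasurableSet (ev Λ s t) := by
  have h1 := (cont_incr (s := s) hΛ).measurable
  have h2 := (good_cont hΛ).measurable
  exact measurableSet_lt (measurable_const.sub h1.abs) (h2.comp measurable_fst)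

lemma good_incr (hΛ : IsGood Λ) (hs : 0 < s) (hs1 : s ≤ 1) {T g C : ℝ}
    (hg : s * T ≤ g) (hC : 0 ≤ C) {a q : ι → ℝ}
    (hq : ∀ b, Λ a + pair b q ≤ Λ (a + b))
    (hq2 : ∀ b, ‖b‖ ≤ g → Λ (a + b) ≤ Λ a + pair b q + C * ‖b‖ ^ 2)
    {b : ι → ℝ} (ha : ‖a‖ ≤ T) (hb : ‖b‖ ≤ T) :
    incr Λ s (a, b) ^ 2 ≤ s ^ 2 * pair b q ^ 2 + 2 * s * T * (s ^ 2 * (C * T ^ 2 + T)) +
      (s ^ 2 * (C * T ^ 2 + T)) ^ 2 := by
  have hT : 0 ≤ T := (norm_nonneg a).trans ha
  have hn : ‖s • b‖ = s * ‖b‖ := by rw [norm_smul, Real.norm_eq_abs, abs_of_pos hs]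
  set X := s * pair b q with hX
  have hXabs : |X| ≤ s * T := by
    rw [hX, abs_mul, abs_of_pos hs]
    exact mul_le_mul_of_nonneg_left ((abs_pair_le hΛ hq b).trans hb) hs.le
  have h1 := hq (s • b)
  have h2 := hq2 (s • b) (by rw [hn]; exact (mul_le_mul_of_nonneg_left hb hs.le).trans hg)
  rw [pair_smul, ← hX] at h1 h2
  rw [hn] at h2
  have hb2 : ‖b‖ ^ 2 ≤ T ^ 2 := pow_le_pow_left₀ (norm_nonneg b) hb 2
  have h3 : C * (s * ‖b‖) ^ 2 ≤ C * T ^ 2 * s ^ 2 := by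
    have : C * s ^ 2 * ‖b‖ ^ 2 ≤ C * s ^ 2 * T ^ 2 := mul_le_mul_of_nonneg_left hb2 (by positivity)
    nlinarith
  have r1 := rho_pos s
  have r2 := rho_le_one s
  have r3 := one_sub_rho_le hs hs1
  have r4 := good_le hΛ a
  have r5 := hΛ.nonneg a
  set c := s ^ 2 * (C * T ^ 2 + T) with hc
  have hc0 : 0 ≤ c := by positivity
  set e := Λ (a + s • b) - Λ a - X with he
  have he0 : 0 ≤ e := by linarith
  have he1 : e ≤ C * T ^ 2 * s ^ 2 := by linarith
  have hD : incr Λ s (a, b) = rho s * X + (rho s * e - (1 - rho s) * Λ a) := by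
    simp only [incr, he]; ring
  have hY : |rho s * e - (1 - rho s) * Λ a| ≤ c := by
    have y1 : 0 ≤ rho s * e := by positivity
    have y2 : rho s * e ≤ C * T ^ 2 * s ^ 2 := by nlinarith
    have y3 : 0 ≤ (1 - rho s) * Λ a := mul_nonneg (by linarith) r5
    have y4 : (1 - rho s) * Λ a ≤ s ^ 2 / 2 * T := by
      apply mul_le_mul r3 (r4.trans ha) r5 (by positivity)
    have y5 : 0 ≤ C * T ^ 2 * s ^ 2 := by positivity
    have y6 : 0 ≤ s ^ 2 * T := by positivity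
    rw [abs_le]
    constructor
    · rw [hc]; nlinarith
    · rw [hc]; nlinarith
  have hDabs : |incr Λ s (a, b)| ≤ |X| + c := by
    rw [hD]
    refine (abs_add_le _ _).trans ?_
    have : |rho s * X| ≤ |X| := by
      rw [abs_mul, abs_of_pos r1]
      nlinarith [abs_nonneg X]
    linarith
  have e1 : s ^ 2 * pair b q ^ 2 = |X| ^ 2 := by rw [sq_abs, hX]; ring
  rw [e1, ← sq_abs (incr Λ s (a, b))]
  calc |incr Λ s (a, b)| ^ 2 ≤ (|X| + c) ^ 2 := pow_le_pow_left₀ (abs_nonneg _) hDabs 2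
    _ = |X| ^ 2 + 2 * |X| * c + c ^ 2 := by ring
    _ ≤ _ := by nlinarith

/-- The bound for the inner integral of the right side. -/
lemma right_inner (hI : Integrable (fun a : ι → ℝ => ‖a‖ ^ 2) (gm ι)) (hΛ : IsGood Λ)
    {Bad : Set (ι → ℝ)} {t S ε g C T : ℝ} (hS : 0 ≤ S) (hC : 0 ≤ C)
    (hs : 0 < s) (hs1 : s ≤ 1) (hT : 1 ≤ T) (hg : s * T ≤ g)
    (hL : LocQuad Λ Bad (t - 2 * s * T) S ε g C) (a : ι → ℝ) :
    ∫ b, (ev Λ s t).indicator (fun p => incr Λ s p ^ 2) (a, b) ∂(gm ι) ≤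
      s ^ 2 * (S + 2 * s * T * (C * T ^ 2 + T) + s ^ 2 * (C * T ^ 2 + T) ^ 2) *
        {a : ι → ℝ | t - 2 * s * T < Λ a}.indicator (fun _ => (1 : ℝ)) a +
      2 * s ^ 2 * (mu2 ι + T ^ 2) * Bad.indicator (fun _ => (1 : ℝ)) a +
      2 * s ^ 2 * (eta ι T + ‖a‖ ^ 2 * (gm ι).real {b : ι → ℝ | T < ‖b‖} +
        mu2 ι * {a : ι → ℝ | T < ‖a‖}.indicator (fun _ => (1 : ℝ)) a +
        {a : ι → ℝ | T < ‖a‖}.indicator (fun a => ‖a‖ ^ 2) a) := by
  classical
  set c2 := C * T ^ 2 + T with hc2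
  have hc20 : 0 ≤ c2 := by positivity
  set κ : ℝ := {a : ι → ℝ | t - 2 * s * T < Λ a}.indicator (fun _ => (1 : ℝ)) a with hκ
  set β : ℝ := Bad.indicator (fun _ => (1 : ℝ)) a with hβ
  set χ : ℝ := {a : ι → ℝ | T < ‖a‖}.indicator (fun _ => (1 : ℝ)) a with hχ
  have hκ0 : 0 ≤ κ := Set.indicator_nonneg (fun _ _ => zero_le_one) _
  have hβ0 : 0 ≤ β := Set.indicator_nonneg (fun _ _ => zero_le_one) _
  have hχ0 : 0 ≤ χ := Set.indicator_nonneg (fun _ _ => zero_le_one) _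
  have hχ2 : {a : ι → ℝ | T < ‖a‖}.indicator (fun a => ‖a‖ ^ 2) a = ‖a‖ ^ 2 * χ := by
    rw [hχ]
    by_cases ha : a ∈ {a : ι → ℝ | T < ‖a‖}
    · rw [Set.indicator_of_mem ha, Set.indicator_of_mem ha, mul_one]
    · rw [Set.indicator_of_notMem ha, Set.indicator_of_notMem ha, mul_zero]
  rw [hχ2]
  -- choice of the vector
  have hq : ∃ q : ι → ℝ, κ * sq q ≤ κ * S ∧ ∀ b : ι → ℝ,
      (ev Λ s t).indicator (fun p => incr Λ s p ^ 2) (a, b) ≤
        κ * (s ^ 2 * pair b q ^ 2 + (2 * s * T * (s ^ 2 * c2) + (s ^ 2 * c2) ^ 2)) +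
        β * (2 * s ^ 2 * (‖b‖ ^ 2 + T ^ 2)) +
        2 * s ^ 2 * ({b : ι → ℝ | T < ‖b‖}.indicator (fun b => ‖b‖ ^ 2) b +
          ‖a‖ ^ 2 * {b : ι → ℝ | T < ‖b‖}.indicator (fun _ => (1 : ℝ)) b +
          ‖b‖ ^ 2 * χ + ‖a‖ ^ 2 * χ) := by
    -- the generic bound
    have gen : ∀ b : ι → ℝ, (ev Λ s t).indicator (fun p => incr Λ s p ^ 2) (a, b) ≤
        2 * s ^ 2 * (‖b‖ ^ 2 + ‖a‖ ^ 2) := by
      intro b
      by_cases hb : (a, b) ∈ ev Λ s t
      · rw [Set.indicator_of_mem hb]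
        exact incr_sq_le hΛ hs hs1 a b
      · rw [Set.indicator_of_notMem hb]
        positivity
    have t1 : ∀ b : ι → ℝ, 0 ≤ {b : ι → ℝ | T < ‖b‖}.indicator (fun b => ‖b‖ ^ 2) b :=
      fun b => Set.indicator_nonneg (fun _ _ => by positivity) _
    have t2 : ∀ b : ι → ℝ, 0 ≤ {b : ι → ℝ | T < ‖b‖}.indicator (fun _ => (1 : ℝ)) b :=
      fun b => Set.indicator_nonneg (fun _ _ => zero_le_one) _
    have pos1 : ∀ (q b : ι → ℝ), 0 ≤ κ * (s ^ 2 * pair b q ^ 2 +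
        (2 * s * T * (s ^ 2 * c2) + (s ^ 2 * c2) ^ 2)) := fun q b => by positivity
    have pos2 : ∀ b : ι → ℝ, 0 ≤ β * (2 * s ^ 2 * (‖b‖ ^ 2 + T ^ 2)) := fun b => by positivity
    have pos3 : ∀ b : ι → ℝ, 0 ≤ 2 * s ^ 2 * ({b : ι → ℝ | T < ‖b‖}.indicator
        (fun b => ‖b‖ ^ 2) b + ‖a‖ ^ 2 * {b : ι → ℝ | T < ‖b‖}.indicator (fun _ => (1 : ℝ)) b +
          ‖b‖ ^ 2 * χ + ‖a‖ ^ 2 * χ) := fun b => by
      have := t1 b
      have := t2 b
      positivity
    by_cases haT : T < ‖a‖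
    · have hχ1 : χ = 1 := by
        rw [hχ, Set.indicator_of_mem (by exact haT)]
      refine ⟨0, by simp only [sq]; simp; positivity, fun b => ?_⟩
      have g1 := gen b
      have g2 := pos1 0 b
      have g3 := pos2 b
      have g4 := t1 b
      have g5 := t2 b
      rw [hχ1]
      have g6 : 0 ≤ ‖a‖ ^ 2 * {b : ι → ℝ | T < ‖b‖}.indicator (fun _ => (1 : ℝ)) b := by positivity
      have g7 : 2 * s ^ 2 * (‖b‖ ^ 2 + ‖a‖ ^ 2) ≤
          2 * s ^ 2 * ({b : ι → ℝ | T < ‖b‖}.indicator (fun b => ‖b‖ ^ 2) b +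
          ‖a‖ ^ 2 * {b : ι → ℝ | T < ‖b‖}.indicator (fun _ => (1 : ℝ)) b +
          ‖b‖ ^ 2 * 1 + ‖a‖ ^ 2 * 1) := mul_le_mul_of_nonneg_left (by linarith) (by positivity)
      linarith
    · rw [not_lt] at haT
      -- if `b` is large the third term suffices
      have big : ∀ b : ι → ℝ, T < ‖b‖ → (ev Λ s t).indicator (fun p => incr Λ s p ^ 2) (a, b) ≤
          2 * s ^ 2 * ({b : ι → ℝ | T < ‖b‖}.indicator (fun b => ‖b‖ ^ 2) b +
          ‖a‖ ^ 2 * {b : ι → ℝ | T < ‖b‖}.indicator (fun _ => (1 : ℝ)) b +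
          ‖b‖ ^ 2 * χ + ‖a‖ ^ 2 * χ) := by
        intro b hb
        refine (gen b).trans ?_
        rw [Set.indicator_of_mem (by exact hb), Set.indicator_of_mem (by exact hb)]
        refine mul_le_mul_of_nonneg_left ?_ (by positivity)
        have : 0 ≤ ‖b‖ ^ 2 * χ := by positivity
        have : 0 ≤ ‖a‖ ^ 2 * χ := by positivity
        linarith
      by_cases haB : a ∈ Bad
      · refine ⟨0, by simp only [sq]; simp; positivity, fun b => ?_⟩
        have hβ1 : β = 1 := by rw [hβ, Set.indicator_of_mem haB]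
        have g1 := gen b
        have g2 := pos1 0 b
        have g3 := pos3 b
        have g4 : ‖a‖ ^ 2 ≤ T ^ 2 := pow_le_pow_left₀ (norm_nonneg a) haT 2
        have g5 : 2 * s ^ 2 * (‖b‖ ^ 2 + ‖a‖ ^ 2) ≤ β * (2 * s ^ 2 * (‖b‖ ^ 2 + T ^ 2)) := by
          rw [hβ1, one_mul]
          exact mul_le_mul_of_nonneg_left (by linarith) (by positivity)
        linarith
      · by_cases hΛt : t - 2 * s * T < Λ a
        · obtain ⟨q, -, hqS, hq1, hq2⟩ := hL a haB hΛt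
          refine ⟨q, mul_le_mul_of_nonneg_left hqS hκ0, fun b => ?_⟩
          have hκ1 : κ = 1 := by rw [hκ, Set.indicator_of_mem (by exact hΛt)]
          by_cases hb : T < ‖b‖
          · have g1 := big b hb
            have g2 := pos1 q b
            have g3 := pos2 b
            linarith
          · rw [not_lt] at hb
            have g3 := pos2 b
            have g4 := pos3 b
            have g5 := good_incr hΛ hs hs1 hg hC hq1 hq2 haT hb
            have g6 : (ev Λ s t).indicator (fun p => incr Λ s p ^ 2) (a, b) ≤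
                incr Λ s (a, b) ^ 2 :=
              Set.indicator_le_self' (fun _ _ => by positivity) _
            rw [hκ1, one_mul]
            linarith
        · refine ⟨0, by simp only [sq]; simp; positivity, fun b => ?_⟩
          by_cases hb : T < ‖b‖
          · have g1 := big b hb
            have g2 := pos1 0 b
            have g3 := pos2 b
            linarith
          · rw [not_lt] at hb hΛt
            have hD := abs_incr_le hΛ hs hs1 a b
            have hD2 : |incr Λ s (a, b)| ≤ 2 * s * T := by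
              have d1 : s * ‖b‖ ≤ s * T := mul_le_mul_of_nonneg_left hb hs.le
              have d2 : s ^ 2 / 2 * ‖a‖ ≤ s * T := by
                apply mul_le_mul (by nlinarith) haT (norm_nonneg _) hs.le
              linarith
            have hnot : (a, b) ∉ ev Λ s t := by
              intro h
              have h' : t - |incr Λ s (a, b)| < Λ a := h
              linarith
            rw [Set.indicator_of_notMem hnot]
            have g2 := pos1 0 b
            have g3 := pos2 b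
            have g4 := pos3 b
            linarith
  obtain ⟨q, hqS, hbd⟩ := hq
  -- integrability
  have hm : Measurable fun b : ι → ℝ => (ev Λ s t).indicator (fun p => incr Λ s p ^ 2) (a, b) :=
    (((cont_incr (s := s) hΛ).measurable.pow_const 2).indicator (meas_ev hΛ t)).comp
      measurable_prodMk_left
  have hint : Integrable (fun b : ι → ℝ =>
      (ev Λ s t).indicator (fun p => incr Λ s p ^ 2) (a, b)) (gm ι) := by
    refine Integrable.mono' (g := fun b : ι → ℝ => 2 * s ^ 2 * (‖b‖ ^ 2 + ‖a‖ ^ 2))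
      ((hI.add (integrable_const _)).const_mul _) hm.aestronglyMeasurable
      (Filter.Eventually.of_forall fun b => ?_)
    rw [Real.norm_eq_abs, abs_of_nonneg (Set.indicator_nonneg (fun _ _ => by positivity) _)]
    refine (Set.indicator_le_self' (fun _ _ => by positivity) _).trans ?_
    exact incr_sq_le hΛ hs hs1 a b
  have ip : Integrable (fun b : ι → ℝ => pair b q ^ 2) (gm ι) := (memLp_pair q).integrable_sq
  have j1 : Integrable (fun b : ι → ℝ => κ * (s ^ 2 * pair b q ^ 2 +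
      (2 * s * T * (s ^ 2 * c2) + (s ^ 2 * c2) ^ 2))) (gm ι) :=
    ((ip.const_mul _).add (integrable_const _)).const_mul _
  have j2 : Integrable (fun b : ι → ℝ => β * (2 * s ^ 2 * (‖b‖ ^ 2 + T ^ 2))) (gm ι) :=
    ((hI.add (integrable_const _)).const_mul _).const_mul _
  have k1 : Integrable (fun b : ι → ℝ =>
      {b : ι → ℝ | T < ‖b‖}.indicator (fun b => ‖b‖ ^ 2) b) (gm ι) := hI.indicator (meas_tail T)
  have k2 : Integrable (fun b : ι → ℝ => ‖a‖ ^ 2 *
      {b : ι → ℝ | T < ‖b‖}.indicator (fun _ => (1 : ℝ)) b) (gm ι) :=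
    ((integrable_const (1 : ℝ)).indicator (meas_tail T)).const_mul _
  have k3 : Integrable (fun b : ι → ℝ => ‖b‖ ^ 2 * χ) (gm ι) := hI.mul_const _
  have k12 : Integrable (fun b : ι → ℝ => {b : ι → ℝ | T < ‖b‖}.indicator (fun b => ‖b‖ ^ 2) b +
      ‖a‖ ^ 2 * {b : ι → ℝ | T < ‖b‖}.indicator (fun _ => (1 : ℝ)) b) (gm ι) := k1.add k2
  have k123 : Integrable (fun b : ι → ℝ => {b : ι → ℝ | T < ‖b‖}.indicator (fun b => ‖b‖ ^ 2) b +
      ‖a‖ ^ 2 * {b : ι → ℝ | T < ‖b‖}.indicator (fun _ => (1 : ℝ)) b + ‖b‖ ^ 2 * χ) (gm ι) :=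
    k12.add k3
  have j3 : Integrable (fun b : ι → ℝ => 2 * s ^ 2 *
      ({b : ι → ℝ | T < ‖b‖}.indicator (fun b => ‖b‖ ^ 2) b +
      ‖a‖ ^ 2 * {b : ι → ℝ | T < ‖b‖}.indicator (fun _ => (1 : ℝ)) b + ‖b‖ ^ 2 * χ +
      ‖a‖ ^ 2 * χ)) (gm ι) := (k123.add (integrable_const _)).const_mul _
  have j12 : Integrable (fun b : ι → ℝ => κ * (s ^ 2 * pair b q ^ 2 +
      (2 * s * T * (s ^ 2 * c2) + (s ^ 2 * c2) ^ 2)) + β * (2 * s ^ 2 * (‖b‖ ^ 2 + T ^ 2)))
      (gm ι) := j1.add j2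
  have hfin : ∫ b, (ev Λ s t).indicator (fun p => incr Λ s p ^ 2) (a, b) ∂(gm ι) ≤
      ∫ b : ι → ℝ, (κ * (s ^ 2 * pair b q ^ 2 +
      (2 * s * T * (s ^ 2 * c2) + (s ^ 2 * c2) ^ 2)) + β * (2 * s ^ 2 * (‖b‖ ^ 2 + T ^ 2)) +
      2 * s ^ 2 * ({b : ι → ℝ | T < ‖b‖}.indicator (fun b => ‖b‖ ^ 2) b +
      ‖a‖ ^ 2 * {b : ι → ℝ | T < ‖b‖}.indicator (fun _ => (1 : ℝ)) b + ‖b‖ ^ 2 * χ +
      ‖a‖ ^ 2 * χ)) ∂(gm ι) := integral_mono hint (j12.add j3) hbd
  refine hfin.trans ?_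
  have hP : ∫ b, {b : ι → ℝ | T < ‖b‖}.indicator (fun _ => (1 : ℝ)) b ∂(gm ι) =
      (gm ι).real {b : ι → ℝ | T < ‖b‖} := by
    rw [integral_indicator (meas_tail T)]
    simp [Measure.real]
  have hmu : ∫ b : ι → ℝ, ‖b‖ ^ 2 ∂(gm ι) = mu2 ι := rfl
  have E1 : ∫ b : ι → ℝ, κ * (s ^ 2 * pair b q ^ 2 +
      (2 * s * T * (s ^ 2 * c2) + (s ^ 2 * c2) ^ 2)) ∂(gm ι) =
      κ * (s ^ 2 * sq q + (2 * s * T * (s ^ 2 * c2) + (s ^ 2 * c2) ^ 2)) := by
    rw [integral_const_mul, integral_add (ip.const_mul _) (integrable_const _),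
      integral_const_mul, integral_pair_sq]
    simp
  have E2 : ∫ b : ι → ℝ, β * (2 * s ^ 2 * (‖b‖ ^ 2 + T ^ 2)) ∂(gm ι) =
      β * (2 * s ^ 2 * (mu2 ι + T ^ 2)) := by
    rw [integral_const_mul, integral_const_mul, integral_add hI (integrable_const _), hmu]
    simp
  have E3 : ∫ b : ι → ℝ, 2 * s ^ 2 *
      ({b : ι → ℝ | T < ‖b‖}.indicator (fun b => ‖b‖ ^ 2) b +
      ‖a‖ ^ 2 * {b : ι → ℝ | T < ‖b‖}.indicator (fun _ => (1 : ℝ)) b + ‖b‖ ^ 2 * χ +
      ‖a‖ ^ 2 * χ) ∂(gm ι) = 2 * s ^ 2 * (eta ι T + ‖a‖ ^ 2 *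
        (gm ι).real {b : ι → ℝ | T < ‖b‖} + mu2 ι * χ + ‖a‖ ^ 2 * χ) := by
    rw [integral_const_mul, integral_add k123 (integrable_const _), integral_add k12 k3,
      integral_add k1 k2, integral_const_mul, integral_mul_const, hP, hmu, ← eta_eq]
    simp
  rw [integral_add j12 j3, integral_add j1 j2, E1, E2, E3]
  have hs2 : 0 ≤ s ^ 2 := by positivity
  have hk : κ * (s ^ 2 * sq q) ≤ κ * (s ^ 2 * S) := by
    have := mul_le_mul_of_nonneg_left hqS hs2
    linarith [this, (by ring : s ^ 2 * (κ * sq q) = κ * (s ^ 2 * sq q)),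
      (by ring : s ^ 2 * (κ * S) = κ * (s ^ 2 * S))]
  have e1 : κ * (s ^ 2 * sq q + (2 * s * T * (s ^ 2 * c2) + (s ^ 2 * c2) ^ 2)) ≤
      s ^ 2 * (S + 2 * s * T * c2 + s ^ 2 * c2 ^ 2) * κ := by
    have : s ^ 2 * (S + 2 * s * T * c2 + s ^ 2 * c2 ^ 2) * κ =
        κ * (s ^ 2 * S) + κ * (2 * s * T * (s ^ 2 * c2) + (s ^ 2 * c2) ^ 2) := by ring
    rw [this, mul_add]
    linarith
  have e2 : β * (2 * s ^ 2 * (mu2 ι + T ^ 2)) = 2 * s ^ 2 * (mu2 ι + T ^ 2) * β := by ring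
  linarith

/-- The bound for the right side. -/
lemma right_bound (hI : Integrable (fun a : ι → ℝ => ‖a‖ ^ 2) (gm ι)) (hΛ : IsGood Λ)
    {Bad : Set (ι → ℝ)} (hB : MeasurableSet Bad) {t S ε g C T : ℝ} (hS : 0 ≤ S) (hC : 0 ≤ C)
    (hs : 0 < s) (hs1 : s ≤ 1) (hT : 1 ≤ T) (hg : s * T ≤ g)
    (hL : LocQuad Λ Bad (t - 2 * s * T) S ε g C)
    (hF : Integrable (fun p => incr Λ s p ^ 2) ((gm ι).prod (gm ι))) :
    ∫ p in {p | t - |incr Λ s p| < Λ p.1}, incr Λ s p ^ 2 ∂((gm ι).prod (gm ι)) ≤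
      s ^ 2 * (S + 2 * s * T * (C * T ^ 2 + T) + s ^ 2 * (C * T ^ 2 + T) ^ 2) *
        tl Λ (t - 2 * s * T) +
      2 * s ^ 2 * (mu2 ι + T ^ 2) * (gm ι).real Bad +
      4 * s ^ 2 * ((1 + mu2 ι) * eta ι T) := by
  have hmu : 0 ≤ mu2 ι := mu2_nonneg
  have heta : 0 ≤ eta ι T := eta_nonneg T
  have hmeas := meas_ev (s := s) hΛ t
  have hFi : Integrable ((ev Λ s t).indicator (fun p => incr Λ s p ^ 2))
      ((gm ι).prod (gm ι)) := hF.indicator hmeas
  have e0 : ∫ p in {p | t - |incr Λ s p| < Λ p.1}, incr Λ s p ^ 2 ∂((gm ι).prod (gm ι)) =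
      ∫ p, (ev Λ s t).indicator (fun p => incr Λ s p ^ 2) p ∂((gm ι).prod (gm ι)) :=
    (integral_indicator hmeas).symm
  rw [e0, integral_prod _ hFi]
  set W := s ^ 2 * (S + 2 * s * T * (C * T ^ 2 + T) + s ^ 2 * (C * T ^ 2 + T) ^ 2) with hW
  set P := (gm ι).real {b : ι → ℝ | T < ‖b‖} with hP
  have hP' : P ≤ eta ι T := prob_le_eta hI hT
  have hmL : MeasurableSet {a : ι → ℝ | t - 2 * s * T < Λ a} :=
    measurableSet_lt measurable_const (good_cont hΛ).measurable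
  have i1 : Integrable (fun a => W * {a : ι → ℝ | t - 2 * s * T < Λ a}.indicator
      (fun _ => (1 : ℝ)) a) (gm ι) := ((integrable_const (1 : ℝ)).indicator hmL).const_mul _
  have i2 : Integrable (fun a => 2 * s ^ 2 * (mu2 ι + T ^ 2) *
      Bad.indicator (fun _ : ι → ℝ => (1 : ℝ)) a) (gm ι) :=
    ((integrable_const (1 : ℝ)).indicator hB).const_mul _
  have k1 : Integrable (fun a : ι → ℝ => eta ι T + ‖a‖ ^ 2 * P) (gm ι) :=
    (integrable_const _).add (hI.mul_const _)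
  have k2 : Integrable (fun a : ι → ℝ => mu2 ι *
      {a : ι → ℝ | T < ‖a‖}.indicator (fun _ => (1 : ℝ)) a) (gm ι) :=
    ((integrable_const (1 : ℝ)).indicator (meas_tail T)).const_mul _
  have k3 : Integrable (fun a : ι → ℝ =>
      {a : ι → ℝ | T < ‖a‖}.indicator (fun a => ‖a‖ ^ 2) a) (gm ι) := hI.indicator (meas_tail T)
  have k12 : Integrable (fun a : ι → ℝ => eta ι T + ‖a‖ ^ 2 * P + mu2 ι *
      {a : ι → ℝ | T < ‖a‖}.indicator (fun _ => (1 : ℝ)) a) (gm ι) := k1.add k2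
  have i3 : Integrable (fun a : ι → ℝ => 2 * s ^ 2 * (eta ι T + ‖a‖ ^ 2 * P +
        mu2 ι * {a : ι → ℝ | T < ‖a‖}.indicator (fun _ => (1 : ℝ)) a +
        {a : ι → ℝ | T < ‖a‖}.indicator (fun a => ‖a‖ ^ 2) a)) (gm ι) :=
    (k12.add k3).const_mul _
  have i12 : Integrable (fun a => W * {a : ι → ℝ | t - 2 * s * T < Λ a}.indicator
      (fun _ => (1 : ℝ)) a + 2 * s ^ 2 * (mu2 ι + T ^ 2) *
      Bad.indicator (fun _ : ι → ℝ => (1 : ℝ)) a) (gm ι) := i1.add i2
  have hmono : ∫ a, ∫ b, (ev Λ s t).indicator (fun p => incr Λ s p ^ 2) (a, b) ∂(gm ι) ∂(gm ι) ≤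
      ∫ a : ι → ℝ, (W * {a : ι → ℝ | t - 2 * s * T < Λ a}.indicator (fun _ => (1 : ℝ)) a +
      2 * s ^ 2 * (mu2 ι + T ^ 2) * Bad.indicator (fun _ : ι → ℝ => (1 : ℝ)) a +
      2 * s ^ 2 * (eta ι T + ‖a‖ ^ 2 * P +
        mu2 ι * {a : ι → ℝ | T < ‖a‖}.indicator (fun _ => (1 : ℝ)) a +
        {a : ι → ℝ | T < ‖a‖}.indicator (fun a => ‖a‖ ^ 2) a)) ∂(gm ι) :=
    integral_mono hFi.integral_prod_left (i12.add i3)
      (fun a => right_inner hI hΛ hS hC hs hs1 hT hg hL a)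
  refine hmono.trans ?_
  have hone : ∀ A : Set (ι → ℝ), MeasurableSet A →
      ∫ a, A.indicator (fun _ : ι → ℝ => (1 : ℝ)) a ∂(gm ι) = (gm ι).real A := by
    intro A hA
    rw [integral_indicator hA]
    simp [Measure.real]
  have hmu' : ∫ b : ι → ℝ, ‖b‖ ^ 2 ∂(gm ι) = mu2 ι := rfl
  have E3 : ∫ a : ι → ℝ, 2 * s ^ 2 * (eta ι T + ‖a‖ ^ 2 * P +
        mu2 ι * {a : ι → ℝ | T < ‖a‖}.indicator (fun _ => (1 : ℝ)) a +
        {a : ι → ℝ | T < ‖a‖}.indicator (fun a => ‖a‖ ^ 2) a) ∂(gm ι) =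
      2 * s ^ 2 * (eta ι T + mu2 ι * P + mu2 ι * P + eta ι T) := by
    rw [integral_const_mul, integral_add k12 k3, integral_add k1 k2,
      integral_add (integrable_const _) (hI.mul_const _), integral_mul_const, integral_const_mul,
      hone _ (meas_tail T), hmu', ← eta_eq, ← hP]
    simp
  rw [integral_add i12 i3, integral_add i1 i2, integral_const_mul, integral_const_mul,
    hone _ hmL, hone _ hB, E3]
  have htl : (gm ι).real {a : ι → ℝ | t - 2 * s * T < Λ a} = tl Λ (t - 2 * s * T) := rfl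
  rw [htl]
  have : 2 * s ^ 2 * (eta ι T + mu2 ι * P + mu2 ι * P + eta ι T) ≤
      4 * s ^ 2 * ((1 + mu2 ι) * eta ι T) := by
    have h1 : mu2 ι * P ≤ mu2 ι * eta ι T := mul_le_mul_of_nonneg_left hP' hmu
    have h2 : 0 ≤ 2 * s ^ 2 := by positivity
    calc 2 * s ^ 2 * (eta ι T + mu2 ι * P + mu2 ι * P + eta ι T)
        ≤ 2 * s ^ 2 * (eta ι T + mu2 ι * eta ι T + mu2 ι * eta ι T + eta ι T) :=
          mul_le_mul_of_nonneg_left (by linarith) h2
      _ = _ := by ring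
  linarith

end right

end SU

/-- The upper inequality for the excess moments. -/
theorem smoothUpper (h : SmoothPair) (hG : GaussSup) : SmoothUpper := by
  intro ι _ Λ Bad t S ε g C s T hΛ hB hS _ _ _ hC hs hs1 hT hg ht _ hL
  have hT0 : 0 < T := by linarith
  rcases isEmpty_or_nonempty ι with hE | hne
  · -- the empty case
    have hΛ0 : ∀ a, Λ a = 0 := fun a => by
      rw [Subsingleton.elim a 0]; exact SU.good_zero hΛ
    have e1 : h1 Λ t = 0 := by
      unfold h1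
      simp [hΛ0, ht.le]
    have e2 : h2 Λ t = 0 := by
      unfold h2
      simp [hΛ0, ht.le]
    rw [e1, e2]
    have m := SU.mu2_nonneg (ι := ι)
    have et := SU.eta_nonneg (ι := ι) T
    have tn : 0 ≤ tl Λ (t - 2 * s * T) := measureReal_nonneg
    have bn : 0 ≤ (gm ι).real Bad := measureReal_nonneg
    have : 0 ≤ (S + 2 * s * T * (C * T ^ 2 + T) + s ^ 2 * (C * T ^ 2 + T) ^ 2) *
        tl Λ (t - 2 * s * T) + (2 * C * mu2 ι + 4 * eta ι T / s) * 0 +
      2 / s * (1 + mu2 ι) * (T * (gm ι).real Bad + eta ι T) +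
      2 * (mu2 ι + T ^ 2) * (gm ι).real Bad + 4 * (1 + mu2 ι) * eta ι T := by positivity
    simpa using this
  · obtain ⟨hI, -, -, -⟩ := hG ι
    obtain ⟨f1, f2, hup, -⟩ := h ι Λ t s hΛ hs hs1 ht
    have ht0 : t - 2 * s * T ≤ t := by
      have : 0 ≤ 2 * s * T := by positivity
      linarith
    have hl := SU.left_bound hI hΛ hB hC hs hs1 hT hg ht ht0 hL f2
    have hr := SU.right_bound hI hΛ hB hS.le hC hs hs1 hT hg hL f1
    have key := hl.trans (hup.trans (mul_le_mul_of_nonneg_left hr (by norm_num)))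
    have hs2 : 0 < 2 / s ^ 2 := by positivity
    have key2 := mul_le_mul_of_nonneg_left key hs2.le
    have hsne : s ≠ 0 := hs.ne'
    have L : 2 / s ^ 2 * (s ^ 2 / 2 * (1 - s ^ 2) * (t * h1 Λ t + h2 Λ t) -
        (C * s ^ 2 * mu2 ι + 2 * s * eta ι T) * h1 Λ t -
        s * (1 + mu2 ι) * (T * (gm ι).real Bad + eta ι T)) =
        (1 - s ^ 2) * (t * h1 Λ t + h2 Λ t) - (2 * C * mu2 ι + 4 * eta ι T / s) * h1 Λ t -
        2 / s * (1 + mu2 ι) * (T * (gm ι).real Bad + eta ι T) := by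
      field_simp
      ring
    have R : 2 / s ^ 2 * (1 / 2 * (s ^ 2 * (S + 2 * s * T * (C * T ^ 2 + T) +
        s ^ 2 * (C * T ^ 2 + T) ^ 2) * tl Λ (t - 2 * s * T) +
        2 * s ^ 2 * (mu2 ι + T ^ 2) * (gm ι).real Bad +
        4 * s ^ 2 * ((1 + mu2 ι) * eta ι T))) =
        (S + 2 * s * T * (C * T ^ 2 + T) + s ^ 2 * (C * T ^ 2 + T) ^ 2) *
        tl Λ (t - 2 * s * T) + 2 * (mu2 ι + T ^ 2) * (gm ι).real Bad +
        4 * (1 + mu2 ι) * eta ι T := by
      field_simp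
    rw [L, R] at key2
    linarith

end Pool.Agent.Work.MP_3574a2_pr
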