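import Pool.Agent.Work.MP_3574a2_pr.Claims

set_option autoImplicit false

/-!
# MP_3574a2_pr : basic facts on the functional of a system
-/

namespace Pool.Agent.Work.MP_3574a2_pr

open MeasureTheory ProbabilityTheory

theorem pair_add_left {ι : Type} [Fintype ι] (a b q : ι → ℝ) :
    pair (a + b) q = pair a q + pair b q := by
  unfold pair
  rw [← Finset.sum_add_distrib]
  refine Finset.sum_congr rfl fun j _ => ?_
  simp [add_mul]

theorem pair_smul_left {ι : Type} [Fintype ι] (c : ℝ) (a q : ι → ℝ) :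
    pair (c • a) q = c * pair a q := by
  unfold pair
  rw [Finset.mul_sum]
  refine Finset.sum_congr rfl fun j _ => ?_
  simp [mul_assoc]

theorem abs_pair_le {ι : Type} [Fintype ι] (b q : ι → ℝ) (hq : ∀ j, 0 ≤ q j)
    (hs : ∑ j, q j ≤ 1) : |pair b q| ≤ ‖b‖ := by
  unfold pair
  calc |∑ j, b j * q j| ≤ ∑ j, |b j * q j| := Finset.abs_sum_le_sum_abs _ _
    _ ≤ ∑ j, ‖b‖ * q j := by
        refine Finset.sum_le_sum fun j _ => ?_
        rw [abs_mul, abs_of_nonneg (hq j)]
        refine mul_le_mul_of_nonneg_right ?_ (hq j)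
        have := norm_le_pi_norm b j
        rwa [Real.norm_eq_abs] at this
    _ = ‖b‖ * ∑ j, q j := by rw [Finset.mul_sum]
    _ ≤ ‖b‖ * 1 := mul_le_mul_of_nonneg_left hs (norm_nonneg _)
    _ = ‖b‖ := mul_one _

section

variable {ι : Type} [Fintype ι] {E : Type} [NormedAddCommGroup E] [InnerProductSpace ℂ E]

theorem qv_nonneg (ξ : ι → E) (w : E) (j : ι) : 0 ≤ qv ξ w j := sq_nonneg _

theorem continuous_qv (ξ : ι → E) (j : ι) : Continuous fun w : E => qv ξ w j := by
  unfold qv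
  exact ((continuous_const.inner continuous_id).norm).pow 2

theorem qv_zero (ξ : ι → E) : qv ξ (0 : E) = 0 := by
  funext j
  simp [qv]

theorem sum_qv_le (ξ : ι → E) (hB : Bessel ξ) (w : E) (hw : ‖w‖ ≤ 1) : ∑ j, qv ξ w j ≤ 1 := by
  refine (hB w).trans ?_
  have h0 := norm_nonneg w
  nlinarith

theorem continuous_pair_qv (ξ : ι → E) (a : ι → ℝ) : Continuous fun w : E => pair a (qv ξ w) := by
  unfold pair
  exact continuous_finsetSum _ fun j _ => continuous_const.mul (continuous_qv ξ j)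

theorem continuous_sq_qv (ξ : ι → E) : Continuous fun w : E => sq (qv ξ w) := by
  unfold sq
  exact continuous_finsetSum _ fun j _ => (continuous_qv ξ j).pow 2

theorem sup_ball [FiniteDimensional ℂ E] (F : E → ℝ) (hF : Continuous F) :
    (∃ w : E, ‖w‖ ≤ 1 ∧ F w = sSup (F '' Metric.closedBall (0 : E) 1)) ∧
      ∀ w : E, ‖w‖ ≤ 1 → F w ≤ sSup (F '' Metric.closedBall (0 : E) 1) := by
  have : ProperSpace E := FiniteDimensional.proper ℂ E
  obtain ⟨w, hw, h1, h2⟩ := (isCompact_closedBall (0 : E) 1).exists_sSup_image_eq_and_ge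
    ⟨0, Metric.mem_closedBall_self zero_le_one⟩ hF.continuousOn
  constructor
  · exact ⟨w, by simpa using hw, h1.symm⟩
  · intro v hv
    rw [h1]
    exact h2 v (by simpa using hv)

end

theorem sysGood : SysGood := by
  intro ι _ E _ _ _ ξ hB
  have hA : ∀ a : ι → ℝ, ∃ w : E, ‖w‖ ≤ 1 ∧ pair a (qv ξ w) = Lam ξ a := fun a =>
    (sup_ball (fun w => pair a (qv ξ w)) (continuous_pair_qv ξ a)).1
  have hL : ∀ a : ι → ℝ, ∀ w : E, ‖w‖ ≤ 1 → pair a (qv ξ w) ≤ Lam ξ a := fun a =>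
    (sup_ball (fun w => pair a (qv ξ w)) (continuous_pair_qv ξ a)).2
  have hS1 : ∃ w : E, ‖w‖ ≤ 1 ∧ sq (qv ξ w) = sig2 ξ :=
    (sup_ball (fun w => sq (qv ξ w)) (continuous_sq_qv ξ)).1
  have hS2 : ∀ w : E, ‖w‖ ≤ 1 → sq (qv ξ w) ≤ sig2 ξ :=
    (sup_ball (fun w => sq (qv ξ w)) (continuous_sq_qv ξ)).2
  have hlip : ∀ a b : ι → ℝ, |Lam ξ (a + b) - Lam ξ a| ≤ ‖b‖ := by
    intro a b
    obtain ⟨w1, hw1, h1⟩ := hA (a + b)
    obtain ⟨w0, hw0, h0⟩ := hA a
    have e1 := abs_le.1 (abs_pair_le b (qv ξ w1) (qv_nonneg ξ w1) (sum_qv_le ξ hB w1 hw1))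
    have e0 := abs_le.1 (abs_pair_le b (qv ξ w0) (qv_nonneg ξ w0) (sum_qv_le ξ hB w0 hw0))
    have l1 := hL a w1 hw1
    have l0 := hL (a + b) w0 hw0
    rw [pair_add_left] at h1 l0
    rw [abs_le]
    constructor <;> linarith [e1.1, e1.2, e0.1, e0.2]
  refine ⟨⟨?_, ?_, hlip, ?_⟩, ?_, hA, hL, hS1, hS2, ?_, ?_⟩
  · intro a
    have := hL a 0 (by simp)
    rw [qv_zero] at this
    simpa [pair] using this
  · intro c a hc
    apply le_antisymm
    · obtain ⟨w, hw, h⟩ := hA (c • a)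
      rw [← h, pair_smul_left]
      exact mul_le_mul_of_nonneg_left (hL a w hw) hc
    · obtain ⟨w, hw, h⟩ := hA a
      rw [← h, ← pair_smul_left]
      exact hL (c • a) w hw
  · intro a
    obtain ⟨w, hw, h⟩ := hA a
    refine ⟨qv ξ w, fun b => ?_⟩
    rw [← h, ← pair_add_left]
    exact hL (a + b) w hw
  · have : LipschitzWith 1 (Lam ξ) := by
      refine LipschitzWith.of_dist_le_mul fun x y => ?_
      have := hlip y (x - y)
      rw [add_sub_cancel] at this
      rw [Real.dist_eq, dist_eq_norm]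
      simpa using this
    exact this.continuous
  · have := hS2 0 (by simp)
    rw [qv_zero] at this
    simpa [sq] using this
  · obtain ⟨w, hw, h⟩ := hS1
    rw [← h]
    have hs := sum_qv_le ξ hB w hw
    unfold sq
    calc ∑ j, qv ξ w j ^ 2 ≤ ∑ j, qv ξ w j := by
          refine Finset.sum_le_sum fun j _ => ?_
          have h1 : qv ξ w j ≤ 1 :=
            (Finset.single_le_sum (fun i _ => qv_nonneg ξ w i) (Finset.mem_univ j)).trans hs
          have h0 := qv_nonneg ξ w j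
          nlinarith
      _ ≤ 1 := hs

end Pool.Agent.Work.MP_3574a2_pr
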