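import Pool.Agent.Work.MP_3574a2_pr.SysGood

set_option autoImplicit false

/-!
# MP_3574a2_pr : the local quadratic bound for the functional of a system
-/

namespace Pool.Agent.Work.MP_3574a2_pr

open MeasureTheory ProbabilityTheory

theorem six_id (x y : ℂ) :
    (‖x‖ ^ 2) ^ 2 + (‖y‖ ^ 2) ^ 2 + 1 / 4 * ((‖x + y‖ ^ 2) ^ 2 + (‖x - y‖ ^ 2) ^ 2 +
      (‖x + Complex.I * y‖ ^ 2) ^ 2 + (‖x - Complex.I * y‖ ^ 2) ^ 2) =
      2 * (‖x‖ ^ 2 + ‖y‖ ^ 2) ^ 2 := by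
  simp only [Complex.sq_norm, Complex.normSq_apply, Complex.add_re, Complex.add_im,
    Complex.sub_re, Complex.sub_im, Complex.mul_re, Complex.mul_im, Complex.I_re, Complex.I_im]
  ring

theorem sq_norm_add_complex (x y : ℂ) :
    ‖x + y‖ ^ 2 = ‖x‖ ^ 2 + ‖y‖ ^ 2 + 2 * ((starRingEnd ℂ) x * y).re := by
  simp only [Complex.sq_norm, Complex.normSq_apply, Complex.add_re, Complex.add_im,
    Complex.mul_re, Complex.conj_re, Complex.conj_im]
  ring

section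

variable {ι : Type} [Fintype ι] {E : Type} [NormedAddCommGroup E] [InnerProductSpace ℂ E]

/-- The real part of the polarised form. -/
noncomputable def cr (ξ : ι → E) (a : ι → ℝ) (x y : E) : ℝ :=
  ∑ j, a j * ((starRingEnd ℂ) (inner ℂ (ξ j) x : ℂ) * (inner ℂ (ξ j) y : ℂ)).re

theorem qv_smul (ξ : ι → E) (c : ℂ) (x : E) (j : ι) : qv ξ (c • x) j = ‖c‖ ^ 2 * qv ξ x j := by
  unfold qv
  rw [inner_smul_right, norm_mul, mul_pow]

theorem pair_qv_smul (ξ : ι → E) (a : ι → ℝ) (c : ℂ) (x : E) :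
    pair a (qv ξ (c • x)) = ‖c‖ ^ 2 * pair a (qv ξ x) := by
  unfold pair
  rw [Finset.mul_sum]
  refine Finset.sum_congr rfl fun j _ => ?_
  rw [qv_smul]
  ring

theorem sq_qv_smul (ξ : ι → E) (c : ℂ) (x : E) :
    sq (qv ξ (c • x)) = ‖c‖ ^ 4 * sq (qv ξ x) := by
  unfold sq
  rw [Finset.mul_sum]
  refine Finset.sum_congr rfl fun j _ => ?_
  rw [qv_smul]
  ring

theorem pair_qv_add (ξ : ι → E) (a : ι → ℝ) (x y : E) :
    pair a (qv ξ (x + y)) = pair a (qv ξ x) + pair a (qv ξ y) + 2 * cr ξ a x y := by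
  unfold pair cr
  rw [Finset.mul_sum, ← Finset.sum_add_distrib, ← Finset.sum_add_distrib]
  refine Finset.sum_congr rfl fun j _ => ?_
  unfold qv
  rw [inner_add_right, sq_norm_add_complex]
  ring

theorem cr_smul_right (ξ : ι → E) (a : ι → ℝ) (x y : E) (s : ℝ) :
    cr ξ a x ((s : ℂ) • y) = s * cr ξ a x y := by
  unfold cr
  rw [Finset.mul_sum]
  refine Finset.sum_congr rfl fun j _ => ?_
  rw [inner_smul_right]
  have : (starRingEnd ℂ) (inner ℂ (ξ j) x : ℂ) * ((s : ℂ) * (inner ℂ (ξ j) y : ℂ)) =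
      (s : ℂ) * ((starRingEnd ℂ) (inner ℂ (ξ j) x : ℂ) * (inner ℂ (ξ j) y : ℂ)) := by ring
  rw [this, Complex.re_ofReal_mul]
  ring

theorem abs_cr_le (ξ : ι → E) (hB : Bessel ξ) (b : ι → ℝ) (x y : E) :
    |cr ξ b x y| ≤ ‖b‖ * (‖x‖ * ‖y‖) := by
  unfold cr
  have hcs : ∑ j, ‖(inner ℂ (ξ j) x : ℂ)‖ * ‖(inner ℂ (ξ j) y : ℂ)‖ ≤ ‖x‖ * ‖y‖ := by
    have h1 := Finset.sum_mul_sq_le_sq_mul_sq Finset.univ
      (fun j => ‖(inner ℂ (ξ j) x : ℂ)‖) (fun j => ‖(inner ℂ (ξ j) y : ℂ)‖)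
    have hx := hB x
    have hy := hB y
    unfold qv at hx hy
    have hx0 : 0 ≤ ∑ j, ‖(inner ℂ (ξ j) x : ℂ)‖ ^ 2 := Finset.sum_nonneg fun j _ => sq_nonneg _
    have hy0 : 0 ≤ ∑ j, ‖(inner ℂ (ξ j) y : ℂ)‖ ^ 2 := Finset.sum_nonneg fun j _ => sq_nonneg _
    have h2 : (∑ j, ‖(inner ℂ (ξ j) x : ℂ)‖ * ‖(inner ℂ (ξ j) y : ℂ)‖) ^ 2 ≤
        (‖x‖ * ‖y‖) ^ 2 := by
      rw [mul_pow]
      exact h1.trans (mul_le_mul hx hy hy0 (sq_nonneg _))
    exact abs_le_of_sq_le_sq' h2 (by positivity) |>.2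
  calc |∑ j, b j * ((starRingEnd ℂ) (inner ℂ (ξ j) x : ℂ) * (inner ℂ (ξ j) y : ℂ)).re|
      ≤ ∑ j, |b j * ((starRingEnd ℂ) (inner ℂ (ξ j) x : ℂ) * (inner ℂ (ξ j) y : ℂ)).re| :=
        Finset.abs_sum_le_sum_abs _ _
    _ ≤ ∑ j, ‖b‖ * (‖(inner ℂ (ξ j) x : ℂ)‖ * ‖(inner ℂ (ξ j) y : ℂ)‖) := by
        refine Finset.sum_le_sum fun j _ => ?_
        rw [abs_mul]
        have h1 : |b j| ≤ ‖b‖ := by
          have := norm_le_pi_norm b j
          rwa [Real.norm_eq_abs] at this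
        have h2 : |((starRingEnd ℂ) (inner ℂ (ξ j) x : ℂ) * (inner ℂ (ξ j) y : ℂ)).re| ≤
            ‖(inner ℂ (ξ j) x : ℂ)‖ * ‖(inner ℂ (ξ j) y : ℂ)‖ := by
          refine (Complex.abs_re_le_norm _).trans ?_
          rw [norm_mul, Complex.norm_conj]
        exact mul_le_mul h1 h2 (abs_nonneg _) (norm_nonneg _)
    _ = ‖b‖ * ∑ j, (‖(inner ℂ (ξ j) x : ℂ)‖ * ‖(inner ℂ (ξ j) y : ℂ)‖) := by
        rw [Finset.mul_sum]
    _ ≤ ‖b‖ * (‖x‖ * ‖y‖) := mul_le_mul_of_nonneg_left hcs (norm_nonneg _)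

theorem homog_bound (F : E → ℝ) (n : ℕ) (M : ℝ) (h0 : F 0 ≤ M * ‖(0 : E)‖ ^ n)
    (hF : ∀ (c : ℂ) (x : E), F (c • x) = ‖c‖ ^ n * F x)
    (hM : ∀ x : E, ‖x‖ ≤ 1 → F x ≤ M) (z : E) : F z ≤ M * ‖z‖ ^ n := by
  by_cases hz : z = 0
  · rw [hz]
    exact h0
  · have hz' : ‖z‖ ≠ 0 := norm_ne_zero_iff.2 hz
    have e : z = ((‖z‖ : ℝ) : ℂ) • (((‖z‖⁻¹ : ℝ) : ℂ) • z) := by
      rw [smul_smul, ← Complex.ofReal_mul, mul_inv_cancel₀ hz', Complex.ofReal_one, one_smul]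
    have hn : ‖(((‖z‖⁻¹ : ℝ) : ℂ) • z)‖ ≤ 1 := by
      rw [norm_smul, Complex.norm_real, norm_inv, norm_norm, inv_mul_cancel₀ hz']
    have h1 := hM _ hn
    calc F z = F (((‖z‖ : ℝ) : ℂ) • (((‖z‖⁻¹ : ℝ) : ℂ) • z)) := by rw [← e]
      _ = ‖z‖ ^ n * F (((‖z‖⁻¹ : ℝ) : ℂ) • z) := by
          rw [hF, Complex.norm_real, norm_norm]
      _ ≤ ‖z‖ ^ n * M := mul_le_mul_of_nonneg_left h1 (by positivity)
      _ = M * ‖z‖ ^ n := mul_comm _ _

end

theorem sysLoc (hM : Maurey) (hs : SysGood) : SysLoc := by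
  intro ι _ E _ _ _ ξ t β ε k hB ht hβ0 hβ1 hε0 hε1 hk
  obtain ⟨hgood, -, hmax, hle, -, hsig, hs0, hs1⟩ := hs ι E ξ hB
  have hk' : (0 : ℝ) < 1 / (k : ℝ) := by
    have : (1 : ℝ) ≤ (k : ℝ) := by exact_mod_cast hk
    positivity
  obtain ⟨B1, hB1m, hB1, hB1'⟩ := hM ι k t ((1 - ε) * sig2 ξ + 1 / k) hk ht
    (by have := mul_nonneg (sub_nonneg.2 hε1.le) hs0; linarith)
  obtain ⟨B2, hB2m, hB2, hB2'⟩ := hM ι k (β * t) (3 / 4 * sig2 ξ + 1 / k) hk (mul_pos hβ0 ht)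
    (by linarith)
  refine ⟨B1 ∪ B2, hB1m.union hB2m, ?_, ?_⟩
  · refine (measureReal_union_le B1 B2).trans ?_
    rw [mul_add]
    exact add_le_add hB1 hB2
  intro a ha hta
  have ha1 : a ∉ B1 := fun h => ha (Or.inl h)
  have ha2 : a ∉ B2 := fun h => ha (Or.inr h)
  -- general homogeneous bounds
  have hPle : ∀ z : E, pair a (qv ξ z) ≤ Lam ξ a * ‖z‖ ^ 2 := fun z =>
    homog_bound (fun z => pair a (qv ξ z)) 2 (Lam ξ a) (by simp [qv_zero, pair])
      (fun c x => pair_qv_smul ξ a c x) (hle a) z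
  have hSle : ∀ z : E, sq (qv ξ z) ≤ sig2 ξ * ‖z‖ ^ 4 := fun z =>
    homog_bound (fun z => sq (qv ξ z)) 4 (sig2 ξ) (by simp [qv_zero, sq])
      (fun c x => sq_qv_smul ξ c x) hsig z
  obtain ⟨w, hw1, hw⟩ := hmax a
  have hL0 : 0 < Lam ξ a := ht.trans hta
  have hwn : ‖w‖ = 1 := by
    have h := hPle w
    rw [hw] at h
    have h2 : 1 ≤ ‖w‖ ^ 2 := by
      by_contra hc
      push Not at hc
      nlinarith
    nlinarith [norm_nonneg w]
  refine ⟨qv ξ w, ?_, hsig w hw1, ?_, ?_⟩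
  · by_contra hc
    push Not at hc
    have := hB1' a ha1 (qv ξ w) (qv_nonneg ξ w) (sum_qv_le ξ hB w hw1) (by linarith)
    rw [hw] at this
    linarith
  · intro b
    rw [← hw, ← pair_add_left]
    exact hle (a + b) w hw1
  -- the gap
  have hgap1 : ∀ v : E, ‖v‖ ≤ 1 → ‖v‖ = 1 → inner ℂ w v = (0 : ℂ) →
      pair a (qv ξ v) ≤ β * t := by
    intro v hv1 hvn hvw
    have hvw' : inner ℂ v w = (0 : ℂ) := by
      rw [← inner_conj_symm, hvw, map_zero]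
    -- norms of the four combinations
    have hnorm : ∀ c : ℂ, ‖c‖ = 1 → ‖v + c • w‖ ^ 4 = 4 := by
      intro c hc
      have h2 : ‖v + c • w‖ ^ 2 = 2 := by
        rw [@norm_add_sq ℂ, inner_smul_right, hvw', norm_smul, hc, hvn, hwn]
        norm_num
      calc ‖v + c • w‖ ^ 4 = (‖v + c • w‖ ^ 2) ^ 2 := by ring
        _ = 4 := by rw [h2]; norm_num
    have e1 := hSle v
    have e2 := hSle w
    have e3 := hSle (v + (1 : ℂ) • w)
    have e4 := hSle (v + (-1 : ℂ) • w)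
    have e5 := hSle (v + Complex.I • w)
    have e6 := hSle (v + (-Complex.I) • w)
    rw [hnorm 1 (by simp)] at e3
    rw [hnorm (-1) (by simp)] at e4
    rw [hnorm Complex.I (by simp)] at e5
    rw [hnorm (-Complex.I) (by simp)] at e6
    rw [hvn] at e1
    rw [hwn] at e2
    have hsum : sq (qv ξ v) + sq (qv ξ w) + 1 / 4 * (sq (qv ξ (v + (1 : ℂ) • w)) +
        sq (qv ξ (v + (-1 : ℂ) • w)) + sq (qv ξ (v + Complex.I • w)) +
        sq (qv ξ (v + (-Complex.I) • w))) = 2 * ∑ j, (qv ξ v j + qv ξ w j) ^ 2 := by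
      unfold sq
      rw [← Finset.sum_add_distrib, ← Finset.sum_add_distrib, ← Finset.sum_add_distrib,
        ← Finset.sum_add_distrib, Finset.mul_sum, ← Finset.sum_add_distrib, Finset.mul_sum]
      refine Finset.sum_congr rfl fun j _ => ?_
      have h := six_id (inner ℂ (ξ j) v : ℂ) (inner ℂ (ξ j) w : ℂ)
      unfold qv
      rw [inner_add_right, inner_add_right, inner_add_right, inner_add_right, inner_smul_right,
        inner_smul_right, inner_smul_right, inner_smul_right]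
      rw [← h]
      have r1 : (inner ℂ (ξ j) v : ℂ) + 1 * (inner ℂ (ξ j) w : ℂ) =
          (inner ℂ (ξ j) v : ℂ) + (inner ℂ (ξ j) w : ℂ) := by ring
      have r2 : (inner ℂ (ξ j) v : ℂ) + -1 * (inner ℂ (ξ j) w : ℂ) =
          (inner ℂ (ξ j) v : ℂ) - (inner ℂ (ξ j) w : ℂ) := by ring
      have r3 : (inner ℂ (ξ j) v : ℂ) + -Complex.I * (inner ℂ (ξ j) w : ℂ) =
          (inner ℂ (ξ j) v : ℂ) - Complex.I * (inner ℂ (ξ j) w : ℂ) := by ring
      rw [r1, r2, r3]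
    have hq : sq (fun j => (qv ξ v j + qv ξ w j) / 2) ≤ 3 / 4 * sig2 ξ := by
      have h : sq (fun j => (qv ξ v j + qv ξ w j) / 2) =
          1 / 4 * ∑ j, (qv ξ v j + qv ξ w j) ^ 2 := by
        unfold sq
        rw [Finset.mul_sum]
        refine Finset.sum_congr rfl fun j _ => ?_
        ring
      rw [h]
      linarith
    have hp : pair a (fun j => (qv ξ v j + qv ξ w j) / 2) =
        (pair a (qv ξ v) + pair a (qv ξ w)) / 2 := by
      unfold pair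
      rw [← Finset.sum_add_distrib, Finset.sum_div]
      refine Finset.sum_congr rfl fun j _ => ?_
      ring
    have hlt := hB2' a ha2 (fun j => (qv ξ v j + qv ξ w j) / 2)
      (fun j => by
        have h1 := qv_nonneg ξ v j
        have h2 := qv_nonneg ξ w j
        positivity)
      (by
        have h1 := sum_qv_le ξ hB v hv1
        have h2 := sum_qv_le ξ hB w hw1
        rw [← Finset.sum_div, Finset.sum_add_distrib]
        linarith)
      (by linarith)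
    rw [hp, hw] at hlt
    nlinarith
  have hgap : ∀ v : E, inner ℂ w v = (0 : ℂ) → pair a (qv ξ v) ≤ β * t * ‖v‖ ^ 2 := by
    intro v hvw
    by_cases hv : v = 0
    · rw [hv, qv_zero]
      simp [pair]
    · have hv' : ‖v‖ ≠ 0 := norm_ne_zero_iff.2 hv
      have e : v = ((‖v‖ : ℝ) : ℂ) • (((‖v‖⁻¹ : ℝ) : ℂ) • v) := by
        rw [smul_smul, ← Complex.ofReal_mul, mul_inv_cancel₀ hv', Complex.ofReal_one, one_smul]
      have hn : ‖(((‖v‖⁻¹ : ℝ) : ℂ) • v)‖ = 1 := by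
        rw [norm_smul, Complex.norm_real, norm_inv, norm_norm, inv_mul_cancel₀ hv']
      have ho : inner ℂ w (((‖v‖⁻¹ : ℝ) : ℂ) • v) = (0 : ℂ) := by
        rw [inner_smul_right, hvw, mul_zero]
      have h1 := hgap1 _ hn.le hn ho
      calc pair a (qv ξ v) = pair a (qv ξ (((‖v‖ : ℝ) : ℂ) • (((‖v‖⁻¹ : ℝ) : ℂ) • v))) := by
            rw [← e]
        _ = ‖v‖ ^ 2 * pair a (qv ξ (((‖v‖⁻¹ : ℝ) : ℂ) • v)) := by
            rw [pair_qv_smul, Complex.norm_real, norm_norm]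
        _ ≤ ‖v‖ ^ 2 * (β * t) := mul_le_mul_of_nonneg_left h1 (by positivity)
        _ = β * t * ‖v‖ ^ 2 := mul_comm _ _
  -- the cross term vanishes
  have hcross : ∀ (α : ℂ) (v : E), inner ℂ w v = (0 : ℂ) → cr ξ a (α • w) v = 0 := by
    intro α v hvw
    have hort : inner ℂ (α • w) v = (0 : ℂ) := by
      rw [inner_smul_left, hvw, mul_zero]
    have hP : pair a (qv ξ (α • w)) = ‖α‖ ^ 2 * Lam ξ a := by
      rw [pair_qv_smul, hw]
    have key : ∀ s : ℝ, 2 * s * cr ξ a (α • w) v ≤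
        s ^ 2 * (Lam ξ a * ‖v‖ ^ 2 - pair a (qv ξ v)) := by
      intro s
      have h1 := hPle (α • w + (s : ℂ) • v)
      have h2 : ‖α • w + (s : ℂ) • v‖ ^ 2 = ‖α‖ ^ 2 + s ^ 2 * ‖v‖ ^ 2 := by
        rw [@norm_add_sq ℂ, inner_smul_right, hort, norm_smul, norm_smul, hwn,
          Complex.norm_real, Real.norm_eq_abs, mul_pow, mul_pow, sq_abs]
        simp
      rw [pair_qv_add, hP, pair_qv_smul, cr_smul_right, h2, Complex.norm_real, Real.norm_eq_abs,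
        sq_abs] at h1
      nlinarith
    set c := cr ξ a (α • w) v with hc
    set G := Lam ξ a * ‖v‖ ^ 2 - pair a (qv ξ v) with hG
    have hG0 : 0 ≤ G := sub_nonneg.2 (hPle v)
    have k1 := key (c / (G + 1))
    have hG1 : 0 < G + 1 := by linarith
    have k2 : 2 * (c / (G + 1)) * c = 2 * c ^ 2 / (G + 1) := by ring
    have k3 : (c / (G + 1)) ^ 2 * G ≤ c ^ 2 / (G + 1) := by
      rw [div_pow, div_mul_eq_mul_div, div_le_div_iff₀ (by positivity) hG1]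
      nlinarith [sq_nonneg c, mul_nonneg (sq_nonneg c) hG1.le]
    have k4 : 2 * c ^ 2 / (G + 1) ≤ c ^ 2 / (G + 1) := by
      rw [← k2]
      exact k1.trans k3
    have k5 : c ^ 2 / (G + 1) ≤ 0 := by
      have : 2 * c ^ 2 / (G + 1) = 2 * (c ^ 2 / (G + 1)) := by ring
      linarith
    have k6 : c ^ 2 ≤ 0 := by
      by_contra hcc
      push Not at hcc
      have := div_pos hcc hG1
      linarith
    have : c ^ 2 = 0 := le_antisymm k6 (sq_nonneg c)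
    exact pow_eq_zero_iff (two_ne_zero) |>.1 this
  -- the perturbation
  intro b hb
  obtain ⟨z, hz1, hz⟩ := hmax (a + b)
  rw [← hz]
  set r := ‖b‖ with hr
  have hr0 : 0 ≤ r := norm_nonneg b
  set α : ℂ := inner ℂ w z with hα
  set v : E := z - α • w with hv
  have hzv : z = α • w + v := by rw [hv]; abel
  have hvw : inner ℂ w v = (0 : ℂ) := by
    rw [hv, inner_sub_right, inner_smul_right, ← hα, inner_self_eq_norm_sq_to_K, hwn]
    simp
  have hort : inner ℂ (α • w) v = (0 : ℂ) := by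
    rw [inner_smul_left, hvw, mul_zero]
  have hnorm : ‖α‖ ^ 2 + ‖v‖ ^ 2 ≤ 1 := by
    have h2 : ‖z‖ ^ 2 = ‖α‖ ^ 2 + ‖v‖ ^ 2 := by
      rw [hzv, @norm_add_sq ℂ, hort, norm_smul, hwn]
      simp
    have h3 : ‖z‖ ^ 2 ≤ 1 := by nlinarith [norm_nonneg z]
    linarith
  have hA : pair a (qv ξ z) ≤ ‖α‖ ^ 2 * Lam ξ a + β * t * ‖v‖ ^ 2 := by
    rw [hzv, pair_qv_add, pair_qv_smul, hw, hcross α v hvw]
    have := hgap v hvw
    linarith
  have hbv : pair b (qv ξ v) ≤ r * ‖v‖ ^ 2 := by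
    refine homog_bound (fun z => pair b (qv ξ z)) 2 r (by simp [qv_zero, pair])
      (fun c x => pair_qv_smul ξ b c x) (fun x hx => ?_) v
    exact (abs_le.1 (abs_pair_le b (qv ξ x) (qv_nonneg ξ x) (sum_qv_le ξ hB x hx))).2
  have hbw : |pair b (qv ξ w)| ≤ r := abs_pair_le b (qv ξ w) (qv_nonneg ξ w)
    (sum_qv_le ξ hB w hw1)
  have hα1 : ‖α‖ ≤ 1 := by nlinarith [norm_nonneg α, sq_nonneg ‖v‖]
  have hbc : cr ξ b (α • w) v ≤ r * ‖v‖ := by
    have h := (abs_le.1 (abs_cr_le ξ hB b (α • w) v)).2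
    rw [norm_smul, hwn, mul_one] at h
    refine h.trans ?_
    refine mul_le_mul_of_nonneg_left ?_ hr0
    have := mul_le_mul_of_nonneg_right hα1 (norm_nonneg v)
    linarith
  have hBz : pair b (qv ξ z) ≤ ‖α‖ ^ 2 * pair b (qv ξ w) + r * ‖v‖ ^ 2 + 2 * (r * ‖v‖) := by
    rw [hzv, pair_qv_add, pair_qv_smul]
    linarith
  rw [pair_add_left]
  set x := ‖v‖ with hx
  have hx0 : 0 ≤ x := norm_nonneg v
  set p := pair b (qv ξ w) with hp
  have hp1 := abs_le.1 hbw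
  have hβ : 0 < (1 - β) * t := mul_pos (by linarith) ht
  have hLp : 0 ≤ Lam ξ a + p := by
    have : (1 - β) * t ≤ t := by nlinarith
    linarith [hp1.1]
  have hstep : ‖α‖ ^ 2 * (Lam ξ a + p) ≤ (1 - x ^ 2) * (Lam ξ a + p) :=
    mul_le_mul_of_nonneg_right (by linarith) hLp
  have hG : (1 - β) * t / 2 ≤ Lam ξ a - β * t - 2 * r := by nlinarith
  have hG' : Lam ξ a - β * t - 2 * r ≤ Lam ξ a + p - β * t - r := by linarith [hp1.1]
  have hmain : pair a (qv ξ z) + pair b (qv ξ z) ≤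
      Lam ξ a + p - (1 - β) * t / 2 * x ^ 2 + 2 * r * x := by
    have h1 : (1 - β) * t / 2 * x ^ 2 ≤ (Lam ξ a + p - β * t - r) * x ^ 2 :=
      mul_le_mul_of_nonneg_right (hG.trans hG') (sq_nonneg x)
    nlinarith
  have hfin : 2 * r * x - (1 - β) * t / 2 * x ^ 2 ≤ 2 / ((1 - β) * t) * r ^ 2 := by
    set g := (1 - β) * t with hg
    have e : 2 / g * r ^ 2 - (2 * r * x - g / 2 * x ^ 2) = (2 * r - g * x) ^ 2 / (2 * g) := by
      field_simp
      ring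
    have : 0 ≤ (2 * r - g * x) ^ 2 / (2 * g) := by positivity
    linarith
  linarith

end Pool.Agent.Work.MP_3574a2_pr
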